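import Mathlib

set_option autoImplicit false

namespace Pool.Agent.MP_0e403a_al

open scoped BigOperators

section Descent

variable {F : Type*} [Field F] [StarRing F]

/-- A field involution is nontrivial. -/
def StarNontrivial (F : Type*) [Field F] [StarRing F] : Prop := ∃ a : F, star a ≠ a

/-- Fixed points of a semilinear involution on a finite vector space. -/
theorem card_eq_sq_fixed (hF : StarNontrivial F) {W : Type*} [AddCommGroup W] [Module F W] [Finite W]
    (σ : W → W) (hadd : ∀ x y, σ (x + y) = σ x + σ y)
    (hsmul : ∀ (c : F) (x : W), σ (c • x) = star c • σ x) (hinv : ∀ x, σ (σ x) = x) :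
    Nat.card W = Nat.card {w : W // σ w = w} ^ 2 := by
  classical
  obtain ⟨θ, hθ⟩ := hF
  have hne : θ - star θ ≠ 0 := sub_ne_zero.mpr (Ne.symm hθ)
  have hsub : ∀ x y, σ (x - y) = σ x - σ y := by
    intro x y
    have h := hadd (x - y) y
    rw [sub_add_cancel] at h
    rw [h, add_sub_cancel_right]
  have hstar : star (θ - star θ) = -(θ - star θ) := by
    rw [star_sub, star_star]; ring
  let e : ({w : W // σ w = w} × {w : W // σ w = w}) ≃ W :=
    { toFun := fun p => p.1.1 + θ • p.2.1
      invFun := fun w =>
        (⟨w - θ • ((θ - star θ)⁻¹ • (w - σ w)), by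
            rw [hsub, hsmul, hsmul, hsub, hinv]
            rw [star_inv₀, hstar]
            have h1 : (σ w - w) = -(w - σ w) := by abel
            rw [h1, inv_neg, neg_smul_neg]
            have h2 : w = σ w + (w - σ w) := by abel
            have h3 : θ • (θ - star θ)⁻¹ • (w - σ w) = star θ • (θ - star θ)⁻¹ • (w - σ w) + (w - σ w) := by
              have h4 : (θ - star θ) • (θ - star θ)⁻¹ • (w - σ w) = (w - σ w) := by
                rw [smul_smul, mul_inv_cancel₀ hne, one_smul]
              generalize hv : (θ - star θ)⁻¹ • (w - σ w) = v at h4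
              rw [← h4, sub_smul]
              abel
            rw [h3]
            abel⟩,
         ⟨(θ - star θ)⁻¹ • (w - σ w), by
            rw [hsmul, hsub, hinv, star_inv₀, hstar]
            have h1 : (σ w - w) = -(w - σ w) := by abel
            rw [h1, inv_neg, neg_smul_neg]⟩)
      left_inv := by
        rintro ⟨⟨u, hu⟩, ⟨v, hv⟩⟩
        have key : (θ - star θ)⁻¹ • (u + θ • v - σ (u + θ • v)) = v := by
          rw [hadd, hsmul, hu, hv]
          have : u + θ • v - (u + star θ • v) = (θ - star θ) • v := by
            rw [sub_smul]; abel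
          rw [this, smul_smul, inv_mul_cancel₀ hne, one_smul]
        ext
        · simp only [key]
          abel
        · simp only [key]
      right_inv := by
        intro w
        simp }
  rw [← Nat.card_congr e, Nat.card_prod, sq]

/-- The fixed field has `q` elements if the field has `q ^ 2` elements. -/
theorem card_fixed (hF : StarNontrivial F) [Finite F] {q : ℕ} (hq : Nat.card F = q ^ 2) :
    Nat.card {a : F // star a = a} = q := by
  have h := card_eq_sq_fixed (W := F) hF (fun a => star a) (fun x y => star_add x y)
    (fun c x => by simp) (fun x => star_star x)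
  rw [hq] at h
  exact (Nat.pow_left_injective (by norm_num : (2:ℕ) ≠ 0) h).symm

theorem card_fixed_of_card (hF : StarNontrivial F) {q m : ℕ} {W : Type*} [AddCommGroup W] [Module F W] [Finite W]
    (σ : W → W) (hadd : ∀ x y, σ (x + y) = σ x + σ y)
    (hsmul : ∀ (c : F) (x : W), σ (c • x) = star c • σ x) (hinv : ∀ x, σ (σ x) = x)
    (hW : Nat.card W = (q ^ 2) ^ m) :
    Nat.card {w : W // σ w = w} = q ^ m := by
  have h := card_eq_sq_fixed hF σ hadd hsmul hinv
  rw [hW, ← pow_mul, mul_comm 2 m, pow_mul] at h
  exact (Nat.pow_left_injective (by norm_num : (2:ℕ) ≠ 0) h).symm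

/-- For `a` of norm one, the semilinear involution `w ↦ a * star w` has `q` fixed points. -/
theorem card_fixed_twist (hF : StarNontrivial F) [Finite F] {q : ℕ} (hq : Nat.card F = q ^ 2) {a : F}
    (ha : a * star a = 1) : Nat.card {w : F // a * star w = w} = q := by
  have := card_fixed_of_card (q := q) (m := 1) hF (W := F) (fun w => a * star w)
    (fun x y => by simp [mul_add]) (fun c x => by simp; ring)
    (fun x => by simp [star_mul']; rw [← mul_assoc, ha, one_mul]) (by rw [pow_one]; exact hq)
  simpa using this

/-- The number of norm-one elements is `q + 1`. -/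
theorem card_norm_one (hF : StarNontrivial F) [Finite F] {q : ℕ} (hq : Nat.card F = q ^ 2) :
    Nat.card {a : F // a * star a = 1} = q + 1 := by
  classical
  have := Fintype.ofFinite F
  have hFq : Fintype.card F = q ^ 2 := by rw [← hq, Nat.card_eq_fintype_card]
  have hq2 : 1 < q := by
    by_contra h
    have h1 : q ≤ 1 := by omega
    have h2 : 1 < Fintype.card F := Fintype.one_lt_card
    rw [hFq] at h2
    interval_cases q <;> simp at h2
  -- the set of nonzero elements maps to the norm one elements
  have hcount : ((Finset.univ : Finset F).filter (fun w => w ≠ 0)).card =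
      ∑ a ∈ (Finset.univ : Finset F).filter (fun a => a * star a = 1), (q - 1) := by
    rw [Finset.card_eq_sum_card_fiberwise (f := fun w : F => w / star w)
      (t := (Finset.univ : Finset F).filter (fun a => a * star a = 1))]
    · apply Finset.sum_congr rfl
      intro a ha
      have ha1 : a * star a = 1 := by simpa using ha
      have h1 := card_fixed_twist hF hq ha1
      rw [Nat.card_eq_fintype_card, Fintype.card_subtype] at h1
      have h2 : ((Finset.univ : Finset F).filter (fun w => w ≠ 0)).filter (fun w => w / star w = a) =
          ((Finset.univ : Finset F).filter (fun w => a * star w = w)).erase 0 := by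
        ext w
        simp only [Finset.mem_filter, Finset.mem_univ, true_and, Finset.mem_erase]
        constructor
        · rintro ⟨hw, h⟩
          refine ⟨hw, ?_⟩
          rw [← h, div_mul_cancel₀]
          simpa using hw
        · rintro ⟨hw, h⟩
          refine ⟨hw, ?_⟩
          rw [div_eq_iff (by simpa using hw), h]
      rw [h2, Finset.card_erase_of_mem (by simp), h1]
    · intro w hw
      have hw0 : w ≠ 0 := by simpa using hw
      have hw1 : star w ≠ 0 := by simpa using hw0
      simp only [Finset.coe_filter, Finset.mem_univ, true_and, Set.mem_ofPred_eq]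
      rw [star_div₀, star_star]
      field_simp
  rw [Finset.sum_const, smul_eq_mul] at hcount
  have h3 : ((Finset.univ : Finset F).filter (fun w => w ≠ 0)).card = q ^ 2 - 1 := by
    rw [Finset.filter_ne', Finset.card_erase_of_mem (Finset.mem_univ _), Finset.card_univ, hFq]
  rw [h3] at hcount
  rw [Nat.card_eq_fintype_card, Fintype.card_subtype]
  have h4 : q ^ 2 - 1 = (q + 1) * (q - 1) := by
    obtain ⟨k, rfl⟩ : ∃ k, q = k + 2 := ⟨q - 2, by omega⟩
    have : k + 2 - 1 = k + 1 := by omega
    rw [this]
    have : (k + 2) ^ 2 = (k + 2 + 1) * (k + 1) + 1 := by ring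
    omega
  rw [h4] at hcount
  exact (Nat.eq_of_mul_eq_mul_right (by omega) hcount).symm

/-- The norm is onto the nonzero fixed elements. -/
theorem norm_surj (hF : StarNontrivial F) [Finite F] {c : F} (hc : star c = c) (hc0 : c ≠ 0) :
    ∃ a : F, a * star a = c := by
  classical
  have := Fintype.ofFinite F
  obtain ⟨q, hq⟩ : ∃ q, Nat.card F = q ^ 2 :=
    ⟨_, card_eq_sq_fixed (W := F) hF (fun a => star a) (fun x y => star_add x y)
      (fun c x => by simp) (fun x => star_star x)⟩
  have hFq : Fintype.card F = q ^ 2 := by rw [← hq, Nat.card_eq_fintype_card]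
  have hq2 : 1 < q := by
    by_contra h
    have h1 : q ≤ 1 := by omega
    have h2 : 1 < Fintype.card F := Fintype.one_lt_card
    rw [hFq] at h2
    interval_cases q <;> simp at h2
  by_contra hcon
  push Not at hcon
  have hN1 := card_norm_one hF hq
  rw [Nat.card_eq_fintype_card, Fintype.card_subtype] at hN1
  have hfix := card_fixed hF hq
  rw [Nat.card_eq_fintype_card, Fintype.card_subtype] at hfix
  set T : Finset F := ((Finset.univ : Finset F).filter (fun a => star a = a)).erase 0 with hT
  have hTc : T.card = q - 1 := by
    rw [hT, Finset.card_erase_of_mem (by simp), hfix]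
  have hcT : c ∈ T := by simp [hT, hc0, hc]
  have hmaps : ∀ w ∈ (Finset.univ : Finset F).filter (fun w => w ≠ 0), w * star w ∈ T.erase c := by
    intro w hw
    have hw0 : w ≠ 0 := by simpa using hw
    simp only [hT, Finset.mem_erase, Finset.mem_filter, Finset.mem_univ, true_and]
    refine ⟨hcon w, mul_ne_zero hw0 (by simpa using hw0), ?_⟩
    rw [star_mul', star_star, mul_comm]
  have hfib : ∀ d ∈ T.erase c, (((Finset.univ : Finset F).filter (fun w => w ≠ 0)).filter
      (fun w => w * star w = d)).card ≤ q + 1 := by
    intro d _
    by_cases hex : ∃ w0 : F, w0 ≠ 0 ∧ w0 * star w0 = d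
    · obtain ⟨w0, hw0, hd⟩ := hex
      rw [← hN1]
      apply Finset.card_le_card_of_injOn (fun w => w / w0)
      · intro w hw
        simp only [Finset.coe_filter, Finset.mem_filter, Finset.mem_univ, true_and,
          Set.mem_ofPred_eq] at hw ⊢
        obtain ⟨hw, hwd⟩ := hw
        have hs0 : star w0 ≠ 0 := by simpa using hw0
        rw [star_div₀, div_mul_div_comm, hwd, hd, div_self]
        rw [← hd]; exact mul_ne_zero hw0 hs0
      · intro w _ w' _ h
        simpa [div_left_inj' hw0] using h
    · push Not at hex
      rw [Finset.card_eq_zero.mpr]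
      · omega
      · rw [Finset.eq_empty_iff_forall_notMem]
        intro w hw
        simp only [Finset.mem_filter, Finset.mem_univ, true_and] at hw
        exact hex w hw.1 hw.2
  have hcard := Finset.card_eq_sum_card_fiberwise (f := fun w : F => w * star w)
    (s := (Finset.univ : Finset F).filter (fun w => w ≠ 0)) (t := T.erase c)
    (fun w hw => hmaps w hw)
  have hle := Finset.sum_le_card_nsmul _ _ _ hfib
  rw [← hcard, Finset.card_erase_of_mem hcT, hTc, Finset.filter_ne',
    Finset.card_erase_of_mem (Finset.mem_univ _), Finset.card_univ, hFq, smul_eq_mul] at hle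
  obtain ⟨k, rfl⟩ : ∃ k, q = k + 2 := ⟨q - 2, by omega⟩
  have e1 : k + 2 - 1 - 1 = k := by omega
  rw [e1] at hle
  have : (k + 2) ^ 2 = k * (k + 2 + 1) + (k + 4) := by ring
  omega

end Descent

end Pool.Agent.MP_0e403a_al
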