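import Mathlib
import Pool.Agent.MP_0e403a_al.Descent

set_option autoImplicit false
set_option linter.unusedSectionVars false

namespace Pool.Agent.MP_0e403a_al

open scoped BigOperators Polynomial
open Polynomial

section Dual

variable {F : Type*} [Field F] [StarRing F]

/-- The conjugate reciprocal polynomial, normalised to be monic. -/
noncomputable def dual (f : F[X]) : F[X] :=
  C (star (f.coeff 0))⁻¹ * (f.map (starRingEnd F)).reverse

/-- Self-dual monic polynomials with nonzero constant term. -/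
def SD (f : F[X]) : Prop := f.Monic ∧ f.coeff 0 ≠ 0 ∧ dual f = f

theorem natTrailingDegree_eq_zero_of (f : F[X]) (h0 : f.coeff 0 ≠ 0) : f.natTrailingDegree = 0 :=
  Nat.le_zero.mp (natTrailingDegree_le_of_ne_zero h0)

theorem natDegree_map_star (f : F[X]) : (f.map (starRingEnd F)).natDegree = f.natDegree :=
  natDegree_map _

theorem natDegree_dual {f : F[X]} (h0 : f.coeff 0 ≠ 0) : (dual f).natDegree = f.natDegree := by
  have h1 : (star (f.coeff 0))⁻¹ ≠ 0 := inv_ne_zero (by simpa using h0)
  rw [dual, natDegree_C_mul h1, reverse_natDegree, natDegree_map_star,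
    natTrailingDegree_eq_zero_of, Nat.sub_zero]
  rw [coeff_map]
  simpa using h0

theorem coeff_dual (f : F[X]) {i : ℕ} (hi : i ≤ f.natDegree) :
    (dual f).coeff i = (star (f.coeff 0))⁻¹ * star (f.coeff (f.natDegree - i)) := by
  rw [dual, coeff_C_mul, coeff_reverse, natDegree_map_star, revAt_le hi, coeff_map,
    starRingEnd_apply]

theorem coeff_zero_dual (f : F[X]) : (dual f).coeff 0 = (star (f.coeff 0))⁻¹ * star f.leadingCoeff := by
  rw [coeff_dual f (Nat.zero_le _), Nat.sub_zero]; rfl

theorem coeff_zero_dual_ne {f : F[X]} (h0 : f.coeff 0 ≠ 0) : (dual f).coeff 0 ≠ 0 := by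
  rw [coeff_zero_dual]
  refine mul_ne_zero (inv_ne_zero (by simpa using h0)) ?_
  have : f ≠ 0 := by rintro rfl; simp at h0
  simpa using this

theorem monic_dual {f : F[X]} (h0 : f.coeff 0 ≠ 0) : (dual f).Monic := by
  rw [Monic, leadingCoeff, natDegree_dual h0, coeff_dual f le_rfl, Nat.sub_self]
  exact inv_mul_cancel₀ (by simpa using h0)

theorem dual_mul (f g : F[X]) : dual (f * g) = dual f * dual g := by
  unfold dual
  rw [Polynomial.map_mul, reverse_mul_of_domain, mul_coeff_zero, star_mul', mul_inv, C_mul]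
  ring

theorem dual_one : dual (1 : F[X]) = 1 := by
  unfold dual
  have : (1 : F[X]) = C 1 := rfl
  rw [Polynomial.map_one, this, reverse_C]
  simp

theorem dual_dual {f : F[X]} (hf : f.Monic) (h0 : f.coeff 0 ≠ 0) : dual (dual f) = f := by
  have hs : star (f.coeff 0) ≠ 0 := by simpa using h0
  ext i
  by_cases hi : i ≤ f.natDegree
  · rw [coeff_dual _ (by rwa [natDegree_dual h0]), natDegree_dual h0,
      coeff_dual _ (Nat.sub_le _ _), Nat.sub_sub_self hi, coeff_zero_dual, hf.leadingCoeff]
    simp only [star_mul', star_inv₀, star_star, star_one, mul_one, inv_inv]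
    rw [← mul_assoc, mul_inv_cancel₀ h0, one_mul]
  · rw [coeff_eq_zero_of_natDegree_lt, coeff_eq_zero_of_natDegree_lt (by omega)]
    rw [natDegree_dual (coeff_zero_dual_ne h0), natDegree_dual h0]
    omega

theorem dual_dvd {f g : F[X]} (h : f ∣ g) : dual f ∣ dual g := by
  obtain ⟨k, rfl⟩ := h
  exact ⟨dual k, dual_mul f k⟩

theorem dual_dvd_iff {f g : F[X]} (hf : f.Monic) (hf0 : f.coeff 0 ≠ 0) (hg : g.Monic)
    (hg0 : g.coeff 0 ≠ 0) : dual f ∣ dual g ↔ f ∣ g := by
  constructor
  · intro h
    have := dual_dvd h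
    rwa [dual_dual hf hf0, dual_dual hg hg0] at this
  · exact dual_dvd

theorem irreducible_dual {f : F[X]} (hf : f.Monic) (h0 : f.coeff 0 ≠ 0) (hirr : Irreducible f) :
    Irreducible (dual f) := by
  have hne1 : dual f ≠ 1 := by
    intro h
    have h1 : f.natDegree = 0 := by rw [← natDegree_dual h0, h, natDegree_one]
    exact hirr.natDegree_pos.ne' h1
  rw [(monic_dual h0).irreducible_iff_natDegree]
  refine ⟨hne1, ?_⟩
  intro a b ha hb hab
  have ha0 : a.coeff 0 ≠ 0 := by
    intro h
    apply coeff_zero_dual_ne h0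
    rw [← hab, mul_coeff_zero, h, zero_mul]
  have hb0 : b.coeff 0 ≠ 0 := by
    intro h
    apply coeff_zero_dual_ne h0
    rw [← hab, mul_coeff_zero, h, mul_zero]
  have h1 : dual a * dual b = f := by rw [← dual_mul, hab, dual_dual hf h0]
  have h2 := (hf.irreducible_iff_natDegree.mp hirr).2 (dual a) (dual b) (monic_dual ha0)
    (monic_dual hb0) h1
  rwa [natDegree_dual ha0, natDegree_dual hb0] at h2

theorem SD.monic {f : F[X]} (h : SD f) : f.Monic := h.1
theorem SD.coeff_zero {f : F[X]} (h : SD f) : f.coeff 0 ≠ 0 := h.2.1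
theorem SD.dual_eq {f : F[X]} (h : SD f) : dual f = f := h.2.2

theorem SD_one : SD (1 : F[X]) := ⟨monic_one, by simp, dual_one⟩

theorem SD.mul {f g : F[X]} (hf : SD f) (hg : SD g) : SD (f * g) :=
  ⟨hf.monic.mul hg.monic, by rw [mul_coeff_zero]; exact mul_ne_zero hf.coeff_zero hg.coeff_zero,
    by rw [dual_mul, hf.dual_eq, hg.dual_eq]⟩

theorem SD.of_mul {f g : F[X]} (hf : SD f) (hfg : SD (f * g)) : SD g := by
  have h0 : g.coeff 0 ≠ 0 := by
    intro h
    apply hfg.coeff_zero
    rw [mul_coeff_zero, h, mul_zero]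
  refine ⟨hf.monic.of_mul_monic_left hfg.monic, h0, ?_⟩
  have h1 := hfg.dual_eq
  rw [dual_mul, hf.dual_eq] at h1
  exact mul_left_cancel₀ hf.monic.ne_zero h1

theorem SD.pow {f : F[X]} (hf : SD f) (k : ℕ) : SD (f ^ k) := by
  induction k with
  | zero => rw [pow_zero]; exact SD_one
  | succ k ih => rw [pow_succ]; exact ih.mul hf

theorem SD.prod {ι : Type*} (s : Finset ι) (f : ι → F[X]) (hf : ∀ i ∈ s, SD (f i)) :
    SD (∏ i ∈ s, f i) := by
  classical
  induction s using Finset.induction_on with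
  | empty => simpa using SD_one
  | insert a s ha ih =>
    rw [Finset.prod_insert ha]
    exact (hf a (Finset.mem_insert_self _ _)).mul
      (ih fun i hi => hf i (Finset.mem_insert_of_mem hi))

/-- The monic self-dual polynomials of degree `n`. -/
def SDdeg (F : Type*) [Field F] [StarRing F] (n : ℕ) : Set F[X] := {f | SD f ∧ f.natDegree = n}

theorem finite_natDegree_le [Finite F] (n : ℕ) : {f : F[X] | f.natDegree ≤ n}.Finite := by
  have : Finite (degreeLT F (n + 1)) := Finite.of_equiv _ (degreeLTEquiv F (n + 1)).toEquiv.symm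
  refine Set.Finite.subset (Set.toFinite (degreeLT F (n + 1) : Set F[X])) ?_
  intro f hf
  have hf' : f.natDegree ≤ n := hf
  rw [SetLike.mem_coe, mem_degreeLT]
  refine lt_of_le_of_lt degree_le_natDegree ?_
  exact_mod_cast Nat.lt_succ_of_le hf'

theorem finite_SDdeg [Finite F] (n : ℕ) : (SDdeg F n).Finite :=
  (finite_natDegree_le n).subset fun _ hf => hf.2.le

theorem SD_iff_coeff {n : ℕ} {f : F[X]} (hn : f.natDegree = n) :
    SD f ↔ f.coeff n = 1 ∧ f.coeff 0 * star (f.coeff 0) = 1 ∧
      ∀ i ≤ n, f.coeff i = f.coeff 0 * star (f.coeff (n - i)) := by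
  subst hn
  constructor
  · rintro ⟨h1, h2, h3⟩
    have h4 : f.coeff 0 = (star (f.coeff 0))⁻¹ := by
      conv_lhs => rw [← h3]
      rw [coeff_zero_dual, h1.leadingCoeff, star_one, mul_one]
    have h5 : f.coeff 0 * star (f.coeff 0) = 1 := by
      have h6 : star (f.coeff 0) ≠ 0 := by simpa using h2
      calc f.coeff 0 * star (f.coeff 0) = (star (f.coeff 0))⁻¹ * star (f.coeff 0) := by rw [← h4]
        _ = 1 := inv_mul_cancel₀ h6
    refine ⟨h1, h5, ?_⟩
    intro i hi
    conv_lhs => rw [← h3, coeff_dual f hi, ← h4]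
  · rintro ⟨h1, h2, h3⟩
    have h0 : f.coeff 0 ≠ 0 := left_ne_zero_of_mul (by rw [h2]; exact one_ne_zero)
    have hm : f.Monic := h1
    refine ⟨hm, h0, ?_⟩
    ext i
    by_cases hi : i ≤ f.natDegree
    · rw [coeff_dual f hi, h3 i hi]
      congr 1
      exact (eq_inv_of_mul_eq_one_left h2).symm
    · rw [coeff_eq_zero_of_natDegree_lt, coeff_eq_zero_of_natDegree_lt (by omega)]
      rw [natDegree_dual h0]; omega

/-- Vectors fixed by the reversal twisted by `a`. -/
theorem card_vec_fixed (hF : StarNontrivial F) [Finite F] {q : ℕ} (hq : Nat.card F = q ^ 2) (m : ℕ)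
    {a : F} (ha : a * star a = 1) :
    Nat.card {w : Fin m → F // (fun i => a * star (w (Fin.rev i))) = w} = q ^ m := by
  refine card_fixed_of_card hF (W := Fin m → F) (fun w i => a * star (w (Fin.rev i))) ?_ ?_ ?_ ?_
  · intro x y; funext i; simp [mul_add]
  · intro c x; funext i; simp; ring
  · intro x; funext i; simp [← mul_assoc, ha]
  · rw [Nat.card_fun, Nat.card_eq_fintype_card (α := Fin m), Fintype.card_fin, hq]

/-- Coefficient vector of a self-dual polynomial. -/
noncomputable def sdVec (m : ℕ) (a : F) (w : Fin m → F) : Fin (m + 2) → F :=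
  Fin.cons a (Fin.snoc w 1)

theorem sdVec_zero (m : ℕ) (a : F) (w : Fin m → F) : sdVec m a w 0 = a := rfl

theorem sdVec_last (m : ℕ) (a : F) (w : Fin m → F) : sdVec m a w (Fin.last _) = 1 := by
  have : (Fin.last (m + 1)) = Fin.succ (Fin.last m) := rfl
  rw [this, sdVec, Fin.cons_succ, Fin.snoc_last]

theorem sdVec_mid (m : ℕ) (a : F) (w : Fin m → F) (i : Fin m) :
    sdVec m a w i.castSucc.succ = w i := by
  rw [sdVec, Fin.cons_succ, Fin.snoc_castSucc]

theorem card_SDdeg_succ (hF : StarNontrivial F) [Finite F] {q : ℕ} (hq : Nat.card F = q ^ 2) (m : ℕ) :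
    Nat.card (SDdeg F (m + 1)) = (q + 1) * q ^ m := by
  classical
  let Y := Σ a : {a : F // a * star a = 1},
    {w : Fin m → F // (fun i => a.1 * star (w (Fin.rev i))) = w}
  have hY : Nat.card Y = (q + 1) * q ^ m := by
    have := Fintype.ofFinite {a : F // a * star a = 1}
    rw [Nat.card_sigma]
    have h1 : ∀ a : {a : F // a * star a = 1},
        Nat.card {w : Fin m → F // (fun i => a.1 * star (w (Fin.rev i))) = w} = q ^ m :=
      fun a => card_vec_fixed hF hq m a.2
    rw [Finset.sum_congr rfl (fun a _ => h1 a), Finset.sum_const, smul_eq_mul, Finset.card_univ,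
      ← Nat.card_eq_fintype_card, card_norm_one hF hq]
  rw [← hY]
  symm
  have hkey : ∀ (a : F) (w : Fin m → F) (i : ℕ) (hi : i < m + 2),
      (ofFn (m + 2) (sdVec m a w)).coeff i = sdVec m a w ⟨i, hi⟩ :=
    fun a w i hi => ofFn_coeff_eq_val_of_lt _ hi
  have hdeg : ∀ (a : F) (w : Fin m → F), (ofFn (m + 2) (sdVec m a w)).natDegree = m + 1 := by
    intro a w
    apply le_antisymm
    · exact Nat.le_of_lt_succ (ofFn_natDegree_lt (by omega) _)
    · apply le_natDegree_of_ne_zero
      rw [hkey a w (m + 1) (by omega)]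
      have : (⟨m + 1, by omega⟩ : Fin (m + 2)) = Fin.last _ := rfl
      rw [this, sdVec_last]
      exact one_ne_zero
  let toF : Y → SDdeg F (m + 1) := fun y =>
    ⟨ofFn (m + 2) (sdVec m y.1.1 y.2.1), by
      obtain ⟨⟨a, ha⟩, ⟨w, hw⟩⟩ := y
      refine ⟨(SD_iff_coeff (hdeg a w)).mpr ⟨?_, ?_, ?_⟩, hdeg a w⟩
      · rw [hkey a w (m + 1) (by omega)]
        exact sdVec_last m a w
      · rw [hkey a w 0 (by omega)]
        exact ha
      · intro i hi
        rw [hkey a w i (by omega), hkey a w 0 (by omega), hkey a w (m + 1 - i) (by omega)]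
        change sdVec m a w ⟨i, _⟩ = a * star (sdVec m a w ⟨m + 1 - i, _⟩)
        rcases Nat.eq_zero_or_pos i with rfl | hpos
        · have : (⟨m + 1 - 0, by omega⟩ : Fin (m + 2)) = Fin.last _ := rfl
          rw [this, sdVec_last, star_one, mul_one]
          rfl
        · rcases Nat.lt_or_ge i (m + 1) with hlt | hge
          · obtain ⟨j, rfl⟩ : ∃ j, i = j + 1 := ⟨i - 1, by omega⟩
            have hj : j < m := by omega
            have e1 : (⟨j + 1, by omega⟩ : Fin (m + 2)) = (⟨j, hj⟩ : Fin m).castSucc.succ := rfl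
            have e2 : (⟨m + 1 - (j + 1), by omega⟩ : Fin (m + 2)) =
                (Fin.rev (⟨j, hj⟩ : Fin m)).castSucc.succ := by
              ext
              simp only [Fin.val_succ, Fin.val_castSucc, Fin.val_rev]
              omega
            rw [e1, e2, sdVec_mid, sdVec_mid]
            exact (congrFun hw ⟨j, hj⟩).symm
          · have hi' : i = m + 1 := by omega
            subst hi'
            have e1 : (⟨m + 1, by omega⟩ : Fin (m + 2)) = Fin.last _ := rfl
            have e2 : (⟨m + 1 - (m + 1), by omega⟩ : Fin (m + 2)) = 0 := by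
              ext; simp
            rw [e1, e2, sdVec_last, sdVec_zero, ha]⟩
  refine Nat.card_congr (Equiv.ofBijective toF ⟨?_, ?_⟩)
  · rintro ⟨⟨a, ha⟩, ⟨w, hw⟩⟩ ⟨⟨a', ha'⟩, ⟨w', hw'⟩⟩ h
    have h1 : ofFn (m + 2) (sdVec m a w) = ofFn (m + 2) (sdVec m a' w') := congrArg Subtype.val h
    have h2 : a = a' := by
      have := congrArg (fun p => coeff p 0) h1
      simp only [hkey a w 0 (by omega), hkey a' w' 0 (by omega)] at this
      exact this
    subst h2
    have h3 : w = w' := by
      funext i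
      have := congrArg (fun p => coeff p (i + 1)) h1
      simp only [hkey a w (i + 1) (by omega), hkey a w' (i + 1) (by omega)] at this
      have e1 : (⟨(i : ℕ) + 1, by omega⟩ : Fin (m + 2)) = i.castSucc.succ := rfl
      rw [e1, sdVec_mid, sdVec_mid] at this
      exact this
    subst h3
    rfl
  · rintro ⟨f, hf, hn⟩
    obtain ⟨h1, h2, h3⟩ := (SD_iff_coeff hn).mp hf
    refine ⟨⟨⟨f.coeff 0, h2⟩, ⟨fun i => f.coeff (i + 1), ?_⟩⟩, ?_⟩
    · funext i
      have h4 := h3 (i + 1) (by omega)
      have h5 : m + 1 - ((i : ℕ) + 1) = (Fin.rev i : ℕ) + 1 := by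
        simp only [Fin.val_rev]
        omega
      rw [h5] at h4
      exact h4.symm
    · apply Subtype.ext
      change ofFn (m + 2) (sdVec m (f.coeff 0) fun i => f.coeff (i + 1)) = f
      ext i
      by_cases hi : i < m + 2
      · rw [hkey _ _ i hi]
        rcases Nat.eq_zero_or_pos i with rfl | hpos
        · rfl
        · rcases Nat.lt_or_ge i (m + 1) with hlt | hge
          · obtain ⟨j, rfl⟩ : ∃ j, i = j + 1 := ⟨i - 1, by omega⟩
            have hj : j < m := by omega
            have e1 : (⟨j + 1, hi⟩ : Fin (m + 2)) = (⟨j, hj⟩ : Fin m).castSucc.succ := rfl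
            rw [e1, sdVec_mid]
          · have hi' : i = m + 1 := by omega
            subst hi'
            have e1 : (⟨m + 1, hi⟩ : Fin (m + 2)) = Fin.last _ := rfl
            rw [e1, sdVec_last, h1]
      · rw [ofFn_coeff_eq_zero_of_ge _ (by omega), coeff_eq_zero_of_natDegree_lt (by omega)]

theorem card_SDdeg_zero : Nat.card (SDdeg F 0) = 1 := by
  have : SDdeg F 0 = {1} := by
    ext f
    constructor
    · rintro ⟨hf, hn⟩
      exact hf.monic.natDegree_eq_zero.mp hn
    · rintro rfl
      exact ⟨SD_one, natDegree_one⟩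
  rw [this]
  simp

end Dual

end Pool.Agent.MP_0e403a_al
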