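import Mathlib
import Pool.Agent.MP_0e403a_al.Dual

set_option autoImplicit false
set_option linter.unusedSectionVars false

namespace Pool.Agent.MP_0e403a_al

open scoped BigOperators Polynomial
open Polynomial

section Primes

variable {F : Type*} [Field F] [StarRing F]

open Classical in
/-- The self-dual prime above an irreducible polynomial. -/
noncomputable def orb (φ : F[X]) : F[X] := if dual φ = φ then φ else φ * dual φ

/-- Self-dual primes. -/
def IsPr (P : F[X]) : Prop :=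
  ∃ φ : F[X], φ.Monic ∧ Irreducible φ ∧ φ.coeff 0 ≠ 0 ∧ P = orb φ

theorem dvd_orb (φ : F[X]) : φ ∣ orb φ := by
  unfold orb
  split_ifs
  · exact dvd_rfl
  · exact dvd_mul_right _ _

theorem SD_orb {φ : F[X]} (hm : φ.Monic) (h0 : φ.coeff 0 ≠ 0) : SD (orb φ) := by
  unfold orb
  split_ifs with h
  · exact ⟨hm, h0, h⟩
  · refine ⟨hm.mul (monic_dual h0), ?_, ?_⟩
    · rw [mul_coeff_zero]; exact mul_ne_zero h0 (coeff_zero_dual_ne h0)
    · rw [dual_mul, dual_dual hm h0, mul_comm]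

theorem orb_dual {φ : F[X]} (hm : φ.Monic) (h0 : φ.coeff 0 ≠ 0) : orb (dual φ) = orb φ := by
  by_cases h : dual φ = φ
  · rw [h]
  · unfold orb
    rw [dual_dual hm h0, if_neg h, if_neg (fun h' => h h'.symm), mul_comm]

theorem eq_of_dvd_irr {ψ φ : F[X]} (hψ : ψ.Monic) (hψi : Irreducible ψ) (hφ : φ.Monic)
    (hφi : Irreducible φ) (h : ψ ∣ φ) : ψ = φ :=
  eq_of_monic_of_associated hψ hφ (hψi.associated_of_dvd hφi h)

theorem eq_or_of_dvd_orb {ψ φ : F[X]} (hψ : ψ.Monic) (hψi : Irreducible ψ) (hφ : φ.Monic)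
    (hφi : Irreducible φ) (h0 : φ.coeff 0 ≠ 0) (h : ψ ∣ orb φ) : ψ = φ ∨ ψ = dual φ := by
  unfold orb at h
  split_ifs at h with hd
  · left; exact eq_of_dvd_irr hψ hψi hφ hφi h
  · rcases hψi.prime.dvd_or_dvd h with h | h
    · left; exact eq_of_dvd_irr hψ hψi hφ hφi h
    · right; exact eq_of_dvd_irr hψ hψi (monic_dual h0) (irreducible_dual hφ h0 hφi) h

theorem orb_eq_of_dvd {ψ φ : F[X]} (hψ : ψ.Monic) (hψi : Irreducible ψ) (hφ : φ.Monic)
    (hφi : Irreducible φ) (h0 : φ.coeff 0 ≠ 0) (h : ψ ∣ orb φ) : orb ψ = orb φ := by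
  rcases eq_or_of_dvd_orb hψ hψi hφ hφi h0 h with h | h
  · rw [h]
  · rw [h, orb_dual hφ h0]

theorem IsPr.SD {P : F[X]} (h : IsPr P) : SD P := by
  obtain ⟨φ, h1, _, h3, rfl⟩ := h
  exact SD_orb h1 h3

theorem IsPr.natDegree_pos {P : F[X]} (h : IsPr P) : 0 < P.natDegree := by
  have hm := h.SD.monic
  obtain ⟨φ, h1, h2, h3, h4⟩ := h
  have h5 : φ ∣ P := h4 ▸ dvd_orb φ
  exact lt_of_lt_of_le h2.natDegree_pos (natDegree_le_of_dvd h5 hm.ne_zero)

theorem IsPr.ne_one {P : F[X]} (h : IsPr P) : P ≠ 1 := by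
  rintro rfl
  simpa using h.natDegree_pos

theorem isCoprime_of_irr {φ ψ : F[X]} (hφ : φ.Monic) (hφi : Irreducible φ) (hψ : ψ.Monic)
    (hψi : Irreducible ψ) (h : φ ≠ ψ) : IsCoprime φ ψ := by
  exact hφi.coprime_iff_not_dvd.mpr (fun h1 => h (eq_of_dvd_irr hφ hφi hψ hψi h1))

theorem orb_dvd {φ f : F[X]} (hφ : φ.Monic) (hφi : Irreducible φ) (h0 : φ.coeff 0 ≠ 0)
    (hf : SD f) (h : φ ∣ f) : orb φ ∣ f := by
  unfold orb
  split_ifs with hd
  · exact h
  · have h1 : dual φ ∣ f := by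
      rw [← hf.dual_eq]; exact dual_dvd h
    exact (isCoprime_of_irr hφ hφi (monic_dual h0) (irreducible_dual hφ h0 hφi)
      (fun h' => hd h'.symm)).mul_dvd h h1

theorem coeff_zero_ne_of_dvd {φ f : F[X]} (hf : f.coeff 0 ≠ 0) (h : φ ∣ f) : φ.coeff 0 ≠ 0 := by
  obtain ⟨k, rfl⟩ := h
  rw [mul_coeff_zero] at hf
  exact left_ne_zero_of_mul hf

/-- every nonunit has a monic irreducible divisor -/
theorem exists_monic_irr {f : F[X]} (hf : f ≠ 0) (hu : ¬ IsUnit f) :
    ∃ φ : F[X], φ.Monic ∧ Irreducible φ ∧ φ ∣ f := by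
  classical
  obtain ⟨φ, h1, h2⟩ := WfDvdMonoid.exists_irreducible_factor hu hf
  have h3 : Associated φ (normalize φ) := associated_normalize φ
  exact ⟨normalize φ, monic_normalize h1.ne_zero, h3.irreducible h1, h3.symm.dvd.trans h2⟩

theorem isCoprime_of_monic_irr {f g : F[X]} (h0 : f ≠ 0)
    (H : ∀ φ : F[X], φ.Monic → Irreducible φ → φ ∣ f → ¬ φ ∣ g) : IsCoprime f g := by
  apply isCoprime_of_irreducible_dvd (fun h => h0 h.1)
  intro z hz hzf hzg
  classical
  have h3 : Associated z (normalize z) := associated_normalize z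
  exact H (normalize z) (monic_normalize hz.ne_zero) (h3.irreducible hz)
    (h3.symm.dvd.trans hzf) (h3.symm.dvd.trans hzg)

theorem IsPr.isCoprime {P Q : F[X]} (hP : IsPr P) (hQ : IsPr Q) (h : P ≠ Q) : IsCoprime P Q := by
  apply isCoprime_of_monic_irr hP.SD.monic.ne_zero
  intro φ hφ hφi h1 h2
  obtain ⟨a, ha, hai, ha0, rfl⟩ := hP
  obtain ⟨b, hb, hbi, hb0, rfl⟩ := hQ
  exact h ((orb_eq_of_dvd hφ hφi ha hai ha0 h1).symm.trans (orb_eq_of_dvd hφ hφi hb hbi hb0 h2))

theorem exists_isPr_dvd {f : F[X]} (hf : SD f) (h1 : f ≠ 1) : ∃ P, IsPr P ∧ P ∣ f := by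
  have hu : ¬ IsUnit f := fun h => h1 (hf.monic.eq_one_of_isUnit h)
  obtain ⟨φ, h2, h3, h4⟩ := exists_monic_irr hf.monic.ne_zero hu
  have h5 : φ.coeff 0 ≠ 0 := coeff_zero_ne_of_dvd hf.coeff_zero h4
  exact ⟨orb φ, ⟨φ, h2, h3, h5, rfl⟩, orb_dvd h2 h3 h5 hf h4⟩

/-- If `φ ∣ P` with `P` prime and `φ` divides the self-dual `f`, then `P ∣ f`. -/
theorem IsPr.dvd_of_irr_dvd {P φ f : F[X]} (hP : IsPr P) (hφ : φ.Monic) (hφi : Irreducible φ)
    (hφP : φ ∣ P) (hf : MP_0e403a_al.SD f) (h : φ ∣ f) : P ∣ f := by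
  obtain ⟨a, ha, hai, ha0, rfl⟩ := hP
  have h0 : φ.coeff 0 ≠ 0 := coeff_zero_ne_of_dvd hf.coeff_zero h
  rw [← orb_eq_of_dvd hφ hφi ha hai ha0 hφP]
  exact orb_dvd hφ hφi h0 hf h

variable [Finite F]

open Classical in
/-- Monic irreducible divisors. -/
noncomputable def irrs (f : F[X]) : Finset F[X] :=
  (finite_natDegree_le f.natDegree).toFinset.filter
    (fun φ => φ.Monic ∧ Irreducible φ ∧ φ ∣ f)

theorem mem_irrs {f φ : F[X]} (hf : f ≠ 0) :
    φ ∈ irrs f ↔ φ.Monic ∧ Irreducible φ ∧ φ ∣ f := by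
  simp only [irrs, Finset.mem_filter, Set.Finite.mem_toFinset, Set.mem_ofPred_eq,
    and_iff_right_iff_imp]
  rintro ⟨_, _, h⟩
  exact natDegree_le_of_dvd h hf

open Classical in
/-- The primes of degree at most `n`. -/
noncomputable def prs (F : Type*) [Field F] [StarRing F] [Finite F] (n : ℕ) : Finset F[X] :=
  (finite_natDegree_le n).toFinset.filter (fun P => IsPr P)

theorem mem_prs {n : ℕ} {P : F[X]} : P ∈ prs F n ↔ IsPr P ∧ P.natDegree ≤ n := by
  simp only [prs, Finset.mem_filter, Set.Finite.mem_toFinset, Set.mem_ofPred_eq]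
  tauto

open Classical in
/-- The primes dividing `f`. -/
noncomputable def primesOf (f : F[X]) : Finset F[X] :=
  (prs F f.natDegree).filter (fun P => P ∣ f)

theorem mem_primesOf {f P : F[X]} (hf : f ≠ 0) : P ∈ primesOf f ↔ IsPr P ∧ P ∣ f := by
  simp only [primesOf, Finset.mem_filter, mem_prs]
  constructor
  · rintro ⟨⟨h1, _⟩, h2⟩; exact ⟨h1, h2⟩
  · rintro ⟨h1, h2⟩; exact ⟨⟨h1, natDegree_le_of_dvd h2 hf⟩, h2⟩

open Classical in
theorem primesOf_eq_image {f : F[X]} (hf : SD f) : primesOf f = (irrs f).image orb := by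
  ext P
  rw [mem_primesOf hf.monic.ne_zero, Finset.mem_image]
  constructor
  · rintro ⟨⟨φ, h1, h2, h3, rfl⟩, h⟩
    exact ⟨φ, (mem_irrs hf.monic.ne_zero).mpr ⟨h1, h2, (dvd_orb φ).trans h⟩, rfl⟩
  · rintro ⟨φ, h, rfl⟩
    obtain ⟨h1, h2, h3⟩ := (mem_irrs hf.monic.ne_zero).mp h
    have h4 := coeff_zero_ne_of_dvd hf.coeff_zero h3
    exact ⟨⟨φ, h1, h2, h4, rfl⟩, orb_dvd h1 h2 h4 hf h3⟩

open Classical in
/-- A product over irreducible divisors of a self-dual polynomial splits over primes. -/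
theorem prod_irrs {R : Type*} [CommMonoid R] {f : F[X]} (hf : SD f) (g : F[X] → R) :
    ∏ φ ∈ irrs f, g φ = ∏ P ∈ primesOf f, ∏ φ ∈ irrs P, g φ := by
  rw [primesOf_eq_image hf]
  rw [← Finset.prod_fiberwise_of_maps_to (s := irrs f) (t := (irrs f).image orb) (g := orb)
    (fun x hx => Finset.mem_image_of_mem _ hx) g]
  apply Finset.prod_congr rfl
  intro P hP
  obtain ⟨φ, hφ, rfl⟩ := Finset.mem_image.mp hP
  obtain ⟨h1, h2, h3⟩ := (mem_irrs hf.monic.ne_zero).mp hφ
  have h4 := coeff_zero_ne_of_dvd hf.coeff_zero h3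
  have h5 := (SD_orb h1 h4)
  apply Finset.prod_congr _ (fun _ _ => rfl)
  ext ψ
  rw [Finset.mem_filter, mem_irrs hf.monic.ne_zero, mem_irrs h5.monic.ne_zero]
  constructor
  · rintro ⟨⟨h6, h7, h8⟩, h9⟩
    exact ⟨h6, h7, h9 ▸ dvd_orb ψ⟩
  · rintro ⟨h6, h7, h8⟩
    exact ⟨⟨h6, h7, h8.trans (orb_dvd h1 h2 h4 hf h3)⟩, orb_eq_of_dvd h6 h7 h1 h2 h4 h8⟩

/-- Division of self-dual polynomials. -/
theorem SD.exists_mul {f P : F[X]} (hf : SD f) (hP : SD P) (h : P ∣ f) :
    ∃ g, SD g ∧ f = P * g ∧ f.natDegree = P.natDegree + g.natDegree := by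
  obtain ⟨g, rfl⟩ := h
  have hg : SD g := SD.of_mul hP hf
  exact ⟨g, hg, rfl, natDegree_mul hP.monic.ne_zero hg.monic.ne_zero⟩

theorem prod_dvd_of_primes {f : F[X]} (s : Finset F[X]) (hs : ∀ P ∈ s, IsPr P)
    (h : ∀ P ∈ s, P ∣ f) : (∏ P ∈ s, P) ∣ f := by
  apply Finset.prod_dvd_of_coprime
  · intro P hP Q hQ hne
    exact (hs P hP).isCoprime (hs Q hQ) hne
  · exact h

open Classical in
theorem natDegree_eq_sum (N : ℕ) (S : Finset F[X]) (hS : ∀ P ∈ S, IsPr P) (f : F[X])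
    (hf : SD f) (hN : f.natDegree ≤ N) (hfS : ∀ P, IsPr P → P ∣ f → P ∈ S) :
    f.natDegree = ∑ P ∈ S, P.natDegree * ((Finset.Icc 1 N).filter (fun j => P ^ j ∣ f)).card := by
  induction h : f.natDegree using Nat.strong_induction_on generalizing f with
  | _ d ih =>
    rcases Nat.eq_zero_or_pos d with hd | hd
    · subst hd
      have h1 : f = 1 := hf.monic.natDegree_eq_zero.mp h
      subst h1
      symm
      apply Finset.sum_eq_zero
      intro P hP
      have : (Finset.Icc 1 N).filter (fun j => P ^ j ∣ (1 : F[X])) = ∅ := by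
        rw [Finset.filter_eq_empty_iff]
        intro j hj hdvd
        have hj1 := (Finset.mem_Icc.mp hj).1
        have h2 : P ∣ 1 := (dvd_pow_self P (by omega)).trans hdvd
        exact (hS P hP).ne_one ((hS P hP).SD.monic.eq_one_of_isUnit (isUnit_of_dvd_one h2))
      rw [this]; simp
    · have hne1 : f ≠ 1 := by rintro rfl; simp at h; omega
      obtain ⟨P₀, hP₀, hdvd⟩ := exists_isPr_dvd hf hne1
      obtain ⟨g, hg, hfg, hdeg⟩ := hf.exists_mul hP₀.SD hdvd
      have hpos := hP₀.natDegree_pos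
      have ih' := ih g.natDegree (by omega) g hg (by omega)
        (fun P hP hPg => hfS P hP (hPg.trans (by rw [hfg]; exact dvd_mul_left _ _))) rfl
      have hP₀S : P₀ ∈ S := hfS P₀ hP₀ hdvd
      rw [← h, hdeg]
      rw [← Finset.add_sum_erase S _ hP₀S] at ih' ⊢
      have h1 : ∑ P ∈ S.erase P₀, P.natDegree * ((Finset.Icc 1 N).filter (fun j => P ^ j ∣ f)).card =
          ∑ P ∈ S.erase P₀, P.natDegree * ((Finset.Icc 1 N).filter (fun j => P ^ j ∣ g)).card := by
        apply Finset.sum_congr rfl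
        intro P hP
        congr 2
        apply Finset.filter_congr
        intro j _
        rw [hfg]
        constructor
        · intro h3
          have hc : IsCoprime (P ^ j) P₀ :=
            ((hS P (Finset.mem_of_mem_erase hP)).isCoprime hP₀ (Finset.ne_of_mem_erase hP)).pow_left
          exact hc.dvd_of_dvd_mul_left h3
        · intro h3; exact h3.mul_left _
      have h2 : ((Finset.Icc 1 N).filter (fun j => P₀ ^ j ∣ f)).card =
          ((Finset.Icc 1 N).filter (fun j => P₀ ^ j ∣ g)).card + 1 := by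
        have h3 : (Finset.Icc 1 N).filter (fun j => P₀ ^ j ∣ f) =
            insert 1 (((Finset.Icc 1 N).filter (fun j => P₀ ^ j ∣ g)).image (fun j => j + 1)) := by
          ext j
          simp only [Finset.mem_filter, Finset.mem_insert, Finset.mem_image, Finset.mem_Icc]
          constructor
          · rintro ⟨⟨hj1, hj2⟩, hj3⟩
            rcases Nat.eq_or_lt_of_le hj1 with h4 | h4
            · left; exact h4.symm
            · right
              refine ⟨j - 1, ⟨⟨by omega, by omega⟩, ?_⟩, by omega⟩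
              have h5 : P₀ ^ j = P₀ * P₀ ^ (j - 1) := by
                rw [← pow_succ']; congr 1; omega
              rw [h5, hfg] at hj3
              exact (mul_dvd_mul_iff_left hP₀.SD.monic.ne_zero).mp hj3
          · rintro (rfl | ⟨i, ⟨⟨hi1, hi2⟩, hi3⟩, rfl⟩)
            · refine ⟨⟨le_rfl, by omega⟩, by rw [pow_one]; exact hdvd⟩
            · have h5 : P₀ ^ (i + 1) ∣ f := by
                rw [pow_succ', hfg]; exact mul_dvd_mul_left _ hi3
              refine ⟨⟨by omega, ?_⟩, h5⟩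
              have h6 := natDegree_le_of_dvd h5 hf.monic.ne_zero
              rw [natDegree_pow] at h6
              have h7 : (i + 1) * 1 ≤ (i + 1) * P₀.natDegree := Nat.mul_le_mul_left _ hpos
              omega
        rw [h3, Finset.card_insert_of_notMem, Finset.card_image_of_injective]
        · intro a b hab; simpa using hab
        · simp only [Finset.mem_image, Finset.mem_filter, Finset.mem_Icc, not_exists, not_and]
          intro x hx hx'
          omega
      rw [h1, h2]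
      rw [mul_add, mul_one]
      omega

end Primes

end Pool.Agent.MP_0e403a_al
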