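import Mathlib
import Pool.Agent.MP_0e403a_al.Primes

set_option autoImplicit false
set_option linter.unusedSectionVars false

namespace Pool.Agent.MP_0e403a_al

open scoped BigOperators Polynomial
open Polynomial

section Parity

variable {F : Type*} [Field F] [StarRing F] [Finite F]

theorem odd_natDegree (hF : StarNontrivial F) {q : ℕ} (hq : Nat.card F = q ^ 2) {φ : F[X]}
    (hφ : Irreducible φ) (hsd : SD φ) : Odd φ.natDegree := by
  classical
  have : Fact (Irreducible φ) := ⟨hφ⟩
  have hq2 : 1 < q := by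
    have h2 : 1 < Nat.card F := Finite.one_lt_card
    rw [hq] at h2
    by_contra h
    have h1 : q ≤ 1 := by omega
    interval_cases q <;> simp at h2
  set x : AdjoinRoot φ := AdjoinRoot.root φ with hx
  have hx0 : x ≠ 0 := by
    intro h
    have h1 : φ.eval₂ (AdjoinRoot.of φ) x = 0 := AdjoinRoot.eval₂_root φ
    rw [h, eval₂_at_zero] at h1
    exact hsd.coeff_zero ((AdjoinRoot.of φ).injective (by rw [h1, map_zero]))
  let inv1 : Invertible (x⁻¹) := ⟨x, mul_inv_cancel₀ hx0, inv_mul_cancel₀ hx0⟩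
  let i : F →+* AdjoinRoot φ := (AdjoinRoot.of φ).comp (starRingEnd F)
  have hi : φ.eval₂ i x⁻¹ = 0 := by
    have h1 : φ.eval₂ i x⁻¹ = (φ.map (starRingEnd F)).eval₂ (AdjoinRoot.of φ) x⁻¹ := by
      rw [eval₂_map]
    rw [h1, ← eval₂_reverse_eq_zero_iff]
    have h2 : (φ.map (starRingEnd F)).reverse = C (star (φ.coeff 0)) * φ := by
      have h3 : C (star (φ.coeff 0)) * dual φ = (φ.map (starRingEnd F)).reverse := by
        rw [dual, ← mul_assoc, ← C_mul, mul_inv_cancel₀ (by simpa using hsd.coeff_zero), C_1,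
          one_mul]
      rw [← h3, hsd.dual_eq]
    rw [h2]
    change eval₂ (AdjoinRoot.of φ) x (C (star (φ.coeff 0)) * φ) = 0
    rw [eval₂_mul, hx, AdjoinRoot.eval₂_root, mul_zero]
  let s : AdjoinRoot φ →+* AdjoinRoot φ := AdjoinRoot.lift i x⁻¹ hi
  have hsof : ∀ a : F, s (AdjoinRoot.of φ a) = AdjoinRoot.of φ (star a) := by
    intro a
    exact AdjoinRoot.lift_of hi
  have hsx : s x = x⁻¹ := AdjoinRoot.lift_root hi
  have hss : ∀ e, s (s e) = e := by
    have : s.comp s = RingHom.id _ := by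
      apply AdjoinRoot.ringHom_ext
      · ext a
        simp [hsof]
      · change s (s x) = x
        rw [hsx, map_inv₀, hsx, inv_inv]
    intro e
    exact RingHom.congr_fun this e
  have hfd : Module.Finite F (AdjoinRoot φ) := (AdjoinRoot.powerBasis hφ.ne_zero).finite
  have hfin : Finite (AdjoinRoot φ) := Module.finite_of_finite F
  have hcard : Nat.card (AdjoinRoot φ) = (q ^ 2) ^ φ.natDegree := by
    rw [Module.natCard_eq_pow_finrank (K := F), hq, (AdjoinRoot.powerBasis hφ.ne_zero).finrank,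
      AdjoinRoot.powerBasis_dim]
  have hfix := card_fixed_of_card hF (W := AdjoinRoot φ) (fun e => s e) (fun a b => map_add s a b)
    (fun c e => by
      rw [Algebra.smul_def, Algebra.smul_def, map_mul, AdjoinRoot.algebraMap_eq, hsof]) hss hcard
  by_contra hodd
  rw [Nat.not_odd_iff_even] at hodd
  obtain ⟨k, hk⟩ := hodd
  have hdpos : 0 < φ.natDegree := hφ.natDegree_pos
  -- elements of the fixed field satisfy the power equation
  let Ep : Subfield (AdjoinRoot φ) := RingHom.eqLocusField s (RingHom.id _)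
  have hEp : Nat.card Ep = q ^ φ.natDegree := hfix
  have := Fintype.ofFinite (AdjoinRoot φ)
  have := Fintype.ofFinite Ep
  have := Fintype.ofFinite F
  have hpow : ∀ e : AdjoinRoot φ, s e = e → e ^ (q ^ φ.natDegree) = e := by
    intro e he
    have h1 := FiniteField.pow_card (⟨e, he⟩ : Ep)
    rw [← Nat.card_eq_fintype_card, hEp] at h1
    exact congrArg Subtype.val h1
  have hN : 1 < q ^ φ.natDegree := Nat.one_lt_pow hdpos.ne' hq2
  have hsub : (Finset.univ : Finset (AdjoinRoot φ)).filter (fun e => s e = e) ⊆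
      (X ^ (q ^ φ.natDegree) - X : (AdjoinRoot φ)[X]).roots.toFinset := by
    intro e he
    rw [Multiset.mem_toFinset, mem_roots (FiniteField.X_pow_card_sub_X_ne_zero _ hN)]
    simp only [IsRoot.def, eval_sub, eval_pow, eval_X]
    rw [hpow e (by simpa using he), sub_self]
  have hcardroots : (X ^ (q ^ φ.natDegree) - X : (AdjoinRoot φ)[X]).roots.toFinset.card ≤
      ((Finset.univ : Finset (AdjoinRoot φ)).filter (fun e => s e = e)).card := by
    refine le_trans (Multiset.toFinset_card_le _) (le_trans (card_roots' _) ?_)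
    rw [FiniteField.X_pow_card_sub_X_natDegree_eq _ hN]
    rw [Nat.card_eq_fintype_card, Fintype.card_subtype] at hfix
    exact hfix.ge
  have heq := Finset.eq_of_subset_of_card_le hsub hcardroots
  obtain ⟨a, ha⟩ := hF
  apply ha
  have h1 : AdjoinRoot.of φ a ∈ (Finset.univ : Finset (AdjoinRoot φ)).filter (fun e => s e = e) := by
    rw [heq, Multiset.mem_toFinset, mem_roots (FiniteField.X_pow_card_sub_X_ne_zero _ hN)]
    simp only [IsRoot.def, eval_sub, eval_pow, eval_X]
    have h2 : a ^ (q ^ φ.natDegree) = a := by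
      have h3 := FiniteField.pow_card_pow k a
      rw [← Nat.card_eq_fintype_card, hq, ← pow_mul] at h3
      rw [hk, ← two_mul]
      exact h3
    rw [← map_pow, h2, sub_self]
  have h2 : s (AdjoinRoot.of φ a) = AdjoinRoot.of φ a := by simpa using h1
  rw [hsof] at h2
  exact (AdjoinRoot.of φ).injective h2

/-- The local totient factor of a prime. -/
theorem prod_irrs_prime (hF : StarNontrivial F) {q : ℕ} (hq : Nat.card F = q ^ 2) {P : F[X]}
    (hP : IsPr P) :
    ∏ φ ∈ irrs P, (1 - (((q : ℝ) ^ 2) ^ φ.natDegree)⁻¹) =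
      (1 - ((q : ℝ) ^ P.natDegree)⁻¹) * (1 - ((-(q : ℝ)) ^ P.natDegree)⁻¹) := by
  classical
  have hsd := hP.SD
  have hP0 := hsd.monic.ne_zero
  obtain ⟨φ, h1, h2, h3, h4⟩ := hP
  by_cases hd : dual φ = φ
  · have hPφ : P = φ := by rw [h4, orb, if_pos hd]
    have h5 : irrs P = {φ} := by
      ext ψ
      rw [mem_irrs hP0, Finset.mem_singleton]
      constructor
      · rintro ⟨h6, h7, h8⟩
        rw [hPφ] at h8
        exact eq_of_dvd_irr h6 h7 h1 h2 h8
      · rintro rfl
        exact ⟨h1, h2, hPφ ▸ dvd_rfl⟩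
    rw [h5, Finset.prod_singleton, hPφ]
    have hodd := odd_natDegree hF hq h2 ⟨h1, h3, hd⟩
    rw [hodd.neg_pow, ← pow_mul, mul_comm 2, pow_mul, sq, inv_neg, mul_inv]
    ring
  · have hPφ : P = φ * dual φ := by rw [h4, orb, if_neg hd]
    have h5 : irrs P = {φ, dual φ} := by
      ext ψ
      rw [mem_irrs hP0, Finset.mem_insert, Finset.mem_singleton]
      constructor
      · rintro ⟨h6, h7, h8⟩
        rw [h4] at h8
        exact eq_or_of_dvd_orb h6 h7 h1 h2 h3 h8
      · rintro (rfl | rfl)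
        · exact ⟨h1, h2, hPφ ▸ dvd_mul_right _ _⟩
        · exact ⟨monic_dual h3, irreducible_dual h1 h3 h2, hPφ ▸ dvd_mul_left _ _⟩
    rw [h5, Finset.prod_pair (fun h => hd h.symm), natDegree_dual h3]
    have hdeg : P.natDegree = 2 * φ.natDegree := by
      rw [hPφ, natDegree_mul h1.ne_zero (monic_dual h3).ne_zero, natDegree_dual h3]; ring
    rw [hdeg, pow_mul, pow_mul, neg_sq]

end Parity

end Pool.Agent.MP_0e403a_al
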