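import Mathlib
import Pool.Agent.MP_0e403a_al.Parity

set_option autoImplicit false
set_option linter.unusedSectionVars false

namespace Pool.Agent.MP_0e403a_al

open scoped BigOperators Polynomial
open Polynomial

section IE

theorem ie_card_aux {X ι : Type*} [Fintype X] [DecidableEq ι] (A : ι → X → Prop) (s : Finset ι)
    (N : ℝ) (r : ι → ℝ)
    (h : ∀ t ⊆ s, (Nat.card {x : X // ∀ i ∈ t, A i x} : ℝ) = N * ∏ i ∈ t, r i)
    (v : Finset ι) : ∀ u : Finset ι, Disjoint u v → u ∪ v ⊆ s →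
    (Nat.card {x : X // (∀ i ∈ u, A i x) ∧ ∀ i ∈ v, ¬ A i x} : ℝ) =
      N * (∏ i ∈ u, r i) * ∏ i ∈ v, (1 - r i) := by
  classical
  induction v using Finset.induction_on with
  | empty =>
    intro u _ hus
    have := h u (by simpa using hus)
    simpa [Nat.card_eq_fintype_card] using this
  | insert j v hj ih =>
    intro u hdisj hus
    have hju : j ∉ u := fun h' => Finset.disjoint_left.mp hdisj h' (Finset.mem_insert_self _ _)
    have hdisj' : Disjoint u v := Finset.disjoint_of_subset_right (Finset.subset_insert _ _) hdisj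
    have h1 := ih u hdisj' ((Finset.union_subset_union_right (Finset.subset_insert _ _)).trans hus)
    have h2 := ih (insert j u) (by
      rw [Finset.disjoint_insert_left]; exact ⟨hj, hdisj'⟩) (by
      intro x hx
      apply hus
      simp only [Finset.mem_union, Finset.mem_insert] at hx ⊢
      tauto)
    have h3 : (Nat.card {x : X // (∀ i ∈ u, A i x) ∧ ∀ i ∈ v, ¬ A i x} : ℝ) =
        (Nat.card {x : X // (∀ i ∈ insert j u, A i x) ∧ ∀ i ∈ v, ¬ A i x} : ℝ) +
        (Nat.card {x : X // (∀ i ∈ u, A i x) ∧ ∀ i ∈ insert j v, ¬ A i x} : ℝ) := by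
      simp only [Nat.card_eq_fintype_card, Fintype.card_subtype]
      rw [← Nat.cast_add]
      congr 1
      rw [← Finset.card_filter_add_card_filter_not
        (s := Finset.univ.filter (fun x => (∀ i ∈ u, A i x) ∧ ∀ i ∈ v, ¬ A i x))
        (p := fun x => A j x)]
      congr 1
      · congr 1
        ext x
        simp only [Finset.mem_filter, Finset.mem_univ, true_and, Finset.forall_mem_insert]
        tauto
      · congr 1
        ext x
        simp only [Finset.mem_filter, Finset.mem_univ, true_and, Finset.forall_mem_insert]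
        tauto
    rw [h1, h2, Finset.prod_insert hju] at h3
    rw [Finset.prod_insert hj]
    linear_combination -h3

/-- Inclusion and exclusion for independent events. -/
theorem ie_card {X ι : Type*} [Finite X] (A : ι → X → Prop) (s : Finset ι)
    (N : ℝ) (r : ι → ℝ)
    (h : ∀ t ⊆ s, (Nat.card {x : X // ∀ i ∈ t, A i x} : ℝ) = N * ∏ i ∈ t, r i) :
    (Nat.card {x : X // ∀ i ∈ s, ¬ A i x} : ℝ) = N * ∏ i ∈ s, (1 - r i) := by
  classical
  have := Fintype.ofFinite X
  have h1 := ie_card_aux A s N r h s ∅ (Finset.disjoint_empty_left _) (by simp)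
  simpa using h1

end IE

section Totient

variable {F : Type*} [Field F] [StarRing F] [Finite F]

instance finite_degreeLT (n : ℕ) : Finite (degreeLT F n) :=
  Finite.of_equiv _ (degreeLTEquiv F n).toEquiv.symm

theorem card_degreeLT (n : ℕ) : Nat.card (degreeLT F n) = Nat.card F ^ n := by
  rw [Nat.card_congr (degreeLTEquiv F n).toEquiv, Nat.card_fun, Nat.card_eq_fintype_card (α := Fin n),
    Fintype.card_fin]

theorem card_degreeLT_dvd {g : F[X]} (hg : g.Monic) {n : ℕ} (hn : g.natDegree ≤ n) :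
    Nat.card {p : degreeLT F n // g ∣ (p : F[X])} = Nat.card F ^ (n - g.natDegree) := by
  rw [← card_degreeLT (F := F) (n - g.natDegree)]
  symm
  have hdeg : ∀ r : F[X], r ∈ degreeLT F (n - g.natDegree) ↔ g * r ∈ degreeLT F n := by
    intro r
    rw [mem_degreeLT, mem_degreeLT]
    rcases eq_or_ne r 0 with rfl | hr
    · simp
    · rw [← natDegree_lt_iff_degree_lt hr, ← natDegree_lt_iff_degree_lt (mul_ne_zero hg.ne_zero hr),
        natDegree_mul hg.ne_zero hr]
      omega
  refine Nat.card_congr (Equiv.ofBijective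
    (fun r : degreeLT F (n - g.natDegree) =>
      (⟨⟨g * r.1, (hdeg r.1).mp r.2⟩, dvd_mul_right _ _⟩ : {p : degreeLT F n // g ∣ (p : F[X])}))
    ⟨?_, ?_⟩)
  · intro a b hab
    have h1 : g * a.1 = g * b.1 := congrArg (fun x => ((x.1 : degreeLT F n) : F[X])) hab
    exact Subtype.ext (mul_left_cancel₀ hg.ne_zero h1)
  · rintro ⟨⟨p, hp⟩, ⟨r, hr⟩⟩
    have hr' : p = g * r := hr
    subst hr'
    exact ⟨⟨r, (hdeg r).mpr hp⟩, rfl⟩

/-- The polynomial totient. -/
noncomputable def Phi (f : F[X]) : ℕ :=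
  Nat.card {p : degreeLT F f.natDegree // IsCoprime (p : F[X]) f}

theorem monic_prod_irrs {f : F[X]} (hf : f ≠ 0) {t : Finset F[X]} (ht : t ⊆ irrs f) :
    (∏ φ ∈ t, φ).Monic :=
  monic_prod_of_monic _ _ (fun _ h => ((mem_irrs hf).mp (ht h)).1)

theorem prod_irrs_dvd {f : F[X]} (hf : f ≠ 0) {t : Finset F[X]} (ht : t ⊆ irrs f) {p : F[X]} :
    (∏ φ ∈ t, φ) ∣ p ↔ ∀ φ ∈ t, φ ∣ p := by
  constructor
  · intro h φ hφ
    exact (Finset.dvd_prod_of_mem _ hφ).trans h
  · intro h
    apply Finset.prod_dvd_of_coprime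
    · intro a ha b hb hab
      obtain ⟨h1, h2, _⟩ := (mem_irrs hf).mp (ht ha)
      obtain ⟨h3, h4, _⟩ := (mem_irrs hf).mp (ht hb)
      exact isCoprime_of_irr h1 h2 h3 h4 hab
    · exact h

theorem Phi_eq_prod {f : F[X]} (hf : f.Monic) :
    (Phi f : ℝ) = (Nat.card F : ℝ) ^ f.natDegree *
      ∏ φ ∈ irrs f, (1 - (((Nat.card F : ℝ)) ^ φ.natDegree)⁻¹) := by
  have hf0 := hf.ne_zero
  have hFpos : (Nat.card F : ℝ) ≠ 0 := by
    have : 0 < Nat.card F := Nat.card_pos
    positivity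
  have h1 := ie_card (X := degreeLT F f.natDegree) (fun (φ : F[X]) p => φ ∣ (p : F[X])) (irrs f)
    ((Nat.card F : ℝ) ^ f.natDegree) (fun φ => (((Nat.card F : ℝ)) ^ φ.natDegree)⁻¹) (by
      intro t ht
      have h2 : ∀ p : degreeLT F f.natDegree, (∀ φ ∈ t, φ ∣ (p : F[X])) ↔ (∏ φ ∈ t, φ) ∣ (p : F[X]) :=
        fun p => (prod_irrs_dvd hf0 ht).symm
      have h3 : (∏ φ ∈ t, φ).natDegree ≤ f.natDegree := by
        apply natDegree_le_of_dvd _ hf0
        rw [prod_irrs_dvd hf0 ht]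
        exact fun φ hφ => ((mem_irrs hf0).mp (ht hφ)).2.2
      rw [Nat.card_congr (Equiv.subtypeEquivRight h2), card_degreeLT_dvd (monic_prod_irrs hf0 ht) h3]
      have h4 : (∏ φ ∈ t, φ).natDegree = ∑ φ ∈ t, φ.natDegree :=
        natDegree_prod_of_monic _ _ (fun φ hφ => ((mem_irrs hf0).mp (ht hφ)).1)
      rw [Finset.prod_inv_distrib, Finset.prod_pow_eq_pow_sum, ← h4]
      push_cast
      rw [pow_sub₀ _ hFpos h3])
  rw [← h1, Phi]
  congr 1
  apply Nat.card_congr
  apply Equiv.subtypeEquivRight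
  intro p
  constructor
  · intro h φ hφ hdvd
    obtain ⟨_, h3, h4⟩ := (mem_irrs hf0).mp hφ
    exact h3.not_isUnit (h.isUnit_of_dvd' hdvd h4)
  · intro h
    apply IsCoprime.symm
    apply isCoprime_of_monic_irr hf0
    intro φ h1 h2 h3
    exact h φ ((mem_irrs hf0).mpr ⟨h1, h2, h3⟩)

theorem Phi_SD (hF : StarNontrivial F) {q : ℕ} (hq : Nat.card F = q ^ 2) {f : F[X]} (hf : SD f) :
    (Phi f : ℝ) = ((q : ℝ) ^ 2) ^ f.natDegree *
      ∏ P ∈ primesOf f, ((1 - ((q : ℝ) ^ P.natDegree)⁻¹) * (1 - ((-(q : ℝ)) ^ P.natDegree)⁻¹)) := by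
  rw [Phi_eq_prod hf.monic, prod_irrs hf, hq]
  push_cast
  congr 1
  apply Finset.prod_congr rfl
  intro P hP
  exact prod_irrs_prime hF hq ((mem_primesOf hf.monic.ne_zero).mp hP).1

end Totient

end Pool.Agent.MP_0e403a_al
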