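import Mathlib
import Pool.Agent.MP_0e403a_al.Totient

set_option autoImplicit false
set_option linter.unusedSectionVars false

namespace Pool.Agent.MP_0e403a_al

open scoped BigOperators Polynomial Matrix
open Polynomial

section Cyc

variable {F : Type*} [Field F] [StarRing F] {n : ℕ}

/-- The vector obtained by applying a polynomial in `g` to `v`. -/
noncomputable def pv (g : Matrix (Fin n) (Fin n) F) (v : Fin n → F) (p : F[X]) : Fin n → F :=
  (aeval g p) *ᵥ v

theorem pv_add (g : Matrix (Fin n) (Fin n) F) (v : Fin n → F) (p r : F[X]) :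
    pv g v (p + r) = pv g v p + pv g v r := by
  simp [pv, Matrix.add_mulVec]

theorem pv_sub (g : Matrix (Fin n) (Fin n) F) (v : Fin n → F) (p r : F[X]) :
    pv g v (p - r) = pv g v p - pv g v r := by
  simp [pv, Matrix.sub_mulVec]

theorem pv_mul (g : Matrix (Fin n) (Fin n) F) (v : Fin n → F) (p r : F[X]) :
    pv g v (p * r) = pv g (pv g v r) p := by
  simp [pv, Matrix.mulVec_mulVec]

theorem pv_zero (g : Matrix (Fin n) (Fin n) F) (p : F[X]) : pv g 0 p = 0 := by
  simp [pv]

theorem pv_charpoly (g : Matrix (Fin n) (Fin n) F) (v : Fin n → F) : pv g v g.charpoly = 0 := by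
  simp [pv, Matrix.aeval_self_charpoly]

theorem pv_X_pow (g : Matrix (Fin n) (Fin n) F) (v : Fin n → F) (i : ℕ) :
    pv g v (X ^ i) = (g ^ i) *ᵥ v := by
  simp [pv]

theorem pv_eq_sum (g : Matrix (Fin n) (Fin n) F) (v : Fin n → F) (p : F[X]) {N : ℕ}
    (hN : p.natDegree < N) : pv g v p = ∑ i ∈ Finset.range N, p.coeff i • ((g ^ i) *ᵥ v) := by
  rw [pv, aeval_eq_sum_range' hN, Matrix.sum_mulVec]
  apply Finset.sum_congr rfl
  intro i _
  rw [Matrix.smul_mulVec]

/-- Cyclic vectors: the annihilator is generated by the characteristic polynomial. -/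
def IsCyc (g : Matrix (Fin n) (Fin n) F) (v : Fin n → F) : Prop :=
  ∀ p : F[X], pv g v p = 0 → g.charpoly ∣ p

theorem natDegree_charpoly (g : Matrix (Fin n) (Fin n) F) : g.charpoly.natDegree = n := by
  rw [Matrix.charpoly_natDegree_eq_dim, Fintype.card_fin]

theorem minpoly_of_isCyc {g : Matrix (Fin n) (Fin n) F} {v : Fin n → F} (h : IsCyc g v) :
    minpoly F g = g.charpoly := by
  have h1 : g.charpoly ∣ minpoly F g := h _ (by simp [pv, minpoly.aeval])
  have h2 : minpoly F g ∣ g.charpoly := minpoly.dvd _ _ (Matrix.aeval_self_charpoly g)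
  have h3 : IsIntegral F g := Matrix.isIntegral g
  exact eq_of_monic_of_associated (minpoly.monic h3) g.charpoly_monic (associated_of_dvd_dvd h2 h1)

theorem exists_isCyc {g : Matrix (Fin n) (Fin n) F} (h : minpoly F g = g.charpoly) :
    ∃ v, IsCyc g v := by
  obtain ⟨x, hx⟩ := Module.exists_ker_toSpanSingleton_eq_annihilator F[X]
    (Module.AEval' (Matrix.toLin' g))
  obtain ⟨v, rfl⟩ := (Module.AEval'.of _).surjective x
  refine ⟨v, ?_⟩
  intro p hp
  rw [← span_minpoly_eq_annihilator, Matrix.minpoly_toLin', h] at hx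
  rw [← Ideal.mem_span_singleton]
  have h1 : p ∈ LinearMap.ker (LinearMap.toSpanSingleton F[X] _
      (Module.AEval'.of (Matrix.toLin' g) v)) := by
    rw [LinearMap.mem_ker, LinearMap.toSpanSingleton_apply, ← Module.AEval.of_aeval_smul]
    have h2 : (aeval (Matrix.toLin' g)) p • v = pv g v p := by
      have h3 : aeval (Matrix.toLin' g) p = Matrix.toLin' (aeval g p) := by
        have := Polynomial.aeval_algHom_apply (Matrix.toLinAlgEquiv' (R := F) (n := Fin n)).toAlgHom g p
        exact this
      rw [h3]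
      rfl
    rw [h2, hp, map_zero]
  have h4 : p ∈ Ideal.span {g.charpoly} := by
    have := h1
    rw [show LinearMap.ker (LinearMap.toSpanSingleton F[X] _
      (Module.AEval'.of (Matrix.toLin' g) v)) = Ideal.span {g.charpoly} from hx] at this
    exact this
  exact h4

theorem isCyc_bijective [Finite F] {g : Matrix (Fin n) (Fin n) F} {v : Fin n → F} (h : IsCyc g v) :
    Function.Bijective (fun p : degreeLT F n => pv g v (p : F[X])) := by
  have hinj : Function.Injective (fun p : degreeLT F n => pv g v (p : F[X])) := by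
    intro p r hpr
    have h1 : pv g v ((p : F[X]) - (r : F[X])) = 0 := by
      rw [pv_sub, sub_eq_zero]; exact hpr
    have h2 := h _ h1
    have h3 : (p : F[X]) - (r : F[X]) = 0 := by
      apply eq_zero_of_dvd_of_degree_lt h2
      have h4 : (p : F[X]) - (r : F[X]) ∈ degreeLT F n := (degreeLT F n).sub_mem p.2 r.2
      rw [mem_degreeLT] at h4
      rwa [degree_eq_natDegree g.charpoly_monic.ne_zero, natDegree_charpoly]
    exact Subtype.ext (sub_eq_zero.mp h3)
  have := finite_degreeLT (F := F) n
  refine ⟨hinj, ?_⟩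
  apply (Finite.injective_iff_surjective_of_equiv (degreeLTEquiv F n).toEquiv).mp hinj

theorem isCyc_exists [Finite F] {g : Matrix (Fin n) (Fin n) F} {v : Fin n → F} (h : IsCyc g v)
    (u : Fin n → F) : ∃ p : F[X], pv g v p = u := by
  obtain ⟨p, hp⟩ := (isCyc_bijective h).2 u
  exact ⟨p, hp⟩

theorem isCyc_pv_iff {g : Matrix (Fin n) (Fin n) F} {v : Fin n → F} (h : IsCyc g v) (p : F[X]) :
    IsCyc g (pv g v p) ↔ IsCoprime p g.charpoly := by
  have hf0 := g.charpoly_monic.ne_zero
  have hmul : ∀ r : F[X], pv g (pv g v p) r = 0 ↔ g.charpoly ∣ r * p := by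
    intro r
    rw [← pv_mul]
    constructor
    · exact h _
    · rintro ⟨k, hk⟩
      rw [hk, mul_comm, pv_mul, pv_charpoly, pv_zero]
  constructor
  · intro hc
    apply IsCoprime.symm
    apply isCoprime_of_monic_irr hf0
    rintro φ h1 h2 ⟨k, hk⟩ ⟨m, hm⟩
    have h3 : g.charpoly ∣ k := by
      apply hc
      rw [hmul, hm, hk]
      exact ⟨m, by ring⟩
    have hk0 : k ≠ 0 := by rintro rfl; rw [mul_zero] at hk; exact hf0 hk
    have h4 := natDegree_le_of_dvd h3 hk0
    have h5 : g.charpoly.natDegree = φ.natDegree + k.natDegree := by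
      conv_lhs => rw [hk]
      exact natDegree_mul h1.ne_zero hk0
    have := h2.natDegree_pos
    omega
  · intro hc r hr
    exact hc.symm.dvd_of_dvd_mul_right ((hmul r).mp hr)

theorem card_isCyc [Finite F] {g : Matrix (Fin n) (Fin n) F}
    (h : minpoly F g = g.charpoly) :
    Nat.card {v : Fin n → F // IsCyc g v} = Phi g.charpoly := by
  obtain ⟨v, hv⟩ := exists_isCyc h
  rw [Phi, natDegree_charpoly]
  symm
  exact Nat.card_congr ((Equiv.ofBijective _ (isCyc_bijective hv)).subtypeEquiv
    (fun p => (isCyc_pv_iff hv p).symm))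

end Cyc

end Pool.Agent.MP_0e403a_al
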