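import Mathlib
import Pool.Agent.MP_0e403a_al.Descent

set_option autoImplicit false

namespace Pool.Agent.MP_0e403a_al

open scoped BigOperators Matrix

section Herm

variable {F : Type*} [Field F] [StarRing F] {n : ℕ}

/-- The sesquilinear form of a matrix. -/
def hf (H : Matrix (Fin n) (Fin n) F) (u w : Fin n → F) : F := star u ⬝ᵥ (H *ᵥ w)

theorem hf_add_right (H : Matrix (Fin n) (Fin n) F) (u w w' : Fin n → F) :
    hf H u (w + w') = hf H u w + hf H u w' := by
  simp [hf, Matrix.mulVec_add, dotProduct_add]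

theorem hf_add_left (H : Matrix (Fin n) (Fin n) F) (u u' w : Fin n → F) :
    hf H (u + u') w = hf H u w + hf H u' w := by
  simp [hf, add_dotProduct]

theorem hf_smul_right (H : Matrix (Fin n) (Fin n) F) (c : F) (u w : Fin n → F) :
    hf H u (c • w) = c * hf H u w := by
  simp [hf, Matrix.mulVec_smul, dotProduct_smul]

theorem hf_smul_left (H : Matrix (Fin n) (Fin n) F) (c : F) (u w : Fin n → F) :
    hf H (c • u) w = star c * hf H u w := by
  simp [hf, smul_dotProduct]

theorem hf_star (H : Matrix (Fin n) (Fin n) F) (hH : H.IsHermitian) (u w : Fin n → F) :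
    star (hf H u w) = hf H w u := by
  unfold hf
  rw [Matrix.star_dotProduct, star_star, dotProduct_comm, Matrix.dotProduct_mulVec,
    ← Matrix.dotProduct_mulVec, dotProduct_comm, Matrix.star_mulVec, hH.eq,
    ← Matrix.dotProduct_mulVec]

theorem hf_sum_right (H : Matrix (Fin n) (Fin n) F) {ι : Type*} (s : Finset ι) (u : Fin n → F)
    (w : ι → Fin n → F) : hf H u (∑ i ∈ s, w i) = ∑ i ∈ s, hf H u (w i) := by
  classical
  induction s using Finset.induction_on with
  | empty => simp [hf]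
  | insert a s ha ih => rw [Finset.sum_insert ha, hf_add_right, ih, Finset.sum_insert ha]

theorem hf_sum_left (H : Matrix (Fin n) (Fin n) F) {ι : Type*} (s : Finset ι) (u : Fin n → F)
    (w : ι → Fin n → F) : hf H (∑ i ∈ s, w i) u = ∑ i ∈ s, hf H (w i) u := by
  classical
  induction s using Finset.induction_on with
  | empty => simp [hf]
  | insert a s ha ih => rw [Finset.sum_insert ha, hf_add_left, ih, Finset.sum_insert ha]

/-- Nondegeneracy of the form. -/
theorem eq_zero_of_hf (H : Matrix (Fin n) (Fin n) F) (hdet : H.det ≠ 0) {w : Fin n → F}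
    (h : ∀ u, hf H u w = 0) : w = 0 := by
  have h1 : H *ᵥ w = 0 := by
    funext i
    have := h (star (Pi.single i 1))
    simpa [hf] using this
  exact Matrix.eq_zero_of_mulVec_eq_zero hdet h1

/-- Extending an orthonormal family. -/
theorem exists_next [Finite F] (hF : StarNontrivial F)
    (H : Matrix (Fin n) (Fin n) F) (hH : H.IsHermitian) (hdet : H.det ≠ 0) {k : ℕ} (hk : k < n)
    (Q : Fin k → Fin n → F) (hQ : ∀ i j, hf H (Q i) (Q j) = if i = j then 1 else 0) :
    ∃ w : Fin n → F, (∀ i, hf H (Q i) w = 0) ∧ hf H w w = 1 := by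
  classical
  let L : (Fin n → F) →ₗ[F] (Fin k → F) :=
    { toFun := fun w i => hf H (Q i) w
      map_add' := fun w w' => by funext i; exact hf_add_right H _ _ _
      map_smul' := fun c w => by funext i; exact hf_smul_right H _ _ _ }
  have hker : LinearMap.ker L ≠ ⊥ := by
    apply LinearMap.ker_ne_bot_of_finrank_lt
    simpa using hk
  obtain ⟨w0, hw0, hw0ne⟩ := (Submodule.ne_bot_iff _).mp hker
  have hw0' : ∀ i, hf H (Q i) w0 = 0 := fun i => congrFun hw0 i
  have hex : ∃ w : Fin n → F, (∀ i, hf H (Q i) w = 0) ∧ hf H w w ≠ 0 := by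
    by_contra hcon
    push Not at hcon
    obtain ⟨θ, hθ⟩ := hF
    have hpol : ∀ w w' : Fin n → F, (∀ i, hf H (Q i) w = 0) → (∀ i, hf H (Q i) w' = 0) →
        hf H w w' = 0 := by
      intro w w' hw hw'
      have h1 : ∀ c : F, c * hf H w w' + star (c * hf H w w') = 0 := by
        intro c
        have h2 := hcon (w + c • w') (fun i => by
          rw [hf_add_right, hf_smul_right, hw, hw']; simp)
        rw [hf_add_right, hf_add_left, hf_add_left, hf_smul_right, hf_smul_right, hf_smul_left,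
          hf_smul_left, hcon w hw, hcon w' hw', ← hf_star H hH w w'] at h2
        rw [star_mul']
        linear_combination h2
      have h2 := h1 1
      have h3 := h1 θ
      rw [one_mul] at h2
      rw [star_mul'] at h3
      have h4 : star (hf H w w') = - hf H w w' := by linear_combination h2
      rw [h4] at h3
      have h5 : (θ - star θ) * hf H w w' = 0 := by linear_combination h3
      rcases mul_eq_zero.mp h5 with h6 | h6
      · exact absurd (sub_eq_zero.mp h6).symm hθ
      · exact h6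
    apply hw0ne
    apply eq_zero_of_hf H hdet
    intro u
    set u' : Fin n → F := u - ∑ i, hf H (Q i) u • Q i with hu'
    have h1 : ∀ j, hf H (Q j) u' = 0 := by
      intro j
      have h2 : hf H (Q j) u = hf H (Q j) (u' + ∑ i, hf H (Q i) u • Q i) := by
        rw [hu', sub_add_cancel]
      rw [hf_add_right, hf_sum_right] at h2
      simp only [hf_smul_right, hQ, mul_ite, mul_one, mul_zero, Finset.sum_ite_eq,
        Finset.mem_univ, if_true] at h2
      linear_combination -h2
    have h3 : u = u' + ∑ i, hf H (Q i) u • Q i := by rw [hu', sub_add_cancel]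
    rw [h3, hf_add_left, hf_sum_left, hpol u' w0 h1 hw0', zero_add]
    apply Finset.sum_eq_zero
    intro i _
    rw [hf_smul_left, hw0', mul_zero]
  obtain ⟨w, hw, hww⟩ := hex
  have hfix : star (hf H w w)⁻¹ = (hf H w w)⁻¹ := by
    rw [star_inv₀, hf_star H hH]
  obtain ⟨a, ha⟩ := norm_surj hF hfix (inv_ne_zero hww)
  refine ⟨a • w, fun i => by rw [hf_smul_right, hw, mul_zero], ?_⟩
  rw [hf_smul_right, hf_smul_left, ← mul_assoc, ha, inv_mul_cancel₀ hww]

theorem exists_orthonormal [Finite F] (hF : StarNontrivial F)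
    (H : Matrix (Fin n) (Fin n) F) (hH : H.IsHermitian) (hdet : H.det ≠ 0) (k : ℕ) (hk : k ≤ n) :
    ∃ Q : Fin k → Fin n → F, ∀ i j, hf H (Q i) (Q j) = if i = j then 1 else 0 := by
  induction k with
  | zero => exact ⟨fun i => i.elim0, fun i => i.elim0⟩
  | succ k ih =>
    obtain ⟨Q, hQ⟩ := ih (by omega)
    obtain ⟨w, hw, hww⟩ := exists_next hF H hH hdet (by omega) Q hQ
    refine ⟨Fin.snoc Q w, ?_⟩
    intro i j
    refine Fin.lastCases ?_ (fun i => ?_) i
    · refine Fin.lastCases ?_ (fun j => ?_) j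
      · simp [hww]
      · rw [Fin.snoc_last, Fin.snoc_castSucc, ← hf_star H hH, hw, star_zero,
          if_neg (Fin.castSucc_lt_last j).ne']
    · refine Fin.lastCases ?_ (fun j => ?_) j
      · rw [Fin.snoc_last, Fin.snoc_castSucc, hw, if_neg (Fin.castSucc_lt_last i).ne]
      · rw [Fin.snoc_castSucc, Fin.snoc_castSucc, hQ]
        simp

theorem exists_congr_one [Finite F] (hF : StarNontrivial F)
    (H : Matrix (Fin n) (Fin n) F) (hH : H.IsHermitian) (hdet : H.det ≠ 0) :
    ∃ P : Matrix (Fin n) (Fin n) F, Pᴴ * H * P = 1 := by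
  obtain ⟨Q, hQ⟩ := exists_orthonormal hF H hH hdet n le_rfl
  refine ⟨Matrix.of (fun i j => Q j i), ?_⟩
  ext i j
  have := hQ i j
  rw [Matrix.one_apply, ← this]
  rw [Matrix.mul_assoc]
  rfl

/-- Any two nondegenerate Hermitian matrices are congruent. -/
theorem exists_congr [Finite F] (hF : StarNontrivial F)
    (H T : Matrix (Fin n) (Fin n) F) (hH : H.IsHermitian) (hdet : H.det ≠ 0)
    (hT : T.IsHermitian) (hTdet : T.det ≠ 0) :
    ∃ P : Matrix (Fin n) (Fin n) F, Pᴴ * H * P = T ∧ P.det ≠ 0 := by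
  obtain ⟨P, hP⟩ := exists_congr_one hF H hH hdet
  obtain ⟨R, hR⟩ := exists_congr_one hF T hT hTdet
  have hRdet : IsUnit R.det := by
    have := congrArg Matrix.det hR
    rw [Matrix.det_mul, Matrix.det_one] at this
    exact IsUnit.of_mul_eq_one_right _ this
  have hR1 : R * R⁻¹ = 1 := Matrix.mul_nonsing_inv _ hRdet
  have hPdet : P.det ≠ 0 := by
    have := congrArg Matrix.det hP
    rw [Matrix.det_mul, Matrix.det_one] at this
    exact right_ne_zero_of_mul (by rw [this]; exact one_ne_zero)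
  refine ⟨P * R⁻¹, ?_, ?_⟩
  · have h1 : (P * R⁻¹)ᴴ * H * (P * R⁻¹) = (R⁻¹)ᴴ * (Pᴴ * H * P) * R⁻¹ := by
      rw [Matrix.conjTranspose_mul]; simp only [Matrix.mul_assoc]
    rw [h1, hP, ← hR]
    have h2 : (R⁻¹)ᴴ * (Rᴴ * T * R) * R⁻¹ = (R * R⁻¹)ᴴ * T * (R * R⁻¹) := by
      rw [Matrix.conjTranspose_mul]; simp only [Matrix.mul_assoc]
    rw [h2, hR1]; simp
  · rw [Matrix.det_mul]
    refine mul_ne_zero hPdet ?_
    have : R.det * (R⁻¹).det = 1 := by rw [← Matrix.det_mul, hR1, Matrix.det_one]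
    exact right_ne_zero_of_mul (by rw [this]; exact one_ne_zero)

/-- The number of congruences from `H` to `T` is the order of the isometry group of `H`. -/
theorem card_congr [Finite F] (hF : StarNontrivial F)
    (H T : Matrix (Fin n) (Fin n) F) (hH : H.IsHermitian) (hdet : H.det ≠ 0)
    (hT : T.IsHermitian) (hTdet : T.det ≠ 0) :
    Nat.card {b : Matrix (Fin n) (Fin n) F // bᴴ * H * b = T} =
      Nat.card {g : Matrix (Fin n) (Fin n) F // gᴴ * H * g = H} := by
  obtain ⟨P, hP, hPdet⟩ := exists_congr hF H T hH hdet hT hTdet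
  have hPu : IsUnit P.det := isUnit_iff_ne_zero.mpr hPdet
  have h1 : P * P⁻¹ = 1 := Matrix.mul_nonsing_inv _ hPu
  have h2 : P⁻¹ * P = 1 := Matrix.nonsing_inv_mul _ hPu
  refine Nat.card_congr
    { toFun := fun b => ⟨b.1 * P⁻¹, ?_⟩
      invFun := fun g => ⟨g.1 * P, ?_⟩
      left_inv := ?_
      right_inv := ?_ }
  · have h3 : (b.1 * P⁻¹)ᴴ * H * (b.1 * P⁻¹) = (P⁻¹)ᴴ * (b.1ᴴ * H * b.1) * P⁻¹ := by
      rw [Matrix.conjTranspose_mul]; simp only [Matrix.mul_assoc]
    rw [h3, b.2, ← hP]
    have h4 : (P⁻¹)ᴴ * (Pᴴ * H * P) * P⁻¹ = (P * P⁻¹)ᴴ * H * (P * P⁻¹) := by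
      rw [Matrix.conjTranspose_mul]; simp only [Matrix.mul_assoc]
    rw [h4, h1]; simp
  · have h3 : (g.1 * P)ᴴ * H * (g.1 * P) = Pᴴ * (g.1ᴴ * H * g.1) * P := by
      rw [Matrix.conjTranspose_mul]; simp only [Matrix.mul_assoc]
    rw [h3, g.2, hP]
  · intro b
    ext1
    simp [Matrix.mul_assoc, h2]
  · intro g
    ext1
    simp [Matrix.mul_assoc, h1]

end Herm

end Pool.Agent.MP_0e403a_al
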