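import Mathlib
import Pool.Agent.MP_0e403a_al.Totient

set_option autoImplicit false
set_option linter.unusedSectionVars false

namespace Pool.Agent.MP_0e403a_al

open scoped BigOperators Polynomial
open Polynomial

section Seq

variable {F : Type*} [Field F]

/-- The shift on two-sided sequences. -/
def shiftEnd (F : Type*) [Field F] : Module.End F (ℤ → F) where
  toFun c := fun k => c (k + 1)
  map_add' _ _ := rfl
  map_smul' _ _ := rfl

theorem shiftEnd_pow (i : ℕ) (c : ℤ → F) (k : ℤ) : ((shiftEnd F) ^ i) c k = c (k + i) := by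
  induction i generalizing k with
  | zero => simp
  | succ i ih =>
    rw [pow_succ', Module.End.mul_apply]
    change ((shiftEnd F) ^ i) c (k + 1) = _
    rw [ih]
    congr 1
    push_cast
    ring

/-- Polynomials act on two-sided sequences through the shift. -/
noncomputable def act (p : F[X]) (c : ℤ → F) : ℤ → F := aeval (shiftEnd F) p c

theorem act_apply' {p : F[X]} {N : ℕ} (hN : p.natDegree < N) (c : ℤ → F) (k : ℤ) :
    act p c k = ∑ i ∈ Finset.range N, p.coeff i * c (k + i) := by
  rw [act, aeval_eq_sum_range' hN, LinearMap.sum_apply, Finset.sum_apply]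
  apply Finset.sum_congr rfl
  intro i _
  rw [LinearMap.smul_apply, Pi.smul_apply, shiftEnd_pow, smul_eq_mul]

theorem act_apply (p : F[X]) (c : ℤ → F) (k : ℤ) :
    act p c k = ∑ i ∈ Finset.range (p.natDegree + 1), p.coeff i * c (k + i) :=
  act_apply' (Nat.lt_succ_self _) c k

theorem act_mul (p r : F[X]) (c : ℤ → F) : act (p * r) c = act p (act r c) := by
  rw [act, map_mul]; rfl

theorem act_add (p r : F[X]) (c : ℤ → F) : act (p + r) c = act p c + act r c := by
  rw [act, map_add]; rfl

theorem act_one (c : ℤ → F) : act 1 c = c := by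
  rw [act, map_one]; rfl

theorem act_C (a : F) (c : ℤ → F) : act (C a) c = a • c := by
  rw [act, aeval_C]; rfl

theorem act_zero_right (p : F[X]) : act p (0 : ℤ → F) = 0 := map_zero _

theorem act_eq_zero_of_dvd {p r : F[X]} (h : p ∣ r) {c : ℤ → F} (hc : act p c = 0) :
    act r c = 0 := by
  obtain ⟨k, rfl⟩ := h
  rw [mul_comm, act_mul, hc, act_zero_right]

/-- A two-sided solution with `n` consecutive zeros vanishes. -/
theorem eq_zero_of_zeros {f : F[X]} (hf : f.Monic) (h0 : f.coeff 0 ≠ 0) {c : ℤ → F}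
    (hc : act f c = 0) (m : ℤ) (hz : ∀ i : ℕ, i < f.natDegree → c (m + i) = 0) : c = 0 := by
  set n := f.natDegree with hn
  rcases Nat.eq_zero_or_pos n with h | hpos
  · have : f = 1 := hf.natDegree_eq_zero.mp (by rw [← hn, h])
    rw [this, act_one] at hc
    exact hc
  have hup : ∀ m : ℤ, (∀ i : ℕ, i < n → c (m + i) = 0) → ∀ i : ℕ, i < n → c (m + 1 + i) = 0 := by
    intro m hm i hi
    rcases Nat.lt_or_ge (i + 1) n with h | h
    · have := hm (i + 1) h
      rw [show m + 1 + (i : ℤ) = m + ((i + 1 : ℕ) : ℤ) by push_cast; ring]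
      exact this
    · have hin : i + 1 = n := by omega
      have h1 := congrFun hc m
      rw [act_apply, ← hn, Finset.sum_range_succ, Finset.sum_eq_zero, zero_add] at h1
      · have h2 : f.coeff n = 1 := hf
        rw [h2, one_mul] at h1
        rw [show m + 1 + (i : ℤ) = m + (n : ℤ) by rw [← hin]; push_cast; ring]
        exact h1
      · intro j hj
        rw [hm j (Finset.mem_range.mp hj), mul_zero]
  have hdown : ∀ m : ℤ, (∀ i : ℕ, i < n → c (m + i) = 0) → ∀ i : ℕ, i < n → c (m - 1 + i) = 0 := by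
    intro m hm i hi
    rcases Nat.eq_zero_or_pos i with rfl | hipos
    · have h1 := congrFun hc (m - 1)
      rw [act_apply, ← hn, Finset.sum_range_succ', Finset.sum_eq_zero, zero_add] at h1
      · exact (mul_eq_zero.mp h1).resolve_left h0
      · intro j hj
        have hj' := Finset.mem_range.mp hj
        rw [show m - 1 + ((j + 1 : ℕ) : ℤ) = m + (j : ℤ) by push_cast; ring, hm j hj', mul_zero]
    · have := hm (i - 1) (by omega)
      rw [show m - 1 + (i : ℤ) = m + ((i - 1 : ℕ) : ℤ) by
        rw [Nat.cast_sub hipos]; push_cast; ring]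
      exact this
  have hall : ∀ k : ℤ, ∀ i : ℕ, i < n → c (m + k + i) = 0 := by
    intro k
    induction k using Int.induction_on with
    | zero => simpa using hz
    | succ k ih =>
      have := hup _ ih
      intro i hi
      have h2 := this i hi
      rwa [show m + (k : ℤ) + 1 + (i : ℤ) = m + ((k : ℤ) + 1) + i by ring] at h2
    | pred k ih =>
      have := hdown _ ih
      intro i hi
      have h2 := this i hi
      rwa [show m + (-(k : ℤ)) - 1 + (i : ℤ) = m + (-(k : ℤ) - 1) + i by ring] at h2
  funext k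
  have := hall (k - m) 0 hpos
  simpa using this

/-- Initial values extend to a two-sided solution. -/
theorem exists_extension {f : F[X]} (hf : f.Monic) (h0 : f.coeff 0 ≠ 0)
    (v : Fin f.natDegree → F) :
    ∃ c : ℤ → F, act f c = 0 ∧ ∀ i : Fin f.natDegree, c (i : ℕ) = v i := by
  classical
  let pb := AdjoinRoot.powerBasis' hf
  have hu : IsUnit (AdjoinRoot.root f) := by
    have h1 : aeval (AdjoinRoot.root f) f = 0 := by
      rw [AdjoinRoot.aeval_eq, AdjoinRoot.mk_self]
    have h1 : aeval (AdjoinRoot.root f) (divX f * X + C (f.coeff 0)) = 0 := by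
      rw [divX_mul_X_add]; exact h1
    simp only [map_add, map_mul, aeval_X, aeval_C] at h1
    have h3 : (aeval (AdjoinRoot.root f) (divX f)) * (AdjoinRoot.root f) =
        algebraMap F (AdjoinRoot f) (-(f.coeff 0)) := by
      rw [map_neg]; exact eq_neg_of_add_eq_zero_left h1
    have h4 : IsUnit (algebraMap F (AdjoinRoot f) (-(f.coeff 0))) :=
      (IsUnit.mk0 _ (neg_ne_zero.mpr h0)).map _
    rw [← h3] at h4
    exact isUnit_of_mul_isUnit_right h4
  obtain ⟨u, hu⟩ := hu
  let L : AdjoinRoot f →ₗ[F] F := pb.basis.constr F v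
  refine ⟨fun k => L ((u ^ k : (AdjoinRoot f)ˣ) : AdjoinRoot f), ?_, ?_⟩
  · funext k
    rw [act_apply]
    have h1 : ∀ i : ℕ, f.coeff i * L ((u ^ (k + (i : ℤ)) : (AdjoinRoot f)ˣ) : AdjoinRoot f) =
        L (((u ^ k : (AdjoinRoot f)ˣ) : AdjoinRoot f) * (f.coeff i • (AdjoinRoot.root f) ^ i)) := by
      intro i
      rw [zpow_add, Units.val_mul, zpow_natCast, Units.val_pow_eq_pow_val, hu, mul_smul_comm,
        map_smul, smul_eq_mul]
    rw [Finset.sum_congr rfl (fun i _ => h1 i), ← map_sum, ← Finset.mul_sum,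
      ← aeval_eq_sum_range, AdjoinRoot.aeval_eq, AdjoinRoot.mk_self, mul_zero, map_zero]
    rfl
  · intro i
    change L ((u ^ ((i : ℕ) : ℤ) : (AdjoinRoot f)ˣ) : AdjoinRoot f) = v i
    rw [zpow_natCast, Units.val_pow_eq_pow_val, hu]
    have h1 : (AdjoinRoot.root f) ^ (i : ℕ) = pb.basis i := (pb.basis_eq_pow i).symm
    rw [h1]
    exact pb.basis.constr_basis F v i

/-- The solution space of `f`. -/
noncomputable def Sol (f : F[X]) : Submodule F (ℤ → F) := LinearMap.ker (aeval (shiftEnd F) f)

theorem mem_Sol {f : F[X]} {c : ℤ → F} : c ∈ Sol f ↔ act f c = 0 := LinearMap.mem_ker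

/-- Restriction of a solution to its initial values. -/
noncomputable def solEquiv {f : F[X]} (hf : f.Monic) (h0 : f.coeff 0 ≠ 0) :
    Sol f ≃ (Fin f.natDegree → F) :=
  Equiv.ofBijective (fun c i => c.1 (i : ℕ)) (by
    constructor
    · intro c d h
      have h1 : c.1 - d.1 = 0 := by
        refine eq_zero_of_zeros hf h0 (mem_Sol.mp ((Sol f).sub_mem c.2 d.2)) 0 ?_
        intro i hi
        have := congrFun h ⟨i, hi⟩
        simpa [sub_eq_zero] using this
      exact Subtype.ext (sub_eq_zero.mp h1)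
    · intro v
      obtain ⟨c, hc, hv⟩ := exists_extension hf h0 v
      exact ⟨⟨c, mem_Sol.mpr hc⟩, funext hv⟩)

theorem card_Sol [Finite F] {f : F[X]} (hf : f.Monic) (h0 : f.coeff 0 ≠ 0) :
    Nat.card (Sol f) = Nat.card F ^ f.natDegree := by
  rw [Nat.card_congr (solEquiv hf h0), Nat.card_fun, Nat.card_eq_fintype_card (α := Fin _),
    Fintype.card_fin]

theorem finite_Sol [Finite F] {f : F[X]} (hf : f.Monic) (h0 : f.coeff 0 ≠ 0) : Finite (Sol f) :=
  Finite.of_equiv _ (solEquiv hf h0).symm

end Seq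

section Herm

variable {F : Type*} [Field F] [StarRing F]

/-- The involution on two-sided sequences. -/
def Jn (c : ℤ → F) : ℤ → F := fun k => star (c (-k))

theorem Jn_Jn (c : ℤ → F) : Jn (Jn c) = c := by
  funext k; simp [Jn]

theorem act_Jn (p : F[X]) (c : ℤ → F) (k : ℤ) :
    act (p.map (starRingEnd F)).reverse (Jn c) k = star (act p c (-k - p.natDegree)) := by
  have h1 : ((p.map (starRingEnd F)).reverse).natDegree < p.natDegree + 1 :=
    Nat.lt_succ_of_le ((reverse_natDegree_le _).trans (natDegree_map_star p).le)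
  rw [act_apply' h1, act_apply, star_sum, ← Finset.sum_range_reflect]
  apply Finset.sum_congr rfl
  intro i hi
  have hi' : i ≤ p.natDegree := Nat.lt_succ_iff.mp (Finset.mem_range.mp hi)
  have e1 : p.natDegree + 1 - 1 - i = p.natDegree - i := by omega
  rw [e1, coeff_reverse, natDegree_map_star, revAt_le (Nat.sub_le _ _), Nat.sub_sub_self hi',
    coeff_map, starRingEnd_apply, Jn, star_mul']
  congr 3
  rw [Nat.cast_sub hi']
  ring

theorem act_dual_Jn {p : F[X]} {c : ℤ → F} (h : act p c = 0) : act (dual p) (Jn c) = 0 := by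
  rw [dual, act_mul]
  have : act (p.map (starRingEnd F)).reverse (Jn c) = 0 := by
    funext k
    rw [act_Jn, h]
    simp
  rw [this, act_zero_right]

/-- Hermitian solutions. -/
def Lam (f : F[X]) : Type _ := {c : Sol f // Jn c.1 = c.1}

theorem finite_Lam [Finite F] {f : F[X]} (hf : f.Monic) (h0 : f.coeff 0 ≠ 0) : Finite (Lam f) := by
  have := finite_Sol hf h0
  unfold Lam
  infer_instance

theorem card_Lam [Finite F] (hF : StarNontrivial F) {q : ℕ} (hq : Nat.card F = q ^ 2) {f : F[X]}
    (hf : SD f) : Nat.card (Lam f) = q ^ f.natDegree := by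
  have := finite_Sol hf.monic hf.coeff_zero
  let σ : Sol f → Sol f := fun c => ⟨Jn c.1, by
    rw [mem_Sol]
    have := act_dual_Jn (mem_Sol.mp c.2)
    rwa [hf.dual_eq] at this⟩
  have h1 := card_fixed_of_card hF (W := Sol f) σ
    (fun x y => by apply Subtype.ext; funext k; simp [σ, Jn])
    (fun c x => by apply Subtype.ext; funext k; simp [σ, Jn])
    (fun x => by apply Subtype.ext; simp [σ, Jn_Jn])
    (m := f.natDegree) (q := q) (by rw [card_Sol hf.monic hf.coeff_zero, hq])
  rw [← h1]
  apply Nat.card_congr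
  unfold Lam
  apply Equiv.subtypeEquivRight
  intro c
  simp [σ, Subtype.ext_iff]

/-- Number of Hermitian solutions with minimal polynomial exactly `f`. -/
noncomputable def hnum (f : F[X]) : ℕ :=
  Nat.card {c : ℤ → F // (act f c = 0 ∧ Jn c = c) ∧ ∀ p : F[X], act p c = 0 → f ∣ p}

/-- The annihilator ideal of a sequence. -/
noncomputable def annS (c : ℤ → F) : Ideal F[X] where
  carrier := {p | act p c = 0}
  add_mem' := by
    intro a b ha hb
    have ha' : act a c = 0 := ha
    have hb' : act b c = 0 := hb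
    change act (a + b) c = 0
    rw [act_add, ha', hb', add_zero]
  zero_mem' := by
    change act 0 c = 0
    rw [act, map_zero]; rfl
  smul_mem' := by
    intro a b hb
    have hb' : act b c = 0 := hb
    change act (a * b) c = 0
    rw [act_mul, hb', act_zero_right]

theorem exists_ann (c : ℤ → F) {f : F[X]} (hf : f ≠ 0) (h : act f c = 0) :
    ∃ E : F[X], E.Monic ∧ act E c = 0 ∧ ∀ p, act p c = 0 → E ∣ p := by
  classical
  obtain ⟨E, hE⟩ := (IsPrincipalIdealRing.principal (annS c)).principal
  have hE' : annS c = Ideal.span {E} := hE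
  have hmem : ∀ p, act p c = 0 ↔ E ∣ p := by
    intro p
    have : act p c = 0 ↔ p ∈ annS c := Iff.rfl
    rw [this, hE', Ideal.mem_span_singleton]
  have hE0 : E ≠ 0 := by
    rintro rfl
    exact hf (zero_dvd_iff.mp ((hmem f).mp h))
  have hassoc : Associated E (normalize E) := associated_normalize E
  refine ⟨normalize E, monic_normalize hE0, ?_, ?_⟩
  · exact (hmem _).mpr hassoc.dvd
  · intro p hp
    exact hassoc.symm.dvd.trans ((hmem p).mp hp)

theorem SD_of_ann {c : ℤ → F} (hc : Jn c = c) {f : F[X]} (h0 : f.coeff 0 ≠ 0)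
    (hf : act f c = 0) {E : F[X]} (hE : E.Monic) (hE0 : act E c = 0)
    (hmin : ∀ p, act p c = 0 → E ∣ p) : SD E := by
  have h1 : E.coeff 0 ≠ 0 := coeff_zero_ne_of_dvd h0 (hmin f hf)
  refine ⟨hE, h1, ?_⟩
  have h2 : act (dual E) c = 0 := by
    have := act_dual_Jn hE0
    rwa [hc] at this
  have h3 := hmin _ h2
  exact eq_of_monic_of_dvd_of_natDegree_le hE (monic_dual h1) h3 (natDegree_dual h1).le

end Herm

end Pool.Agent.MP_0e403a_al
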