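import Mathlib
import Pool.Agent.MP_0e403a_al.Seq

set_option autoImplicit false
set_option linter.unusedSectionVars false

namespace Pool.Agent.MP_0e403a_al

open scoped BigOperators Polynomial
open Polynomial

section Hnum

variable {F : Type*} [Field F] [StarRing F] [Finite F]

theorem natDegree_prod_primes {t : Finset F[X]} (ht : ∀ P ∈ t, IsPr P) :
    (∏ P ∈ t, P).natDegree = ∑ P ∈ t, P.natDegree :=
  natDegree_prod_of_monic _ _ (fun P hP => (ht P hP).SD.monic)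

theorem act_quot_iff {f g : F[X]} (hf : SD f) {t : Finset F[X]} (ht : t ⊆ primesOf f)
    (hg : f = (∏ P ∈ t, P) * g) (c : ℤ → F) :
    (act f c = 0 ∧ ∀ P ∈ t, act (f / P) c = 0) ↔ act g c = 0 := by
  classical
  have hf0 := hf.monic.ne_zero
  have hpr : ∀ P ∈ t, IsPr P := fun P hP => ((mem_primesOf hf0).mp (ht hP)).1
  have hdv : ∀ P ∈ t, P ∣ f := fun P hP => ((mem_primesOf hf0).mp (ht hP)).2
  constructor
  · rintro ⟨h1, h2⟩
    obtain ⟨E, hE1, hE2, hE3⟩ := exists_ann c hf0 h1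
    obtain ⟨k, hk⟩ := hE3 f h1
    have h3 : ∀ P ∈ t, P ∣ k := by
      intro P hP
      obtain ⟨m, hm⟩ := hE3 _ (h2 P hP)
      have h4 : P * (f / P) = f := EuclideanDomain.mul_div_cancel' (hpr P hP).SD.monic.ne_zero (hdv P hP)
      rw [hm, hk] at h4
      refine ⟨m, ?_⟩
      apply mul_left_cancel₀ hE1.ne_zero
      rw [← h4]; ring
    obtain ⟨k', hk'⟩ := prod_dvd_of_primes t hpr h3
    have h5 : g = E * k' := by
      have hprod : (∏ P ∈ t, P) ≠ 0 := Finset.prod_ne_zero_iff.mpr (fun P hP => (hpr P hP).SD.monic.ne_zero)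
      apply mul_left_cancel₀ hprod
      rw [← hg, hk, hk']; ring
    rw [h5]
    exact act_eq_zero_of_dvd (dvd_mul_right _ _) hE2
  · intro h
    refine ⟨act_eq_zero_of_dvd (by rw [hg]; exact dvd_mul_left _ _) h, ?_⟩
    intro P hP
    have h4 : f / P = (∏ Q ∈ t.erase P, Q) * g := by
      have h5 : P * (f / P) = f := EuclideanDomain.mul_div_cancel' (hpr P hP).SD.monic.ne_zero (hdv P hP)
      apply mul_left_cancel₀ (hpr P hP).SD.monic.ne_zero
      rw [h5, hg, ← Finset.mul_prod_erase t _ hP]; ring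
    rw [h4]
    exact act_eq_zero_of_dvd (dvd_mul_left _ _) h

theorem minpoly_iff {f : F[X]} (hf : SD f) {c : ℤ → F} (h1 : act f c = 0) (hJ : Jn c = c) :
    (∀ p : F[X], act p c = 0 → f ∣ p) ↔ ∀ P ∈ primesOf f, ¬ act (f / P) c = 0 := by
  have hf0 := hf.monic.ne_zero
  constructor
  · intro h P hP h2
    obtain ⟨hP1, hP2⟩ := (mem_primesOf hf0).mp hP
    have h3 := h _ h2
    have h5 : P * (f / P) = f := EuclideanDomain.mul_div_cancel' hP1.SD.monic.ne_zero hP2
    have h6 : f / P ≠ 0 := by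
      intro h'; rw [h', mul_zero] at h5; exact hf0 h5.symm
    have h7 := natDegree_le_of_dvd h3 h6
    have h8 : f.natDegree = P.natDegree + (f / P).natDegree := by
      conv_lhs => rw [← h5]
      exact natDegree_mul hP1.SD.monic.ne_zero h6
    have := hP1.natDegree_pos
    omega
  · intro h
    obtain ⟨E, hE1, hE2, hE3⟩ := exists_ann c hf0 h1
    have hEsd : SD E := SD_of_ann hJ hf.coeff_zero h1 hE1 hE2 hE3
    obtain ⟨k, hk, hfk, _⟩ := hf.exists_mul hEsd (hE3 f h1)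
    rcases eq_or_ne k 1 with hk1 | hk1
    · rw [hk1, mul_one] at hfk
      rw [hfk]; exact hE3
    · exfalso
      obtain ⟨P, hP, k', hk'⟩ := exists_isPr_dvd hk hk1
      have hPf : P ∣ f := by rw [hfk, hk']; exact ⟨E * k', by ring⟩
      apply h P ((mem_primesOf hf0).mpr ⟨hP, hPf⟩)
      have h4 : f / P = E * k' := by
        have h5 : P * (f / P) = f := EuclideanDomain.mul_div_cancel' hP.SD.monic.ne_zero hPf
        apply mul_left_cancel₀ hP.SD.monic.ne_zero
        rw [h5, hfk, hk']; ring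
      rw [h4]
      exact act_eq_zero_of_dvd (dvd_mul_right _ _) hE2

theorem hnum_eq (hF : StarNontrivial F) {q : ℕ} (hq : Nat.card F = q ^ 2) {f : F[X]} (hf : SD f) :
    (hnum f : ℝ) = (q : ℝ) ^ f.natDegree * ∏ P ∈ primesOf f, (1 - ((q : ℝ) ^ P.natDegree)⁻¹) := by
  have hf0 := hf.monic.ne_zero
  have hfin := finite_Lam hf.monic hf.coeff_zero
  have hqpos : (q : ℝ) ≠ 0 := by
    rintro h
    have h' : q = 0 := by exact_mod_cast h
    have : 0 < Nat.card F := Nat.card_pos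
    rw [hq, h'] at this
    simp at this
  have h1 := ie_card (X := Lam f) (fun (P : F[X]) c => act (f / P) c.1.1 = 0) (primesOf f)
    ((q : ℝ) ^ f.natDegree) (fun P => (((q : ℝ)) ^ P.natDegree)⁻¹) (by
      intro t ht
      have hpr : ∀ P ∈ t, IsPr P := fun P hP => ((mem_primesOf hf0).mp (ht hP)).1
      have hdv : ∀ P ∈ t, P ∣ f := fun P hP => ((mem_primesOf hf0).mp (ht hP)).2
      obtain ⟨g, hg, hfg, hdeg⟩ := hf.exists_mul (SD.prod t (fun P => P) (fun P hP => (hpr P hP).SD))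
        (prod_dvd_of_primes t hpr hdv)
      have e : {x : Lam f // ∀ P ∈ t, act (f / P) x.1.1 = 0} ≃ Lam g :=
        { toFun := fun x => ⟨⟨x.1.1.1, mem_Sol.mpr ((act_quot_iff hf ht hfg _).mp
            ⟨mem_Sol.mp x.1.1.2, x.2⟩)⟩, x.1.2⟩
          invFun := fun y => ⟨⟨⟨y.1.1, mem_Sol.mpr ((act_quot_iff hf ht hfg _).mpr
            (mem_Sol.mp y.1.2)).1⟩, y.2⟩, ((act_quot_iff hf ht hfg _).mpr (mem_Sol.mp y.1.2)).2⟩
          left_inv := fun x => rfl
          right_inv := fun y => rfl }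
      rw [Nat.card_congr e, card_Lam hF hq hg, Finset.prod_inv_distrib, Finset.prod_pow_eq_pow_sum,
        ← natDegree_prod_primes hpr, hdeg]
      push_cast
      rw [pow_add]
      field_simp)
  rw [← h1, hnum]
  congr 1
  exact Nat.card_congr
    { toFun := fun x => ⟨⟨⟨x.1, mem_Sol.mpr x.2.1.1⟩, x.2.1.2⟩,
        (minpoly_iff hf x.2.1.1 x.2.1.2).mp x.2.2⟩
      invFun := fun y => ⟨y.1.1.1, ⟨mem_Sol.mp y.1.1.2, y.1.2⟩,
        (minpoly_iff hf (mem_Sol.mp y.1.1.2) y.1.2).mpr y.2⟩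
      left_inv := fun x => rfl
      right_inv := fun y => rfl }

/-- The weight of a self-dual polynomial in the cyclic proportion. -/
theorem hnum_div_Phi (hF : StarNontrivial F) {q : ℕ} (hq : Nat.card F = q ^ 2) {f : F[X]}
    (hf : SD f) :
    (hnum f : ℝ) / (Phi f : ℝ) =
      ((q : ℝ) ^ f.natDegree)⁻¹ * ∏ P ∈ primesOf f, (1 - ((-(q : ℝ)) ^ P.natDegree)⁻¹)⁻¹ := by
  have hf0 := hf.monic.ne_zero
  have hq2 : 1 < q := by
    have h2 : 1 < Nat.card F := Finite.one_lt_card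
    rw [hq] at h2
    by_contra h
    have h1 : q ≤ 1 := by omega
    interval_cases q <;> simp at h2
  have hqr : (1 : ℝ) < q := by exact_mod_cast hq2
  have hq0 : (0 : ℝ) < q := by linarith
  rw [hnum_eq hF hq hf, Phi_SD hF hq hf, Finset.prod_mul_distrib, Finset.prod_inv_distrib]
  have h1 : ∏ P ∈ primesOf f, (1 - ((q : ℝ) ^ P.natDegree)⁻¹) ≠ 0 := by
    apply Finset.prod_ne_zero_iff.mpr
    intro P hP
    have hpos := ((mem_primesOf hf0).mp hP).1.natDegree_pos
    have h2 : 1 < (q : ℝ) ^ P.natDegree := one_lt_pow₀ hqr hpos.ne'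
    have h3 : ((q : ℝ) ^ P.natDegree)⁻¹ < 1 := inv_lt_one_of_one_lt₀ h2
    linarith
  have h2 : (q : ℝ) ^ f.natDegree ≠ 0 := pow_ne_zero _ hq0.ne'
  have e : ((q : ℝ) ^ 2) ^ f.natDegree = (q : ℝ) ^ f.natDegree * (q : ℝ) ^ f.natDegree := by
    rw [← pow_mul, mul_comm, pow_mul, sq]
  rw [e]
  generalize (∏ P ∈ primesOf f, (1 - ((q : ℝ) ^ P.natDegree)⁻¹)) = A at h1 ⊢
  generalize (∏ P ∈ primesOf f, (1 - ((-(q : ℝ)) ^ P.natDegree)⁻¹)) = B
  generalize (q : ℝ) ^ f.natDegree = Q at h2 ⊢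
  rw [show Q * Q * (A * B) = (Q * A) * (Q * B) by ring,
    div_mul_cancel_left₀ (mul_ne_zero h2 h1), mul_inv]

end Hnum

end Pool.Agent.MP_0e403a_al
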