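import Mathlib
import Pool.Agent.MP_0e403a_al.Cyc
import Pool.Agent.MP_0e403a_al.Herm
import Pool.Agent.MP_0e403a_al.Hnum

set_option autoImplicit false
set_option linter.unusedSectionVars false

namespace Pool.Agent.MP_0e403a_al

open scoped BigOperators Polynomial Matrix
open Polynomial

section Isom

variable {F : Type*} [Field F] [StarRing F] {n : ℕ}

/-- `g` preserves the form `H`. -/
def IsIsom (H g : Matrix (Fin n) (Fin n) F) : Prop := gᴴ * H * g = H

theorem hf_mulVec (H g : Matrix (Fin n) (Fin n) F) (u w : Fin n → F) :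
    hf H (g *ᵥ u) (g *ᵥ w) = hf (gᴴ * H * g) u w := by
  unfold hf
  rw [Matrix.star_mulVec, ← Matrix.mulVec_mulVec, ← Matrix.mulVec_mulVec, Matrix.dotProduct_mulVec,
    Matrix.vecMul_vecMul, ← Matrix.dotProduct_mulVec, ← Matrix.mulVec_mulVec]

theorem IsIsom.hf_eq {H g : Matrix (Fin n) (Fin n) F} (h : IsIsom H g) (u w : Fin n → F) :
    hf H (g *ᵥ u) (g *ᵥ w) = hf H u w := by
  have h' : gᴴ * H * g = H := h
  rw [hf_mulVec, h']

theorem IsIsom.det_isUnit {H g : Matrix (Fin n) (Fin n) F} (h : IsIsom H g) (hdet : H.det ≠ 0) :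
    IsUnit g.det := by
  have h' : gᴴ * H * g = H := h
  rw [isUnit_iff_ne_zero]
  intro h0
  have := congrArg Matrix.det h'
  rw [Matrix.det_mul, h0, mul_zero] at this
  exact hdet this.symm

theorem IsIsom.pow {H g : Matrix (Fin n) (Fin n) F} (h : IsIsom H g) (k : ℕ) : IsIsom H (g ^ k) := by
  induction k with
  | zero => simp [IsIsom]
  | succ k ih =>
    have h' : gᴴ * H * g = H := h
    have ih' : (g ^ k)ᴴ * H * g ^ k = H := ih
    change (g ^ (k + 1))ᴴ * H * g ^ (k + 1) = H
    rw [pow_succ, Matrix.conjTranspose_mul]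
    calc gᴴ * (g ^ k)ᴴ * H * (g ^ k * g) = gᴴ * ((g ^ k)ᴴ * H * g ^ k) * g := by
          simp only [Matrix.mul_assoc]
      _ = H := by rw [ih', h']

theorem IsIsom.inv {H g : Matrix (Fin n) (Fin n) F} (h : IsIsom H g) (hdet : H.det ≠ 0) :
    IsIsom H g⁻¹ := by
  have h' : gᴴ * H * g = H := h
  have hu := h.det_isUnit hdet
  have h1 : g * g⁻¹ = 1 := Matrix.mul_nonsing_inv _ hu
  change (g⁻¹)ᴴ * H * g⁻¹ = H
  calc (g⁻¹)ᴴ * H * g⁻¹ = (g⁻¹)ᴴ * (gᴴ * H * g) * g⁻¹ := by rw [h']
    _ = (g * g⁻¹)ᴴ * H * (g * g⁻¹) := by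
        rw [Matrix.conjTranspose_mul]; simp only [Matrix.mul_assoc]
    _ = H := by rw [h1]; simp

theorem IsIsom.zpow {H g : Matrix (Fin n) (Fin n) F} (h : IsIsom H g) (hdet : H.det ≠ 0) (k : ℤ) :
    IsIsom H (g ^ k) := by
  rcases Int.eq_nat_or_neg k with ⟨m, rfl | rfl⟩
  · rw [zpow_natCast]; exact h.pow m
  · rw [Matrix.zpow_neg_natCast]; exact (h.pow m).inv hdet

/-- The sequence attached to an isometry and a vector. -/
noncomputable def seqOf (H g : Matrix (Fin n) (Fin n) F) (v : Fin n → F) : ℤ → F :=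
  fun k => hf H v ((g ^ k) *ᵥ v)

theorem act_seqOf {H g : Matrix (Fin n) (Fin n) F} (h : IsIsom H g) (hdet : H.det ≠ 0)
    (v : Fin n → F) (p : F[X]) (k : ℤ) :
    act p (seqOf H g v) k = hf H v ((g ^ k) *ᵥ pv g v p) := by
  have hu := h.det_isUnit hdet
  rw [act_apply, pv_eq_sum g v p (Nat.lt_succ_self _), Matrix.mulVec_sum, hf_sum_right]
  apply Finset.sum_congr rfl
  intro i _
  rw [Matrix.mulVec_smul, hf_smul_right, seqOf, Matrix.zpow_add hu, zpow_natCast,
    Matrix.mulVec_mulVec]

theorem Jn_seqOf {H g : Matrix (Fin n) (Fin n) F} (hH : H.IsHermitian) (h : IsIsom H g)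
    (hdet : H.det ≠ 0) (v : Fin n → F) : Jn (seqOf H g v) = seqOf H g v := by
  funext k
  have hu := h.det_isUnit hdet
  rw [Jn, seqOf, hf_star H hH, ← (h.zpow hdet k).hf_eq, Matrix.mulVec_mulVec]
  have : g ^ k * g ^ (-k) = 1 := by
    rw [← Matrix.zpow_add hu, add_neg_cancel, zpow_zero]
  rw [this, Matrix.one_mulVec]
  rfl

theorem seqOf_min [Finite F] {H g : Matrix (Fin n) (Fin n) F} (h : IsIsom H g)
    (hdet : H.det ≠ 0) {v : Fin n → F} (hv : IsCyc g v) {p : F[X]}
    (hp : act p (seqOf H g v) = 0) : g.charpoly ∣ p := by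
  apply hv
  apply eq_zero_of_hf H hdet
  intro u
  have hu := h.det_isUnit hdet
  obtain ⟨r, rfl⟩ := isCyc_exists hv u
  rw [pv_eq_sum g v r (Nat.lt_succ_self _), hf_sum_left]
  apply Finset.sum_eq_zero
  intro i _
  rw [hf_smul_left]
  have h1 := congrFun hp (-(i : ℤ))
  rw [act_seqOf h hdet] at h1
  have h2 : hf H ((g ^ i) *ᵥ v) (pv g v p) = hf H v ((g ^ (-(i : ℤ))) *ᵥ pv g v p) := by
    rw [← (h.pow i).hf_eq v, Matrix.mulVec_mulVec]
    have : g ^ i * g ^ (-(i : ℤ)) = 1 := by
      rw [← zpow_natCast, ← Matrix.zpow_add hu, add_neg_cancel, zpow_zero]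
    rw [this, Matrix.one_mulVec]
  rw [h2, h1]
  simp

/-- The Krylov matrix. -/
noncomputable def kry (g : Matrix (Fin n) (Fin n) F) (v : Fin n → F) : Matrix (Fin n) (Fin n) F :=
  Matrix.of (fun i j => ((g ^ (j : ℕ)) *ᵥ v) i)

/-- The Toeplitz matrix of a sequence. -/
def toep (n : ℕ) (c : ℤ → F) : Matrix (Fin n) (Fin n) F :=
  Matrix.of (fun i j => c ((j : ℤ) - (i : ℤ)))

theorem gram_apply (H b : Matrix (Fin n) (Fin n) F) (i j : Fin n) :
    (bᴴ * H * b) i j = hf H (fun k => b k i) (fun k => b k j) := by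
  rw [Matrix.mul_assoc]
  rfl

theorem gram_kry {H g : Matrix (Fin n) (Fin n) F} (h : IsIsom H g)
    (hdet : H.det ≠ 0) (v : Fin n → F) :
    (kry g v)ᴴ * H * kry g v = toep n (seqOf H g v) := by
  have hu := h.det_isUnit hdet
  ext i j
  rw [gram_apply]
  change hf H ((g ^ (i : ℕ)) *ᵥ v) ((g ^ (j : ℕ)) *ᵥ v) = hf H v ((g ^ ((j : ℤ) - (i : ℤ))) *ᵥ v)
  rw [← (h.pow i).hf_eq v, Matrix.mulVec_mulVec]
  congr 2
  rw [← zpow_natCast g (i : ℕ), ← Matrix.zpow_add hu, add_sub_cancel, zpow_natCast]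

theorem kry_mulVec (g : Matrix (Fin n) (Fin n) F) (v u : Fin n → F) :
    kry g v *ᵥ u = ∑ j : Fin n, u j • ((g ^ (j : ℕ)) *ᵥ v) := by
  funext i
  rw [Matrix.mulVec, dotProduct, Finset.sum_apply]
  apply Finset.sum_congr rfl
  intro j _
  rw [Pi.smul_apply, smul_eq_mul, mul_comm]
  rfl

/-- Recurrence in convenient form. -/
theorem rec_form {f : F[X]} (hf : f.Monic) (hn : f.natDegree = n) {c : ℤ → F} (hc : act f c = 0)
    (k : ℤ) : ∑ l : Fin n, f.coeff l * c (k + (l : ℕ)) = - c (k + n) := by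
  have h1 := congrFun hc k
  rw [act_apply, hn, Finset.sum_range_succ, ← Fin.sum_univ_eq_sum_range
    (fun i => f.coeff i * c (k + (i : ℕ)))] at h1
  have h2 : f.coeff n = 1 := by rw [← hn]; exact hf
  rw [h2, one_mul] at h1
  exact eq_neg_of_add_eq_zero_left h1

theorem toep_isHermitian {c : ℤ → F} (hc : Jn c = c) : (toep n c).IsHermitian := by
  ext i j
  change star (c ((i : ℤ) - (j : ℤ))) = c ((j : ℤ) - (i : ℤ))
  have := congrFun hc ((j : ℤ) - (i : ℤ))
  rw [← this, Jn, neg_sub]

theorem toep_det_ne {f : F[X]} (hf : f.Monic) (h0 : f.coeff 0 ≠ 0) (hn : f.natDegree = n)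
    {c : ℤ → F} (hc : act f c = 0) (hmin : ∀ p, act p c = 0 → f ∣ p) : (toep n c).det ≠ 0 := by
  classical
  intro hdet
  obtain ⟨u, hu, hTu⟩ := Matrix.exists_mulVec_eq_zero_iff.mpr hdet
  apply hu
  rcases Nat.eq_zero_or_pos n with h | hpos
  · subst h
    funext i
    exact i.elim0
  set p : F[X] := ofFn n u with hp
  have hpdeg : p.natDegree < n := ofFn_natDegree_lt hpos u
  have h1 : act p c = 0 := by
    refine eq_zero_of_zeros hf h0 (c := act p c) ?_ (-(n - 1 : ℤ)) ?_
    · rw [← act_mul, mul_comm, act_mul, hc, act_zero_right]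
    · intro i hi
      rw [hn] at hi
      rw [act_apply' hpdeg, ← Fin.sum_univ_eq_sum_range
        (fun j => p.coeff j * c (-(n - 1 : ℤ) + i + (j : ℕ)))]
      have h2 := congrFun hTu ⟨n - 1 - i, by omega⟩
      rw [Matrix.mulVec, dotProduct, Pi.zero_apply] at h2
      rw [← h2]
      apply Finset.sum_congr rfl
      intro j _
      rw [hp, ofFn_coeff_eq_val_of_lt _ j.2, mul_comm]
      change c (-(n - 1 : ℤ) + i + (j : ℕ)) * u j = c ((j : ℤ) - ((n - 1 - i : ℕ) : ℤ)) * u j
      congr 2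
      rw [Nat.cast_sub (by omega), Nat.cast_sub (by omega)]
      push_cast
      ring
  have h2 : p = 0 := by
    apply eq_zero_of_dvd_of_natDegree_lt (hmin p h1)
    rw [hn]; exact hpdeg
  funext j
  have := ofFn_coeff_eq_val_of_lt u j.2
  rw [← hp, h2, coeff_zero] at this
  exact this.symm

end Isom

section Build

variable {F : Type*} [Field F] [StarRing F] {m : ℕ}

/-- The images of the basis vectors under the isometry to be built. -/
def nextCol (f : F[X]) (b : Matrix (Fin (m + 1)) (Fin (m + 1)) F) (j : Fin (m + 1)) :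
    Fin (m + 1) → F :=
  if h : (j : ℕ) + 1 < m + 1 then (fun k => b k ⟨j + 1, h⟩)
  else - ∑ l : Fin (m + 1), f.coeff l • (fun k => b k l)

theorem exists_isom_of_gram {f : F[X]} (hfm : f.Monic) (h0 : f.coeff 0 ≠ 0)
    (hn : f.natDegree = m + 1) {c : ℤ → F} (hc : act f c = 0) (hJ : Jn c = c)
    (hmin : ∀ p, act p c = 0 → f ∣ p)
    {H : Matrix (Fin (m + 1)) (Fin (m + 1)) F} (hH : H.IsHermitian) (hdet : H.det ≠ 0)
    {b : Matrix (Fin (m + 1)) (Fin (m + 1)) F} (hb : bᴴ * H * b = toep (m + 1) c) :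
    ∃ (g : Matrix (Fin (m + 1)) (Fin (m + 1)) F) (v : Fin (m + 1) → F),
      IsIsom H g ∧ g.charpoly = f ∧ IsCyc g v ∧ kry g v = b ∧ seqOf H g v = c := by
  have hTdet := toep_det_ne hfm h0 hn hc hmin
  have hbdet : b.det ≠ 0 := by
    intro h
    apply hTdet
    rw [← hb, Matrix.det_mul, h, mul_zero]
  have hbu : IsUnit b.det := isUnit_iff_ne_zero.mpr hbdet
  have hbb : b * b⁻¹ = 1 := Matrix.mul_nonsing_inv _ hbu
  have hbb' : b⁻¹ * b = 1 := Matrix.nonsing_inv_mul _ hbu
  set M : Matrix (Fin (m + 1)) (Fin (m + 1)) F := Matrix.of (fun i j => nextCol f b j i) with hM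
  set g : Matrix (Fin (m + 1)) (Fin (m + 1)) F := M * b⁻¹ with hg
  have hgb : g * b = M := by rw [hg, Matrix.mul_assoc, hbb', Matrix.mul_one]
  set B : Fin (m + 1) → Fin (m + 1) → F := fun j k => b k j with hB
  have hBB : ∀ i j, hf H (B i) (B j) = c ((j : ℤ) - (i : ℤ)) := by
    intro i j
    have := congrFun (congrFun hb i) j
    rw [gram_apply] at this
    exact this
  have hgB : ∀ j, g *ᵥ B j = nextCol f b j := by
    intro j
    funext i
    have := congrFun (congrFun hgb i) j
    exact this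
  -- Gram values with the next columns
  have hcol : ∀ i j, hf H (B i) (nextCol f b j) = c ((j : ℤ) + 1 - (i : ℤ)) := by
    intro i j
    unfold nextCol
    split_ifs with h
    · have := hBB i ⟨j + 1, h⟩
      rw [show (fun k => b k ⟨(j : ℕ) + 1, h⟩) = B ⟨j + 1, h⟩ from rfl, this]
      congr 1
    · have hj : (j : ℕ) = m := by omega
      have h1 : hf H (B i) (- ∑ l : Fin (m + 1), f.coeff l • B l) =
          - ∑ l : Fin (m + 1), f.coeff l * c (-(i : ℤ) + (l : ℕ)) := by
        rw [← neg_one_smul F, hf_smul_right, hf_sum_right, neg_one_mul]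
        congr 1
        apply Finset.sum_congr rfl
        intro l _
        rw [hf_smul_right, hBB]
        congr 2
        ring
      rw [show (fun l : Fin (m + 1) => f.coeff l • fun k => b k l) =
        (fun l : Fin (m + 1) => f.coeff l • B l) from rfl, h1, rec_form hfm hn hc, neg_neg]
      congr 1
      rw [hj]
      push_cast
      ring
  have hcol2 : ∀ i j, hf H (nextCol f b i) (nextCol f b j) = c ((j : ℤ) - (i : ℤ)) := by
    intro i j
    have hJ' : ∀ k, star (c k) = c (-k) := by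
      intro k
      have := congrFun hJ (-k)
      rw [Jn, neg_neg] at this
      exact this
    have key : hf H (nextCol f b j) (nextCol f b i) = c ((i : ℤ) - (j : ℤ)) := by
      conv_lhs => unfold nextCol
      split_ifs with h h' h'
      · rw [show (fun k => b k ⟨(j : ℕ) + 1, h⟩) = B ⟨j + 1, h⟩ from rfl,
          show (fun k => b k ⟨(i : ℕ) + 1, h'⟩) = B ⟨i + 1, h'⟩ from rfl, hBB]
        congr 1
        push_cast
        ring
      · have := hcol ⟨j + 1, h⟩ i
        unfold nextCol at this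
        rw [dif_neg h'] at this
        rw [show (fun k => b k ⟨(j : ℕ) + 1, h⟩) = B ⟨j + 1, h⟩ from rfl, this]
        congr 1
        push_cast
        ring
      · have := hcol ⟨i + 1, h'⟩ j
        unfold nextCol at this
        rw [dif_neg h] at this
        rw [show (fun k => b k ⟨(i : ℕ) + 1, h'⟩) = B ⟨i + 1, h'⟩ from rfl,
          ← hf_star H hH, this, hJ']
        congr 1
        push_cast
        ring
      · have hj : (j : ℕ) = m := by omega
        have hi : (i : ℕ) = m := by omega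
        have h1 : hf H (- ∑ l : Fin (m + 1), f.coeff l • B l) (nextCol f b i) =
            star (- ∑ l : Fin (m + 1), f.coeff l * c (-(m + 1 : ℤ) + (l : ℕ))) := by
          rw [← neg_one_smul F, hf_smul_left, hf_sum_left, star_neg, star_one, neg_one_mul,
            star_neg, star_sum]
          congr 1
          apply Finset.sum_congr rfl
          intro l _
          rw [hf_smul_left, hcol, star_mul', hJ', hi]
          congr 2
          ring
        have h2 : nextCol f b i = - ∑ l : Fin (m + 1), f.coeff l • B l := by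
          unfold nextCol; rw [dif_neg h']
        have h3 : hf H (- ∑ l : Fin (m + 1), f.coeff l • B l)
            (- ∑ l : Fin (m + 1), f.coeff l • B l) = c ((i : ℤ) - (j : ℤ)) := by
          rw [h2] at h1
          rw [h1, rec_form hfm hn hc, neg_neg, hJ', hj, hi]
          congr 1
          push_cast
          ring
        exact h3
    rw [← hf_star H hH, key, hJ']
    congr 1
    ring
  have hisom : IsIsom H g := by
    have h1 : (g * b)ᴴ * H * (g * b) = bᴴ * H * b := by
      rw [hb]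
      ext i j
      rw [gram_apply]
      rw [hgb]
      exact hcol2 i j
    have h2 : (g * b)ᴴ * H * (g * b) = bᴴ * (gᴴ * H * g) * b := by
      rw [Matrix.conjTranspose_mul]; simp only [Matrix.mul_assoc]
    rw [h2] at h1
    have h3 : bᴴ * (gᴴ * H * g) = bᴴ * H := by
      have := congrArg (fun Z => Z * b⁻¹) h1
      simpa only [Matrix.mul_assoc, hbb, Matrix.mul_one] using this
    have h4 : (b⁻¹)ᴴ * bᴴ = 1 := by
      rw [← Matrix.conjTranspose_mul, hbb]; simp
    have h5 := congrArg (fun Z => (b⁻¹)ᴴ * Z) h3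
    simp only [← Matrix.mul_assoc, h4, Matrix.one_mul] at h5
    exact h5
  set v : Fin (m + 1) → F := B 0 with hv
  have hpow : ∀ j : ℕ, ∀ hj : j < m + 1, (g ^ j) *ᵥ v = B ⟨j, hj⟩ := by
    intro j
    induction j with
    | zero => intro hj; simp [hv]
    | succ j ih =>
      intro hj
      rw [pow_succ', ← Matrix.mulVec_mulVec, ih (by omega), hgB]
      unfold nextCol
      rw [dif_pos (by simpa using hj)]
  have hkry : kry g v = b := by
    ext i j
    change ((g ^ (j : ℕ)) *ᵥ v) i = b i j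
    rw [hpow j j.2]
  have hpvf : pv g v f = 0 := by
    rw [pv_eq_sum g v f (N := m + 1 + 1) (by omega), Finset.sum_range_succ]
    have h2 : f.coeff (m + 1) = 1 := by rw [← hn]; exact hfm
    rw [h2, one_smul, pow_succ', ← Matrix.mulVec_mulVec, hpow m (by omega), hgB]
    unfold nextCol
    rw [dif_neg (by simp)]
    rw [← Fin.sum_univ_eq_sum_range (fun i => f.coeff i • ((g ^ i) *ᵥ v))]
    rw [Finset.sum_congr rfl (fun l _ => by rw [hpow l l.2])]
    rw [show (fun l : Fin (m + 1) => f.coeff l • fun k => b k l) =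
        (fun l : Fin (m + 1) => f.coeff l • B l) from rfl]
    exact add_neg_cancel _
  have hlow : ∀ r : F[X], r.natDegree < m + 1 → pv g v r = 0 → r = 0 := by
    intro r hr hr0
    have h1 : b *ᵥ (fun j : Fin (m + 1) => r.coeff j) = 0 := by
      rw [← hkry, kry_mulVec]
      rw [pv_eq_sum g v r hr, ← Fin.sum_univ_eq_sum_range (fun i => r.coeff i • ((g ^ i) *ᵥ v))] at hr0
      exact hr0
    have h2 := Matrix.eq_zero_of_mulVec_eq_zero hbdet h1
    ext i
    by_cases hi : i < m + 1
    · have := congrFun h2 ⟨i, hi⟩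
      simpa using this
    · rw [coeff_eq_zero_of_natDegree_lt (by omega), coeff_zero]
  have hfmin : ∀ p : F[X], pv g v p = 0 → f ∣ p := by
    intro p hp
    rw [← modByMonic_eq_zero_iff_dvd hfm]
    apply hlow
    · rw [← hn]
      apply natDegree_modByMonic_lt _ hfm
      intro h
      rw [h] at hn
      simp at hn
    · have h1 : pv g v (p %ₘ f + f * (p /ₘ f)) = 0 := by rw [modByMonic_add_div]; exact hp
      rw [pv_add, mul_comm f, pv_mul, hpvf, pv_zero, add_zero] at h1
      exact h1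
  have hchar : g.charpoly = f := by
    have h1 : f ∣ g.charpoly := hfmin _ (pv_charpoly g v)
    exact eq_of_monic_of_dvd_of_natDegree_le hfm g.charpoly_monic h1 (by
      rw [natDegree_charpoly, hn])
  refine ⟨g, v, hisom, hchar, ?_, hkry, ?_⟩
  · intro p hp
    rw [hchar]
    exact hfmin p hp
  · have h2 : act f (seqOf H g v) = 0 := by
      funext k
      rw [act_seqOf hisom hdet, hpvf, Matrix.mulVec_zero]
      simp [hf]
    have h1 : act f (seqOf H g v - c) = 0 := by
      have h3 : act f (seqOf H g v - c) = act f (seqOf H g v) - act f c := map_sub _ _ _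
      rw [h3, h2, hc, sub_zero]
    have h4 : seqOf H g v - c = 0 := by
      refine eq_zero_of_zeros hfm h0 h1 0 ?_
      intro i hi
      rw [hn] at hi
      rw [Pi.sub_apply, seqOf, zero_add, zpow_natCast, hpow i hi, hv, hBB]
      simp
    exact sub_eq_zero.mp h4

end Build

end Pool.Agent.MP_0e403a_al
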