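import Mathlib

set_option autoImplicit false

namespace Pool.Agent.MP_0e403a_al

open Polynomial

/-- For every prime power `q` there is a field with `q ^ 2` elements and a nontrivial involution. -/
theorem exists_field {q : ℕ} (hq : IsPrimePow q) :
    ∃ (F : Type) (_ : Field F) (_ : StarRing F), Nat.card F = q ^ 2 ∧ ∃ a : F, star a ≠ a := by
  obtain ⟨p, k, hp, hk, rfl⟩ := hq
  have hp' : Nat.Prime p := hp.nat_prime
  have : Fact p.Prime := ⟨hp'⟩
  let F := GaloisField p (2 * k)
  have hcard : Nat.card F = (p ^ k) ^ 2 := by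
    rw [GaloisField.card p (2 * k) (by omega), ← pow_mul, mul_comm]
  have hfin : Finite F := by
    apply Nat.finite_of_card_ne_zero
    rw [hcard]
    exact pow_ne_zero _ (pow_ne_zero _ hp'.ne_zero)
  have : Fintype F := Fintype.ofFinite F
  have hinv : ∀ x : F, (x ^ (p ^ k)) ^ (p ^ k) = x := by
    intro x
    have h1 := FiniteField.pow_card x
    rw [← Nat.card_eq_fintype_card, hcard] at h1
    rw [← pow_mul, ← sq]
    exact h1
  let S : StarRing F :=
    { star := fun x => x ^ (p ^ k)
      star_involutive := hinv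
      star_mul := fun x y => by
        change (x * y) ^ (p ^ k) = y ^ (p ^ k) * x ^ (p ^ k)
        rw [mul_pow, mul_comm]
      star_add := fun x y => by
        change (x + y) ^ (p ^ k) = x ^ (p ^ k) + y ^ (p ^ k)
        exact add_pow_char_pow x y p k }
  refine ⟨F, inferInstance, S, hcard, ?_⟩
  by_contra hcon
  push Not at hcon
  have hall : ∀ x : F, x ^ (p ^ k) = x := hcon
  have h2 : 1 < p ^ k := Nat.one_lt_pow (by omega) hp'.one_lt
  have h3 : (X ^ (p ^ k) - X : F[X]) = 0 := by
    apply eq_zero_of_natDegree_lt_card_of_eval_eq_zero' _ (Finset.univ : Finset F)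
    · intro x _
      simp [hall x]
    · rw [FiniteField.X_pow_card_sub_X_natDegree_eq F h2, Finset.card_univ,
        ← Nat.card_eq_fintype_card, hcard]
      nlinarith
  exact FiniteField.X_pow_card_sub_X_ne_zero F h2 h3

end Pool.Agent.MP_0e403a_al
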