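import Mathlib
import Pool.Agent.MP_0e403a_al.Primes

set_option autoImplicit false
set_option linter.unusedSectionVars false

namespace Pool.Agent.MP_0e403a_al

open scoped BigOperators Polynomial
open Polynomial

section Tcount

variable {F : Type*} [Field F] [StarRing F] [Finite F]

/-- The finite set of self-dual polynomials of degree `n`. -/
noncomputable def sdFin (F : Type*) [Field F] [StarRing F] [Finite F] (n : ℕ) : Finset F[X] :=
  (finite_SDdeg n).toFinset

theorem mem_sdFin {n : ℕ} {f : F[X]} : f ∈ sdFin F n ↔ SD f ∧ f.natDegree = n := by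
  simp [sdFin, SDdeg]

theorem card_sdFin (n : ℕ) : (sdFin F n).card = Nat.card (SDdeg F n) := by
  rw [sdFin, ← Set.ncard_eq_toFinset_card _ (finite_SDdeg n)]; rfl

open Classical in
/-- The number of primes of degree `d`. -/
noncomputable def Tc (F : Type*) [Field F] [StarRing F] [Finite F] (d : ℕ) : ℕ :=
  ((prs F d).filter (fun P => P.natDegree = d)).card

open Classical in
theorem filter_prs {n d : ℕ} (h : d ≤ n) :
    (prs F n).filter (fun P => P.natDegree = d) = (prs F d).filter (fun P => P.natDegree = d) := by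
  ext P
  simp only [Finset.mem_filter, mem_prs]
  constructor
  · rintro ⟨⟨h1, _⟩, h2⟩; exact ⟨⟨h1, h2.le⟩, h2⟩
  · rintro ⟨⟨h1, _⟩, h2⟩; exact ⟨⟨h1, h2.le.trans h⟩, h2⟩

open Classical in
/-- Counting multiples of a self-dual polynomial. -/
theorem card_multiples {g : F[X]} (hg : SD g) (n : ℕ) :
    ((sdFin F n).filter (fun f => g ∣ f)).card =
      if g.natDegree ≤ n then (sdFin F (n - g.natDegree)).card else 0 := by
  split_ifs with h
  · rw [← Finset.card_image_of_injective (sdFin F (n - g.natDegree))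
      (f := fun f => g * f) (fun a b hab => mul_left_cancel₀ hg.monic.ne_zero hab)]
    congr 1
    ext f
    simp only [Finset.mem_filter, Finset.mem_image, mem_sdFin]
    constructor
    · rintro ⟨⟨h1, h2⟩, h3⟩
      obtain ⟨k, hk, hfk, hd⟩ := h1.exists_mul hg h3
      exact ⟨k, ⟨hk, by omega⟩, hfk.symm⟩
    · rintro ⟨k, ⟨hk, hkd⟩, rfl⟩
      refine ⟨⟨hg.mul hk, ?_⟩, dvd_mul_right _ _⟩
      rw [natDegree_mul hg.monic.ne_zero hk.monic.ne_zero]
      omega
  · rw [Finset.card_eq_zero, Finset.filter_eq_empty_iff]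
    intro f hf hdvd
    obtain ⟨h1, h2⟩ := mem_sdFin.mp hf
    exact h (h2 ▸ natDegree_le_of_dvd hdvd h1.monic.ne_zero)

theorem sum_multiples (n e : ℕ) (he : 0 < e) (g : ℕ → ℕ) :
    ∑ j ∈ Finset.Icc 1 n, (if j * e ≤ n then g (j * e) else 0) =
      ∑ k ∈ Finset.Icc 1 n, (if e ∣ k then g k else 0) := by
  rw [← Finset.sum_filter, ← Finset.sum_filter]
  have : (Finset.Icc 1 n).filter (fun k => e ∣ k) =
      ((Finset.Icc 1 n).filter (fun j => j * e ≤ n)).image (fun j => j * e) := by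
    ext k
    simp only [Finset.mem_filter, Finset.mem_image, Finset.mem_Icc]
    constructor
    · rintro ⟨⟨h1, h2⟩, ⟨j, rfl⟩⟩
      refine ⟨j, ⟨⟨?_, ?_⟩, ?_⟩, mul_comm _ _⟩
      · rcases Nat.eq_zero_or_pos j with rfl | h
        · simp at h1
        · exact h
      · exact le_trans (Nat.le_mul_of_pos_left j he) h2
      · rw [mul_comm]; exact h2
    · rintro ⟨j, ⟨⟨h1, h2⟩, h3⟩, rfl⟩
      exact ⟨⟨Nat.mul_pos h1 he, h3⟩, dvd_mul_left _ _⟩
  rw [this, Finset.sum_image]
  intro a _ b _ hab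
  exact Nat.eq_of_mul_eq_mul_right he hab

theorem n_mul_M (n : ℕ) :
    n * (sdFin F n).card =
      ∑ k ∈ Finset.Icc 1 n, (∑ d ∈ k.divisors, d * Tc F d) * (sdFin F (n - k)).card := by
  classical
  have h1 : n * (sdFin F n).card = ∑ f ∈ sdFin F n, f.natDegree := by
    rw [Finset.sum_congr rfl (fun f hf => (mem_sdFin.mp hf).2), Finset.sum_const, smul_eq_mul,
      mul_comm]
  rw [h1]
  have h2 : ∀ f ∈ sdFin F n, f.natDegree =
      ∑ P ∈ prs F n, ∑ j ∈ Finset.Icc 1 n, (if P ^ j ∣ f then P.natDegree else 0) := by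
    intro f hf
    obtain ⟨hsd, hdeg⟩ := mem_sdFin.mp hf
    rw [natDegree_eq_sum n (prs F n) (fun P hP => (mem_prs.mp hP).1) f hsd hdeg.le
      (fun P hP hPf => mem_prs.mpr ⟨hP, hdeg ▸ natDegree_le_of_dvd hPf hsd.monic.ne_zero⟩)]
    apply Finset.sum_congr rfl
    intro P _
    rw [← Finset.sum_filter, Finset.sum_const, smul_eq_mul, mul_comm]
  rw [Finset.sum_congr rfl h2, Finset.sum_comm]
  have h3 : ∀ P ∈ prs F n, ∑ f ∈ sdFin F n, ∑ j ∈ Finset.Icc 1 n,
      (if P ^ j ∣ f then P.natDegree else 0) =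
      ∑ k ∈ Finset.Icc 1 n, (if P.natDegree ∣ k then P.natDegree * (sdFin F (n - k)).card else 0) := by
    intro P hP
    rw [Finset.sum_comm]
    rw [← sum_multiples n P.natDegree (mem_prs.mp hP).1.natDegree_pos]
    apply Finset.sum_congr rfl
    intro j _
    rw [← Finset.sum_filter, Finset.sum_const, smul_eq_mul,
      card_multiples ((mem_prs.mp hP).1.SD.pow j), natDegree_pow]
    split_ifs
    · rw [mul_comm]
    · simp
  rw [Finset.sum_congr rfl h3, Finset.sum_comm]
  apply Finset.sum_congr rfl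
  intro k hk
  obtain ⟨hk1, hk2⟩ := Finset.mem_Icc.mp hk
  rw [← Finset.sum_filter, ← Finset.sum_mul]
  congr 1
  rw [← Finset.sum_fiberwise_of_maps_to (s := (prs F n).filter (fun P => P.natDegree ∣ k))
    (t := k.divisors) (g := fun P => P.natDegree)
    (fun P hP => Nat.mem_divisors.mpr ⟨(Finset.mem_filter.mp hP).2, by omega⟩)]
  apply Finset.sum_congr rfl
  intro d hd
  have hdk := (Nat.mem_divisors.mp hd).1
  have hdn : d ≤ n := (Nat.le_of_dvd (by omega) hdk).trans hk2
  have h4 : ((prs F n).filter (fun P => P.natDegree ∣ k)).filter (fun P => P.natDegree = d) =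
      (prs F d).filter (fun P => P.natDegree = d) := by
    rw [← filter_prs hdn, Finset.filter_filter]
    apply Finset.filter_congr
    intro P _
    constructor
    · rintro ⟨_, h⟩; exact h
    · intro h; exact ⟨h ▸ hdk, h⟩
  rw [h4, Finset.sum_congr rfl (fun P hP => (Finset.mem_filter.mp hP).2), Finset.sum_const,
    smul_eq_mul, mul_comm]
  rfl

/-- The purely arithmetic recursion solved. -/
theorem solve_rec (q : ℝ) (ψ : ℕ → ℝ)
    (h : ∀ n : ℕ, 1 ≤ n → (n : ℝ) * ((q + 1) * q ^ (n - 1)) =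
      ψ n + ∑ k ∈ Finset.Icc 1 (n - 1), ψ k * ((q + 1) * q ^ (n - k - 1))) :
    ∀ n : ℕ, 1 ≤ n → ψ n = q ^ n - (-1) ^ n := by
  have key : ∀ m : ℕ, (∑ k ∈ Finset.Icc 1 m, ψ k * ((q + 1) * q ^ (m + 1 - k - 1))) =
      ((m + 1) * (q + 1) - q) * q ^ m + (-1) ^ (m + 1) := by
    intro m
    induction m with
    | zero => simp
    | succ m ih =>
      have h1 := h (m + 1) (by omega)
      rw [Nat.add_sub_cancel, ih] at h1
      have h2 : ψ (m + 1) = q ^ (m + 1) - (-1) ^ (m + 1) := by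
        push_cast at h1
        rw [pow_succ q m]
        linear_combination -h1
      rw [Finset.sum_Icc_succ_top (by omega)]
      have h3 : ∑ k ∈ Finset.Icc 1 m, ψ k * ((q + 1) * q ^ (m + 1 + 1 - k - 1)) =
          q * ∑ k ∈ Finset.Icc 1 m, ψ k * ((q + 1) * q ^ (m + 1 - k - 1)) := by
        rw [Finset.mul_sum]
        apply Finset.sum_congr rfl
        intro k hk
        have := Finset.mem_Icc.mp hk
        have e : m + 1 + 1 - k - 1 = (m + 1 - k - 1) + 1 := by omega
        rw [e, pow_succ]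
        ring
      rw [h3, ih, h2]
      have e : m + 1 + 1 - (m + 1) - 1 = 0 := by omega
      rw [e]
      push_cast
      ring
  intro n hn
  obtain ⟨m, rfl⟩ : ∃ m, n = m + 1 := ⟨n - 1, by omega⟩
  have h1 := h (m + 1) (by omega)
  rw [Nat.add_sub_cancel, key m] at h1
  push_cast at h1
  rw [pow_succ q m]
  linear_combination -h1

theorem card_sdFin_succ (hF : StarNontrivial F) {q : ℕ} (hq : Nat.card F = q ^ 2) (m : ℕ) :
    (sdFin F (m + 1)).card = (q + 1) * q ^ m := by
  rw [card_sdFin, card_SDdeg_succ hF hq]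

theorem card_sdFin_zero : (sdFin F 0).card = 1 := by
  rw [card_sdFin, card_SDdeg_zero]

theorem psi_eq (hF : StarNontrivial F) {q : ℕ} (hq : Nat.card F = q ^ 2) :
    ∀ n : ℕ, 1 ≤ n → (∑ d ∈ n.divisors, (d : ℝ) * (Tc F d : ℝ)) = (q : ℝ) ^ n - (-1) ^ n := by
  apply solve_rec
  intro n hn
  obtain ⟨m, rfl⟩ : ∃ m, n = m + 1 := ⟨n - 1, by omega⟩
  have h1 := n_mul_M (F := F) (m + 1)
  rw [Finset.sum_Icc_succ_top (by omega), Nat.sub_self, card_sdFin_zero, mul_one,
    card_sdFin_succ hF hq] at h1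
  have h2 := congrArg (fun x : ℕ => (x : ℝ)) h1
  simp only [Nat.cast_mul, Nat.cast_add, Nat.cast_one, Nat.cast_sum, Nat.cast_pow] at h2
  rw [Nat.add_sub_cancel]
  push_cast
  rw [h2, add_comm]
  congr 1
  apply Finset.sum_congr rfl
  intro k hk
  have := Finset.mem_Icc.mp hk
  congr 1
  obtain ⟨l, hl⟩ : ∃ l, m + 1 - k = l + 1 := ⟨m - k, by omega⟩
  rw [hl, card_sdFin_succ hF hq, Nat.add_sub_cancel]
  push_cast
  rfl

theorem Tc_eq (hF : StarNontrivial F) {q : ℕ} (hq : Nat.card F = q ^ 2) (n : ℕ) (hn : 1 ≤ n) :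
    (n : ℝ) * (Tc F n : ℝ) =
      ∑ x ∈ n.divisorsAntidiagonal, (ArithmeticFunction.moebius x.1 : ℝ) *
        ((q : ℝ) ^ x.2 - (-1) ^ x.2) := by
  have h := (ArithmeticFunction.sum_eq_iff_sum_mul_moebius_eq (R := ℝ)
    (f := fun d => (d : ℝ) * (Tc F d : ℝ)) (g := fun n => (q : ℝ) ^ n - (-1) ^ n)).mp
    (fun n hn => psi_eq hF hq n hn) n hn
  exact h.symm

end Tcount

end Pool.Agent.MP_0e403a_al
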