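import Mathlib
import Pool.Agent.MP_0e403a_al.Tcount

set_option autoImplicit false
set_option linter.unusedSectionVars false

namespace Pool.Agent.MP_0e403a_al

open scoped BigOperators Polynomial Topology
open Polynomial Filter

/-- The local weight in degree `d`. -/
noncomputable def wt (q : ℝ) (d : ℕ) : ℝ := (q ^ d)⁻¹ * ((-q) ^ d - 1)⁻¹

theorem wt_zero (q : ℝ) : wt q 0 = 0 := by simp [wt]

theorem abs_wt_le {q : ℝ} (hq : 2 ≤ q) (d : ℕ) : |wt q d| ≤ 2 * (q ^ d)⁻¹ * (q ^ d)⁻¹ := by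
  rcases Nat.eq_zero_or_pos d with rfl | hd
  · simp [wt_zero]
  have h1 : 2 ≤ q ^ d := by
    calc (2 : ℝ) = 2 ^ 1 := by norm_num
      _ ≤ 2 ^ d := pow_le_pow_right₀ (by norm_num) hd
      _ ≤ q ^ d := pow_le_pow_left₀ (by norm_num) hq d
  have h2 : q ^ d / 2 ≤ |(-q) ^ d - 1| := by
    have h3 : |(-q) ^ d| = q ^ d := by
      rw [abs_pow, abs_neg, abs_of_nonneg (by linarith)]
    have h4 : |(-q) ^ d| - |(1 : ℝ)| ≤ |(-q) ^ d - 1| := abs_sub_abs_le_abs_sub _ _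
    rw [h3, abs_one] at h4
    linarith
  have hpos : 0 < q ^ d := by linarith
  rw [wt, abs_mul, abs_inv, abs_inv, abs_of_pos hpos]
  have h5 : |(-q) ^ d - 1|⁻¹ ≤ 2 * (q ^ d)⁻¹ := by
    have h6 : |(-q) ^ d - 1|⁻¹ ≤ (q ^ d / 2)⁻¹ := inv_anti₀ (by linarith) h2
    calc |(-q) ^ d - 1|⁻¹ ≤ (q ^ d / 2)⁻¹ := h6
      _ = 2 * (q ^ d)⁻¹ := by rw [inv_div]; ring
  calc (q ^ d)⁻¹ * |(-q) ^ d - 1|⁻¹ ≤ (q ^ d)⁻¹ * (2 * (q ^ d)⁻¹) :=
        mul_le_mul_of_nonneg_left h5 (inv_nonneg.mpr hpos.le)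
    _ = 2 * (q ^ d)⁻¹ * (q ^ d)⁻¹ := by ring

theorem abs_wt_le_half {q : ℝ} (hq : 2 ≤ q) (d : ℕ) : |wt q d| ≤ 1 / 2 := by
  rcases Nat.eq_zero_or_pos d with rfl | hd
  · simp [wt_zero]
  have h1 : 2 ≤ q ^ d := by
    calc (2 : ℝ) = 2 ^ 1 := by norm_num
      _ ≤ 2 ^ d := pow_le_pow_right₀ (by norm_num) hd
      _ ≤ q ^ d := pow_le_pow_left₀ (by norm_num) hq d
  have h2 : (q ^ d)⁻¹ ≤ 1 / 2 := by
    rw [one_div]; exact inv_anti₀ (by norm_num) h1
  have h3 : 0 ≤ (q ^ d)⁻¹ := inv_nonneg.mpr (by linarith)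
  calc |wt q d| ≤ 2 * (q ^ d)⁻¹ * (q ^ d)⁻¹ := abs_wt_le hq d
    _ ≤ 1 / 2 := by nlinarith

section Mean

variable {F : Type*} [Field F] [StarRing F] [Finite F]

open Classical in
/-- The weight of a polynomial, supported on the primes. -/
noncomputable def bw (q : ℝ) (P : F[X]) : ℝ := if IsPr P then wt q P.natDegree else 0

theorem Tc_le (hF : StarNontrivial F) {q : ℕ} (hq : Nat.card F = q ^ 2) (hq2 : 2 ≤ q) (d : ℕ) :
    (Tc F d : ℝ) ≤ 2 * (q : ℝ) ^ d := by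
  classical
  have h1 : Tc F d ≤ (sdFin F d).card := by
    apply Finset.card_le_card
    intro P hP
    obtain ⟨h2, h3⟩ := Finset.mem_filter.mp hP
    exact mem_sdFin.mpr ⟨(mem_prs.mp h2).1.SD, h3⟩
  have h2 : (sdFin F d).card ≤ 2 * q ^ d := by
    cases d with
    | zero => rw [card_sdFin_zero]; norm_num
    | succ m =>
      rw [card_sdFin_succ hF hq, pow_succ']
      calc (q + 1) * q ^ m ≤ (2 * q) * q ^ m := Nat.mul_le_mul_right _ (by omega)
        _ = 2 * (q * q ^ m) := by ring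
  exact_mod_cast h1.trans h2

theorem Tc_mul_wt_le (hF : StarNontrivial F) {q : ℕ} (hq : Nat.card F = q ^ 2) (hq2 : 2 ≤ q)
    (d : ℕ) : (Tc F d : ℝ) * |wt q d| ≤ 4 * (1 / 2) ^ d := by
  have hq2' : (2 : ℝ) ≤ q := by exact_mod_cast hq2
  have hpos : 0 < (q : ℝ) ^ d := by positivity
  calc (Tc F d : ℝ) * |wt q d| ≤ (2 * (q : ℝ) ^ d) * (2 * ((q : ℝ) ^ d)⁻¹ * ((q : ℝ) ^ d)⁻¹) :=
        mul_le_mul (Tc_le hF hq hq2 d) (abs_wt_le hq2' d) (abs_nonneg _) (by positivity)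
    _ = 4 * ((q : ℝ) ^ d)⁻¹ := by field_simp; norm_num
    _ ≤ 4 * (1 / 2) ^ d := by
        apply mul_le_mul_of_nonneg_left _ (by norm_num)
        rw [← inv_pow]
        apply pow_le_pow_left₀ (by positivity)
        rw [one_div]
        exact inv_anti₀ (by norm_num) hq2'

theorem summable_bw (hF : StarNontrivial F) {q : ℕ} (hq : Nat.card F = q ^ 2) (hq2 : 2 ≤ q) :
    Summable (fun P : F[X] => |bw q P|) := by
  classical
  apply summable_of_sum_le (c := 8) (fun P => abs_nonneg _)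
  intro u
  set N := u.sup (fun P => P.natDegree) with hN
  have h1 : ∑ P ∈ u, |bw q P| ≤ ∑ P ∈ prs F N, |wt q P.natDegree| := by
    calc ∑ P ∈ u, |bw q P| = ∑ P ∈ u.filter (fun P => IsPr P), |wt q P.natDegree| := by
          rw [Finset.sum_filter]
          apply Finset.sum_congr rfl
          intro P _
          unfold bw
          split_ifs
          · rfl
          · simp
      _ ≤ ∑ P ∈ prs F N, |wt q P.natDegree| := by
          apply Finset.sum_le_sum_of_subset_of_nonneg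
          · intro P hP
            obtain ⟨h2, h3⟩ := Finset.mem_filter.mp hP
            exact mem_prs.mpr ⟨h3, Finset.le_sup (f := fun P : F[X] => P.natDegree) h2⟩
          · intro _ _ _; exact abs_nonneg _
  have h2 : ∑ P ∈ prs F N, |wt q P.natDegree| = ∑ d ∈ Finset.range (N + 1),
      (Tc F d : ℝ) * |wt q d| := by
    rw [← Finset.sum_fiberwise_of_maps_to (g := fun P : F[X] => P.natDegree)
      (t := Finset.range (N + 1))]
    · apply Finset.sum_congr rfl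
      intro d hd
      have hd' : d ≤ N := Nat.lt_succ_iff.mp (Finset.mem_range.mp hd)
      rw [Finset.sum_congr rfl (fun P hP => by
        rw [(Finset.mem_filter.mp hP).2]), Finset.sum_const, nsmul_eq_mul, filter_prs hd']
      rfl
    · intro P hP
      exact Finset.mem_range.mpr (Nat.lt_succ_iff.mpr (mem_prs.mp hP).2)
  calc ∑ P ∈ u, |bw q P| ≤ _ := h1
    _ = _ := h2
    _ ≤ ∑ d ∈ Finset.range (N + 1), 4 * (1 / 2 : ℝ) ^ d :=
        Finset.sum_le_sum (fun d _ => Tc_mul_wt_le hF hq hq2 d)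
    _ = 4 * ∑ d ∈ Finset.range (N + 1), (1 / 2 : ℝ) ^ d := by rw [Finset.mul_sum]
    _ ≤ 4 * 2 := by
        apply mul_le_mul_of_nonneg_left _ (by norm_num)
        exact (summable_geometric_two.sum_le_tsum _ (fun _ _ => by positivity)).trans
          tsum_geometric_two.le
    _ = 8 := by norm_num

/-- Normalised number of self-dual polynomials of degree `n - D`. -/
noncomputable def mu (F : Type*) [Field F] [StarRing F] [Finite F] (q : ℝ) (n D : ℕ) : ℝ :=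
  if D ≤ n then (((sdFin F (n - D)).card : ℕ) : ℝ) * (q ^ (n - D))⁻¹ else 0

theorem sum_expand {q : ℕ} (hq2 : 2 ≤ q) (n : ℕ) :
    ((q : ℝ) ^ n)⁻¹ * ∑ f ∈ sdFin F n,
      ∏ P ∈ primesOf f, (1 - ((-(q : ℝ)) ^ P.natDegree)⁻¹)⁻¹ =
    ∑ t ∈ (prs F n).powerset, (∏ P ∈ t, bw q P) * mu F q n (∑ P ∈ t, P.natDegree) := by
  classical
  have hq2' : (2 : ℝ) ≤ q := by exact_mod_cast hq2
  have hq0 : (q : ℝ) ≠ 0 := by linarith
  have e1 : ∀ f ∈ sdFin F n, ∏ P ∈ primesOf f, (1 - ((-(q : ℝ)) ^ P.natDegree)⁻¹)⁻¹ =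
      ∑ t ∈ (prs F n).powerset, (if t ⊆ primesOf f then
        ∏ P ∈ t, (q : ℝ) ^ P.natDegree * bw q P else 0) := by
    intro f hf
    obtain ⟨hf1, hf2⟩ := mem_sdFin.mp hf
    have hf0 := hf1.monic.ne_zero
    have e2 : ∏ P ∈ primesOf f, (1 - ((-(q : ℝ)) ^ P.natDegree)⁻¹)⁻¹ =
        ∏ P ∈ primesOf f, (1 + (q : ℝ) ^ P.natDegree * bw q P) := by
      apply Finset.prod_congr rfl
      intro P hP
      have hPr := ((mem_primesOf hf0).mp hP).1
      have hd := hPr.natDegree_pos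
      rw [bw, if_pos hPr, wt]
      have h1 : (q : ℝ) ^ P.natDegree ≠ 0 := pow_ne_zero _ hq0
      have h2 : (-(q : ℝ)) ^ P.natDegree ≠ 0 := pow_ne_zero _ (neg_ne_zero.mpr hq0)
      have h3 : (-(q : ℝ)) ^ P.natDegree - 1 ≠ 0 := by
        intro h
        have h4 : |(-(q : ℝ)) ^ P.natDegree| = 1 := by
          rw [sub_eq_zero.mp h, abs_one]
        rw [abs_pow, abs_neg, abs_of_nonneg (by linarith)] at h4
        have h5 : 1 < (q : ℝ) ^ P.natDegree := one_lt_pow₀ (by linarith) hd.ne'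
        linarith
      generalize (-(q : ℝ)) ^ P.natDegree = x at h2 h3 ⊢
      rw [← mul_assoc, mul_inv_cancel₀ h1, one_mul]
      field_simp
      ring
    rw [e2, Finset.prod_one_add, ← Finset.sum_filter]
    apply Finset.sum_congr _ (fun _ _ => rfl)
    ext t
    simp only [Finset.mem_powerset, Finset.mem_filter]
    constructor
    · intro h
      refine ⟨fun P hP => ?_, h⟩
      obtain ⟨h1, h2⟩ := (mem_primesOf hf0).mp (h hP)
      exact mem_prs.mpr ⟨h1, hf2 ▸ natDegree_le_of_dvd h2 hf0⟩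
    · exact fun h => h.2
  rw [Finset.sum_congr rfl e1, Finset.sum_comm, Finset.mul_sum]
  apply Finset.sum_congr rfl
  intro t ht
  have hpr : ∀ P ∈ t, IsPr P := fun P hP => (mem_prs.mp (Finset.mem_powerset.mp ht hP)).1
  have hSD : SD (∏ P ∈ t, P) := SD.prod t (fun P => P) (fun P hP => (hpr P hP).SD)
  have hdeg : (∏ P ∈ t, P).natDegree = ∑ P ∈ t, P.natDegree :=
    natDegree_prod_of_monic _ _ (fun P hP => (hpr P hP).SD.monic)
  have h2 : ∀ f ∈ sdFin F n, (t ⊆ primesOf f ↔ (∏ P ∈ t, P) ∣ f) := by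
    intro f hf
    have hf0 := (mem_sdFin.mp hf).1.monic.ne_zero
    constructor
    · intro h
      exact prod_dvd_of_primes t hpr (fun P hP => ((mem_primesOf hf0).mp (h hP)).2)
    · intro h P hP
      exact (mem_primesOf hf0).mpr ⟨hpr P hP, (Finset.dvd_prod_of_mem _ hP).trans h⟩
  rw [← Finset.sum_filter, Finset.sum_const, Finset.filter_congr h2, card_multiples hSD, hdeg,
    nsmul_eq_mul, Finset.prod_mul_distrib, Finset.prod_pow_eq_pow_sum, mu]
  split_ifs with h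
  · have h3 : (q : ℝ) ^ n = (q : ℝ) ^ (n - ∑ P ∈ t, P.natDegree) * (q : ℝ) ^ (∑ P ∈ t, P.natDegree) := by
      rw [← pow_add]; congr 1; omega
    rw [h3]
    have h4 : (q : ℝ) ^ (∑ P ∈ t, P.natDegree) ≠ 0 := pow_ne_zero _ hq0
    have h5 : (q : ℝ) ^ (n - ∑ P ∈ t, P.natDegree) ≠ 0 := pow_ne_zero _ hq0
    field_simp
  · simp

theorem sum_eq_tsum (q : ℝ) (n : ℕ) :
    ∑ t ∈ (prs F n).powerset, (∏ P ∈ t, bw q P) * mu F q n (∑ P ∈ t, P.natDegree) =
    ∑' t : Finset F[X], (∏ P ∈ t, bw q P) * mu F q n (∑ P ∈ t, P.natDegree) := by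
  classical
  symm
  apply tsum_eq_sum
  intro t ht
  rw [Finset.mem_powerset, Finset.not_subset] at ht
  obtain ⟨P, hP, hP'⟩ := ht
  by_cases h : IsPr P
  · have h1 : ¬ P.natDegree ≤ n := fun h2 => hP' (mem_prs.mpr ⟨h, h2⟩)
    have h2 : ¬ (∑ P ∈ t, P.natDegree) ≤ n := fun h3 =>
      h1 ((Finset.single_le_sum (f := fun P : F[X] => P.natDegree)
        (fun _ _ => Nat.zero_le _) hP).trans h3)
    rw [mu, if_neg h2, mul_zero]
  · rw [Finset.prod_eq_zero hP (by rw [bw, if_neg h]), zero_mul]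

theorem mu_eventually (hF : StarNontrivial F) {q : ℕ} (hq : Nat.card F = q ^ 2) (hq2 : 2 ≤ q)
    {n D : ℕ} (h : D < n) : mu F q n D = 1 + (q : ℝ)⁻¹ := by
  obtain ⟨k, hk⟩ : ∃ k, n - D = k + 1 := ⟨n - D - 1, by omega⟩
  have hq0 : (q : ℝ) ≠ 0 := by
    have : 0 < q := by omega
    positivity
  rw [mu, if_pos h.le, hk, card_sdFin_succ hF hq]
  push_cast
  rw [pow_succ]
  field_simp

theorem mu_bound (hF : StarNontrivial F) {q : ℕ} (hq : Nat.card F = q ^ 2) (hq2 : 2 ≤ q)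
    (n D : ℕ) : |mu F q n D| ≤ 2 := by
  have hq2' : (2 : ℝ) ≤ q := by exact_mod_cast hq2
  rcases lt_trichotomy D n with h | h | h
  · rw [mu_eventually hF hq hq2 h]
    have h1 : (q : ℝ)⁻¹ ≤ 1 := inv_le_one_of_one_le₀ (by linarith)
    have h2 : 0 ≤ (q : ℝ)⁻¹ := by positivity
    rw [abs_of_nonneg (by linarith)]
    linarith
  · subst h
    rw [mu, if_pos le_rfl, Nat.sub_self, card_sdFin_zero]
    norm_num
  · rw [mu, if_neg (by omega)]
    norm_num

theorem tendsto_mean (hF : StarNontrivial F) {q : ℕ} (hq : Nat.card F = q ^ 2) (hq2 : 2 ≤ q) :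
    Tendsto (fun n : ℕ => ((q : ℝ) ^ n)⁻¹ * ∑ f ∈ sdFin F n,
      ∏ P ∈ primesOf f, (1 - ((-(q : ℝ)) ^ P.natDegree)⁻¹)⁻¹) atTop
      (𝓝 ((1 + (q : ℝ)⁻¹) * ∏' P : F[X], (1 + bw q P))) := by
  classical
  have hs := summable_bw (F := F) hF hq hq2
  have hs1 : Summable (fun t : Finset F[X] => ∏ P ∈ t, |bw q P|) :=
    summable_finsetProd_of_summable_nonneg (fun _ => abs_nonneg _) hs
  have hs2 : Summable (fun t : Finset F[X] => ∏ P ∈ t, bw q P) :=
    summable_finsetProd_of_summable_norm hs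
  rw [tprod_one_add hs2, ← tsum_mul_left]
  have e : (fun n : ℕ => ((q : ℝ) ^ n)⁻¹ * ∑ f ∈ sdFin F n,
      ∏ P ∈ primesOf f, (1 - ((-(q : ℝ)) ^ P.natDegree)⁻¹)⁻¹) = fun n : ℕ =>
      ∑' t : Finset F[X], (∏ P ∈ t, bw q P) * mu F q n (∑ P ∈ t, P.natDegree) := by
    funext n
    rw [sum_expand hq2, sum_eq_tsum]
  rw [e]
  apply tendsto_tsum_of_dominated_convergence (bound := fun t => (∏ P ∈ t, |bw q P|) * 2)
    (hs1.mul_right 2)
  · intro t
    apply tendsto_const_nhds.congr'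
    filter_upwards [eventually_gt_atTop (∑ P ∈ t, P.natDegree)] with n hn
    rw [mu_eventually hF hq hq2 hn, mul_comm]
  · filter_upwards with n t
    rw [norm_mul, Real.norm_eq_abs, Real.norm_eq_abs, Finset.abs_prod]
    exact mul_le_mul_of_nonneg_left (mu_bound hF hq hq2 _ _)
      (Finset.prod_nonneg (fun _ _ => abs_nonneg _))

end Mean

section Product

variable {F : Type*} [Field F] [StarRing F] [Finite F]

theorem one_add_bw_pos {q : ℕ} (hq2 : 2 ≤ q) (P : F[X]) : 0 < 1 + bw (q : ℝ) P := by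
  classical
  have hq2' : (2 : ℝ) ≤ q := by exact_mod_cast hq2
  unfold bw
  split_ifs
  · have := abs_wt_le_half hq2' P.natDegree
    have := (abs_le.mp this).1
    linarith
  · norm_num

theorem fiber_sum {q : ℕ} (d : ℕ) :
    ∑' P : ((fun P : F[X] => P.natDegree) ⁻¹' {d}), Real.log (1 + bw (q : ℝ) P.1) =
      (Tc F d : ℝ) * Real.log (1 + wt q d) := by
  classical
  rw [tsum_subtype ((fun P : F[X] => P.natDegree) ⁻¹' {d}) (fun P => Real.log (1 + bw (q : ℝ) P)),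
    tsum_eq_sum (s := (prs F d).filter (fun P => P.natDegree = d))]
  · have h1 : ∀ P ∈ (prs F d).filter (fun P => P.natDegree = d),
        ((fun P : F[X] => P.natDegree) ⁻¹' {d}).indicator
          (fun P => Real.log (1 + bw (q : ℝ) P)) P = Real.log (1 + wt q d) := by
      intro P hP
      obtain ⟨h1, h2⟩ := Finset.mem_filter.mp hP
      rw [Set.indicator_of_mem (by exact h2), bw, if_pos (mem_prs.mp h1).1, h2]
    rw [Finset.sum_congr rfl h1, Finset.sum_const, nsmul_eq_mul]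
    rfl
  · intro P hP
    by_cases h : P.natDegree = d
    · have h1 : ¬ IsPr P := fun h2 => hP (Finset.mem_filter.mpr ⟨mem_prs.mpr ⟨h2, h.le⟩, h⟩)
      rw [Set.indicator_of_mem (by exact h), bw, if_neg h1]
      simp
    · rw [Set.indicator_of_notMem (by exact h)]

theorem tprod_eq_exp (hF : StarNontrivial F) {q : ℕ} (hq : Nat.card F = q ^ 2) (hq2 : 2 ≤ q) :
    ∏' P : F[X], (1 + bw (q : ℝ) P) =
      Real.exp (∑' d : ℕ, (Tc F d : ℝ) * Real.log (1 + wt q d)) := by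
  have hs : Summable (fun P : F[X] => bw (q : ℝ) P) := (summable_bw hF hq hq2).of_abs
  have h1 : Summable (fun P : F[X] => Real.log (1 + bw (q : ℝ) P)) :=
    Real.summable_log_one_add_of_summable hs
  rw [← Real.rexp_tsum_eq_tprod (fun P => one_add_bw_pos hq2 P) h1]
  congr 1
  have h2 := h1.hasSum.tsum_fiberwise (fun P : F[X] => P.natDegree)
  rw [← h2.tsum_eq]
  apply tsum_congr
  intro d
  exact fiber_sum d

/-- The number of primes of degree `d`, as a function of `q`. -/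
noncomputable def Tq (q : ℝ) (d : ℕ) : ℝ :=
  (d : ℝ)⁻¹ * ∑ x ∈ d.divisorsAntidiagonal, (ArithmeticFunction.moebius x.1 : ℝ) *
    (q ^ x.2 - (-1) ^ x.2)

/-- The limiting proportion of cyclic elements, as a function of `q`. -/
noncomputable def climit (q : ℝ) : ℝ :=
  (1 + q⁻¹) * Real.exp (∑' d : ℕ, Tq q d * Real.log (1 + wt q d))

theorem Tc_eq_Tq (hF : StarNontrivial F) {q : ℕ} (hq : Nat.card F = q ^ 2) {d : ℕ} (hd : 1 ≤ d) :
    (Tc F d : ℝ) = Tq q d := by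
  have h1 := Tc_eq hF hq d hd
  have h2 : (d : ℝ) ≠ 0 := by positivity
  rw [Tq, ← h1, ← mul_assoc, inv_mul_cancel₀ h2, one_mul]

theorem tendsto_climit (hF : StarNontrivial F) {q : ℕ} (hq : Nat.card F = q ^ 2) (hq2 : 2 ≤ q) :
    Tendsto (fun n : ℕ => ((q : ℝ) ^ n)⁻¹ * ∑ f ∈ sdFin F n,
      ∏ P ∈ primesOf f, (1 - ((-(q : ℝ)) ^ P.natDegree)⁻¹)⁻¹) atTop (𝓝 (climit q)) := by
  have h1 := tendsto_mean hF hq hq2
  rw [tprod_eq_exp hF hq hq2] at h1
  have h2 : ∀ d : ℕ, (Tc F d : ℝ) * Real.log (1 + wt q d) = Tq q d * Real.log (1 + wt q d) := by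
    intro d
    rcases Nat.eq_zero_or_pos d with rfl | hd
    · simp [wt_zero]
    · rw [Tc_eq_Tq hF hq hd]
  rw [tsum_congr h2] at h1
  exact h1

end Product

end Pool.Agent.MP_0e403a_al
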