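import Mathlib
import Pool.Agent.MP_0e403a_al.Mean

set_option autoImplicit false
set_option linter.unusedSectionVars false

namespace Pool.Agent.MP_0e403a_al

open scoped BigOperators Topology
open Filter

/-- The entire-type factor of the logarithm. -/
noncomputable def Lc : ℂ → ℂ := dslope (fun z => Complex.log (1 + z)) 0

theorem mul_Lc (z : ℂ) : z * Lc z = Complex.log (1 + z) := by
  have := sub_smul_dslope (fun z => Complex.log (1 + z)) 0 z
  simpa [Lc] using this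

theorem Lc_zero : Lc 0 = 1 := by
  rw [Lc, dslope_same]
  have h : HasDerivAt (fun z : ℂ => 1 + z) 1 0 := (hasDerivAt_id (0 : ℂ)).const_add 1
  have h2 := h.clog (by simp)
  have h3 := h2.deriv
  simpa using h3

theorem norm_Lc_le {z : ℂ} (hz : ‖z‖ ≤ 1 / 2) : ‖Lc z‖ ≤ 2 := by
  rcases eq_or_ne z 0 with rfl | h
  · rw [Lc_zero]; norm_num
  · have h1 := Complex.norm_log_one_add_half_le_self hz
    rw [← mul_Lc, norm_mul] at h1
    have h2 : 0 < ‖z‖ := norm_pos_iff.mpr h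
    nlinarith

theorem differentiableOn_Lc : DifferentiableOn ℂ Lc (Metric.ball 0 1) := by
  rw [Lc, Complex.differentiableOn_dslope (Metric.ball_mem_nhds 0 one_pos)]
  intro z hz
  apply DifferentiableAt.differentiableWithinAt
  apply DifferentiableAt.clog
  · fun_prop
  · exact Complex.mem_slitPlane_of_norm_lt_one (by simpa using hz)

/-- The shift of one in the local factor. -/
noncomputable def zc (ε x : ℂ) : ℂ := ε * x ^ 2 / (1 - ε * x)

/-- The local logarithm divided by its variable. -/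
noncomputable def lamc (ε x : ℂ) : ℂ := ε * x / (1 - ε * x) * Lc (zc ε x)

theorem mul_lamc (ε x : ℂ) : x * lamc ε x = Complex.log (1 + zc ε x) := by
  rw [← mul_Lc, lamc, zc]; ring

theorem one_sub_norm_le {ε x : ℂ} (hε : ‖ε‖ = 1) : 1 - ‖x‖ ≤ ‖1 - ε * x‖ := by
  have h1 : ‖(1 : ℂ)‖ - ‖ε * x‖ ≤ ‖1 - ε * x‖ := norm_sub_norm_le _ _
  rwa [norm_one, norm_mul, hε, one_mul] at h1

theorem norm_zc_le {ε x : ℂ} (hε : ‖ε‖ = 1) (hx : ‖x‖ < 1) : ‖zc ε x‖ ≤ ‖x‖ ^ 2 / (1 - ‖x‖) := by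
  rw [zc, norm_div, norm_mul, hε, one_mul, norm_pow]
  exact div_le_div_of_nonneg_left (by positivity) (by linarith) (one_sub_norm_le hε)

theorem differentiableAt_lamc {ε x : ℂ} (hε : ‖ε‖ = 1) (hx : ‖x‖ ^ 2 + ‖x‖ < 1) :
    DifferentiableAt ℂ (lamc ε) x := by
  have hx1 : ‖x‖ < 1 := by nlinarith [norm_nonneg x]
  have h1 : 1 - ε * x ≠ 0 := by
    intro h
    have h2 := one_sub_norm_le (ε := ε) (x := x) hε
    rw [h, norm_zero] at h2
    linarith
  have h2 : ‖zc ε x‖ < 1 := by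
    apply (norm_zc_le hε hx1).trans_lt
    rw [div_lt_one (by linarith)]
    linarith
  have h3 : DifferentiableAt ℂ Lc (zc ε x) :=
    differentiableOn_Lc.differentiableAt (Metric.isOpen_ball.mem_nhds (by simpa using h2))
  have h4 : DifferentiableAt ℂ (zc ε) x := by
    unfold zc
    apply DifferentiableAt.div
    · fun_prop
    · fun_prop
    · exact h1
  have h5 : DifferentiableAt ℂ (fun x => ε * x / (1 - ε * x)) x := by
    apply DifferentiableAt.div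
    · fun_prop
    · fun_prop
    · exact h1
  unfold lamc
  exact h5.mul (h3.comp x h4)

theorem norm_lamc_le {ε x : ℂ} (hε : ‖ε‖ = 1) (hx : ‖x‖ ≤ 1 / 2) : ‖lamc ε x‖ ≤ 4 * ‖x‖ := by
  have h1 := one_sub_norm_le (ε := ε) (x := x) hε
  have h0 := norm_nonneg x
  have h2 : ‖zc ε x‖ ≤ 1 / 2 := by
    apply (norm_zc_le hε (by linarith)).trans
    rw [div_le_iff₀ (by linarith)]
    nlinarith
  have h3 := norm_Lc_le h2
  have h4 : ‖ε * x / (1 - ε * x)‖ ≤ 2 * ‖x‖ := by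
    rw [norm_div, norm_mul, hε, one_mul, div_le_iff₀ (by linarith)]
    nlinarith
  rw [lamc, norm_mul]
  calc ‖ε * x / (1 - ε * x)‖ * ‖Lc (zc ε x)‖ ≤ (2 * ‖x‖) * 2 :=
        mul_le_mul h4 h3 (norm_nonneg _) (by positivity)
    _ = 4 * ‖x‖ := by ring

/-- The normalised number of primes as a polynomial in `t`. -/
noncomputable def tauc (d : ℕ) (t : ℂ) : ℂ :=
  (d : ℂ)⁻¹ * ∑ x ∈ d.divisorsAntidiagonal, (ArithmeticFunction.moebius x.1 : ℂ) *
    (t ^ (d - x.2) - (-1) ^ x.2 * t ^ d)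

theorem norm_moebius_le (n : ℕ) : ‖(ArithmeticFunction.moebius n : ℂ)‖ ≤ 1 := by
  rw [Complex.norm_intCast]
  have := ArithmeticFunction.abs_moebius_le_one (n := n)
  exact_mod_cast this

theorem norm_tauc_le (d : ℕ) {t : ℂ} (ht : ‖t‖ ≤ 1) : ‖tauc d t‖ ≤ 2 := by
  rcases Nat.eq_zero_or_pos d with rfl | hd
  · simp [tauc]
  rw [tauc, norm_mul, norm_inv, Complex.norm_natCast]
  have h1 : ‖∑ x ∈ d.divisorsAntidiagonal, (ArithmeticFunction.moebius x.1 : ℂ) *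
      (t ^ (d - x.2) - (-1) ^ x.2 * t ^ d)‖ ≤ d * 2 := by
    calc ‖∑ x ∈ d.divisorsAntidiagonal, (ArithmeticFunction.moebius x.1 : ℂ) *
        (t ^ (d - x.2) - (-1) ^ x.2 * t ^ d)‖ ≤ ∑ x ∈ d.divisorsAntidiagonal, (2 : ℝ) := by
          apply norm_sum_le_of_le
          intro x _
          rw [norm_mul]
          have h2 : ‖t ^ (d - x.2) - (-1) ^ x.2 * t ^ d‖ ≤ 2 := by
            apply (norm_sub_le _ _).trans
            rw [norm_mul, norm_pow, norm_pow, norm_pow, norm_neg, norm_one, one_pow, one_mul]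
            have h3 := pow_le_one₀ (n := d - x.2) (norm_nonneg t) ht
            have h4 := pow_le_one₀ (n := d) (norm_nonneg t) ht
            linarith
          calc ‖(ArithmeticFunction.moebius x.1 : ℂ)‖ * ‖t ^ (d - x.2) - (-1) ^ x.2 * t ^ d‖ ≤
              1 * 2 := mul_le_mul (norm_moebius_le _) h2 (norm_nonneg _) (by norm_num)
            _ = 2 := by norm_num
      _ = (d.divisorsAntidiagonal.card : ℝ) * 2 := by
          rw [Finset.sum_const, nsmul_eq_mul]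
      _ ≤ d * 2 := by
          have h5 : d.divisorsAntidiagonal.card ≤ d := by
            rw [← Nat.map_div_right_divisors, Finset.card_map]
            exact Nat.card_divisors_le_self d
          have h6 : (d.divisorsAntidiagonal.card : ℝ) ≤ d := by exact_mod_cast h5
          linarith
  have h7 : (0 : ℝ) < d := by positivity
  rw [inv_mul_le_iff₀ h7]
  exact h1

theorem norm_neg_one_pow (d : ℕ) : ‖((-1 : ℂ)) ^ d‖ = 1 := by
  rw [norm_pow, norm_neg, norm_one, one_pow]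

theorem term_bound (d : ℕ) {t : ℂ} (ht : ‖t‖ < 7 / 10) :
    ‖tauc (d + 2) t * lamc ((-1) ^ (d + 2)) (t ^ (d + 2))‖ ≤ 8 * (7 / 10 : ℝ) ^ d := by
  have h1 : ‖t ^ (d + 2)‖ ≤ (49 / 100) * (7 / 10 : ℝ) ^ d := by
    rw [norm_pow]
    calc ‖t‖ ^ (d + 2) ≤ (7 / 10 : ℝ) ^ (d + 2) := pow_le_pow_left₀ (norm_nonneg _) ht.le _
      _ = (49 / 100) * (7 / 10 : ℝ) ^ d := by rw [pow_add]; ring
  have h2 : (7 / 10 : ℝ) ^ d ≤ 1 := pow_le_one₀ (by norm_num) (by norm_num)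
  have h3 : 0 ≤ (7 / 10 : ℝ) ^ d := by positivity
  have h4 := norm_lamc_le (norm_neg_one_pow (d + 2)) (x := t ^ (d + 2)) (by linarith)
  rw [norm_mul]
  calc ‖tauc (d + 2) t‖ * ‖lamc ((-1) ^ (d + 2)) (t ^ (d + 2))‖ ≤
      2 * (4 * ((49 / 100) * (7 / 10 : ℝ) ^ d)) :=
        mul_le_mul (norm_tauc_le _ (by linarith)) (h4.trans (by linarith)) (norm_nonneg _)
          (by norm_num)
    _ ≤ 8 * (7 / 10 : ℝ) ^ d := by nlinarith

/-- The tail sum. -/
noncomputable def Sc (t : ℂ) : ℂ := ∑' d : ℕ, tauc (d + 2) t * lamc ((-1) ^ (d + 2)) (t ^ (d + 2))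

theorem summable_terms {t : ℂ} (ht : ‖t‖ < 7 / 10) :
    Summable (fun d : ℕ => tauc (d + 2) t * lamc ((-1) ^ (d + 2)) (t ^ (d + 2))) := by
  apply Summable.of_norm_bounded (g := fun d : ℕ => 8 * (7 / 10 : ℝ) ^ d)
  · exact (summable_geometric_of_lt_one (by norm_num) (by norm_num)).mul_left 8
  · intro d; exact term_bound d ht

theorem differentiableOn_Sc : DifferentiableOn ℂ Sc (Metric.ball 0 (7 / 10)) := by
  apply Complex.differentiableOn_tsum_of_summable_norm (u := fun d : ℕ => 8 * (7 / 10 : ℝ) ^ d)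
  · exact (summable_geometric_of_lt_one (by norm_num) (by norm_num)).mul_left 8
  · intro d t ht
    have ht' : ‖t‖ < 7 / 10 := by simpa using ht
    apply DifferentiableAt.differentiableWithinAt
    have h1 : ‖t ^ (d + 2)‖ ≤ 1 / 2 := by
      rw [norm_pow]
      calc ‖t‖ ^ (d + 2) ≤ (7 / 10 : ℝ) ^ (d + 2) := pow_le_pow_left₀ (norm_nonneg _) ht'.le _
        _ ≤ (7 / 10 : ℝ) ^ 2 := pow_le_pow_of_le_one (by norm_num) (by norm_num) (by omega)
        _ ≤ 1 / 2 := by norm_num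
    apply DifferentiableAt.mul
    · unfold tauc; fun_prop
    · have h2 : DifferentiableAt ℂ (lamc ((-1) ^ (d + 2))) (t ^ (d + 2)) := by
        apply differentiableAt_lamc (norm_neg_one_pow _)
        nlinarith [norm_nonneg (t ^ (d + 2))]
      have h3 : DifferentiableAt ℂ (fun t : ℂ => t ^ (d + 2)) t := by fun_prop
      exact h2.comp t h3
  · exact Metric.isOpen_ball
  · intro d t ht
    exact term_bound d (by simpa using ht)

/-- The limiting proportion as an analytic function of `t = 1 / q`. -/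
noncomputable def Fc (t : ℂ) : ℂ :=
  (1 + t) * Complex.exp ((1 + t) * lamc (-1) t) * Complex.exp (Sc t)

section Values

theorem zc_eq_wt {q : ℝ} (hq : 2 ≤ q) {d : ℕ} (hd : 1 ≤ d) :
    zc ((-1) ^ d) (((q : ℂ)⁻¹) ^ d) = ((wt q d : ℝ) : ℂ) := by
  have hq0 : (q : ℂ) ≠ 0 := by
    have : q ≠ 0 := by linarith
    exact_mod_cast this
  have h1 : (q : ℂ) ^ d ≠ 0 := pow_ne_zero _ hq0
  have hwt : ((wt q d : ℝ) : ℂ) = ((q : ℂ) ^ d)⁻¹ * ((-(q : ℂ)) ^ d - 1)⁻¹ := by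
    rw [wt]; push_cast; rfl
  have h2 : (-(q : ℂ)) ^ d = (-1) ^ d * (q : ℂ) ^ d := by rw [← mul_pow]; congr 1; ring
  have h3 : ((-1 : ℂ) ^ d) * ((-1 : ℂ) ^ d) = 1 := by rw [← mul_pow]; simp
  have h4 : (-(q : ℂ)) ^ d - 1 ≠ 0 := by
    intro h
    have h5 : ((-q) ^ d - 1 : ℝ) = 0 := by exact_mod_cast h
    have h6 : |(-q) ^ d| = 1 := by rw [sub_eq_zero.mp h5, abs_one]
    rw [abs_pow, abs_neg, abs_of_nonneg (by linarith)] at h6
    have h7 : 1 < q ^ d := one_lt_pow₀ (by linarith) (by omega)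
    linarith
  rw [hwt, zc, inv_pow]
  rw [h2] at h4 ⊢
  generalize (q : ℂ) ^ d = Q at h1 h4 ⊢
  generalize ((-1 : ℂ) ^ d) = ε at h3 h4 ⊢
  have h5 : 1 - ε * Q⁻¹ ≠ 0 := by
    intro h
    apply h4
    have h6 : ε * Q⁻¹ = 1 := (sub_eq_zero.mp h).symm
    have h7 : Q = ε := by
      field_simp at h6
      exact h6.symm
    rw [h7, h3, sub_self]
  have h6 : Q - ε ≠ 0 := by
    intro h
    apply h5
    rw [sub_eq_zero.mp h] at h1 ⊢
    rw [mul_inv_cancel₀ h1, sub_self]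
  have e1 : 1 - ε * Q⁻¹ = (Q - ε) * Q⁻¹ := by
    rw [sub_mul, mul_inv_cancel₀ h1]
  have e2 : ε * Q - 1 = ε * (Q - ε) := by
    rw [mul_sub, h3]
  have hε : ε ≠ 0 := by
    intro h
    rw [h, zero_mul] at h3
    exact zero_ne_one h3
  rw [e1, e2]
  field_simp
  rw [sq, h3]

theorem tauc_eq {q : ℝ} (hq : 2 ≤ q) {d : ℕ} (hd : 1 ≤ d) :
    tauc d ((q : ℂ)⁻¹) = ((q : ℂ)⁻¹) ^ d * ((Tq q d : ℝ) : ℂ) := by
  have hq0 : (q : ℂ) ≠ 0 := by
    have : q ≠ 0 := by linarith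
    exact_mod_cast this
  rw [tauc, Tq]
  push_cast
  rw [mul_left_comm, Finset.mul_sum, Finset.mul_sum]
  rw [Finset.mul_sum]
  apply Finset.sum_congr rfl
  intro x hx
  obtain ⟨h1, h2⟩ := Nat.mem_divisorsAntidiagonal.mp hx
  have h3 : x.2 ≤ d := Nat.le_of_dvd (by omega) (Dvd.intro_left _ h1)
  have h4 : ((q : ℂ)⁻¹) ^ d * (q : ℂ) ^ x.2 = ((q : ℂ)⁻¹) ^ (d - x.2) := by
    have h5 : ((q : ℂ)⁻¹) ^ d = ((q : ℂ)⁻¹) ^ (d - x.2) * ((q : ℂ)⁻¹) ^ x.2 := by
      rw [← pow_add]; congr 1; omega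
    rw [h5, mul_assoc, ← mul_pow, inv_mul_cancel₀ hq0, one_pow, mul_one]
  rw [← h4]
  ring

theorem one_add_wt_pos {q : ℝ} (hq : 2 ≤ q) (d : ℕ) : 0 < 1 + wt q d := by
  have := abs_wt_le_half hq d
  have := (abs_le.mp this).1
  linarith

theorem term_eq {q : ℝ} (hq : 2 ≤ q) {d : ℕ} (hd : 1 ≤ d) :
    tauc d ((q : ℂ)⁻¹) * lamc ((-1) ^ d) (((q : ℂ)⁻¹) ^ d) =
      ((Tq q d * Real.log (1 + wt q d) : ℝ) : ℂ) := by
  rw [tauc_eq hq hd, mul_comm (((q : ℂ)⁻¹) ^ d), mul_assoc, mul_lamc, zc_eq_wt hq hd]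
  push_cast
  rw [← Complex.ofReal_one, ← Complex.ofReal_add, ← Complex.ofReal_log (one_add_wt_pos hq d).le]

theorem Fc_inv {q : ℝ} (hq : 2 ≤ q) : Fc ((q : ℂ)⁻¹) = ((climit q : ℝ) : ℂ) := by
  have hq0 : q ≠ 0 := by linarith
  have hq0' : (q : ℂ) ≠ 0 := by exact_mod_cast hq0
  have hn : ‖(q : ℂ)⁻¹‖ < 7 / 10 := by
    rw [norm_inv, Complex.norm_real, Real.norm_eq_abs, abs_of_nonneg (by linarith)]
    have : q⁻¹ ≤ 2⁻¹ := inv_anti₀ (by norm_num) hq
    norm_num at this ⊢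
    linarith
  have hs := summable_terms hn
  have hterm : ∀ d : ℕ, tauc (d + 2) ((q : ℂ)⁻¹) *
      lamc ((-1) ^ (d + 2)) (((q : ℂ)⁻¹) ^ (d + 2)) =
      ((Tq q (d + 2) * Real.log (1 + wt q (d + 2)) : ℝ) : ℂ) := fun d => term_eq hq (by omega)
  have hs2 : Summable (fun d : ℕ => Tq q (d + 2) * Real.log (1 + wt q (d + 2))) := by
    rw [← Complex.summable_ofReal]
    exact hs.congr (fun d => hterm d)
  have hs3 : Summable (fun d : ℕ => Tq q d * Real.log (1 + wt q d)) := (summable_nat_add_iff 2).mp hs2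
  have h1 : ∑' d : ℕ, Tq q d * Real.log (1 + wt q d) =
      Tq q 1 * Real.log (1 + wt q 1) + ∑' d : ℕ, Tq q (d + 2) * Real.log (1 + wt q (d + 2)) := by
    rw [← hs3.sum_add_tsum_nat_add 2, Finset.sum_range_succ, Finset.sum_range_one]
    simp [wt_zero]
  have h2 : Sc ((q : ℂ)⁻¹) =
      ((∑' d : ℕ, Tq q (d + 2) * Real.log (1 + wt q (d + 2)) : ℝ) : ℂ) := by
    rw [Complex.ofReal_tsum, Sc]
    exact tsum_congr hterm
  have h3 : (1 + (q : ℂ)⁻¹) * lamc (-1) ((q : ℂ)⁻¹) =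
      ((Tq q 1 * Real.log (1 + wt q 1) : ℝ) : ℂ) := by
    have h4 := term_eq hq (le_refl 1)
    rw [pow_one, pow_one] at h4
    rw [← h4]
    congr 1
    simp [tauc]
  rw [Fc, h2, h3, climit, h1, mul_assoc, ← Complex.exp_add, ← Complex.ofReal_add]
  push_cast
  rfl

end Values

end Pool.Agent.MP_0e403a_al
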