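import Mathlib
import Pool.Agent.MP_0e403a_al.Series

set_option autoImplicit false
set_option linter.unusedSectionVars false

namespace Pool.Agent.MP_0e403a_al

open scoped BigOperators Topology Polynomial
open Filter Polynomial

/-- The negative golden conjugate, the location of the dominant singularity. -/
noncomputable def psi : ℝ := Real.goldenConj

theorem psi_sq : psi ^ 2 = psi + 1 := Real.goldenConj_sq

theorem psi_neg : psi < 0 := Real.goldenConj_neg

theorem neg_psi_lt : -psi < 7 / 10 := by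
  have h := psi_sq
  have h1 := psi_neg
  nlinarith

theorem psi_gt : -(7 / 10 : ℝ) < psi := by
  have := neg_psi_lt
  linarith

theorem ball_bound {t : ℂ} (ht : ‖t‖ < -psi) : ‖t‖ ^ 2 + ‖t‖ < 1 := by
  have h1 := psi_sq
  have h2 := norm_nonneg t
  have h3 := psi_neg
  nlinarith

theorem norm_neg_one_c : ‖(-1 : ℂ)‖ = 1 := by rw [norm_neg, norm_one]

theorem differentiableOn_Fc : DifferentiableOn ℂ Fc (Metric.ball 0 (-psi)) := by
  intro t ht
  have ht' : ‖t‖ < -psi := by simpa using ht
  have h1 : DifferentiableAt ℂ (lamc (-1)) t := differentiableAt_lamc norm_neg_one_c (ball_bound ht')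
  have h2 : DifferentiableAt ℂ Sc t := by
    apply differentiableOn_Sc.differentiableAt
    apply Metric.isOpen_ball.mem_nhds
    have := neg_psi_lt
    simp only [Metric.mem_ball, dist_zero_right]
    linarith
  apply DifferentiableAt.differentiableWithinAt
  have e1 : DifferentiableAt ℂ (fun t : ℂ => 1 + t) t := by fun_prop
  unfold Fc
  exact (e1.mul (e1.mul h1).cexp).mul h2.cexp

theorem factor (t : ℝ) : 1 + t - t ^ 2 = (t - psi) * ((1 - psi) - t) := by
  have := psi_sq
  linear_combination -this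

theorem log_norm_Fc {t : ℝ} (h1 : psi < t) (h2 : t < 0) :
    Fc t ≠ 0 ∧ Real.log ‖Fc t‖ = ((1 + t) / t) * Real.log (t - psi) +
      (Real.log (1 + t) + ((1 + t) / t) * (Real.log ((1 - psi) - t) - Real.log (1 + t)) +
        (Sc t).re) := by
  have hp := psi_gt
  have hpos : 0 < 1 + t := by linarith
  have hpos2 : 0 < (1 - psi) - t := by have := psi_neg; linarith
  have hpos3 : 0 < t - psi := by linarith
  have ht0 : (t : ℂ) ≠ 0 := by
    have : t ≠ 0 := h2.ne
    exact_mod_cast this
  have hz : 1 + zc (-1) t = ((((t - psi) * ((1 - psi) - t)) / (1 + t) : ℝ) : ℂ) := by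
    rw [← factor, zc]
    have h3 : (1 : ℂ) + t ≠ 0 := by
      have : (1 : ℝ) + t ≠ 0 := hpos.ne'
      exact_mod_cast this
    push_cast
    have h4 : (1 : ℂ) - -1 * t = 1 + t := by ring
    rw [h4]
    field_simp
    ring
  have hl : lamc (-1) t = ((t⁻¹ * Real.log (((t - psi) * ((1 - psi) - t)) / (1 + t)) : ℝ) : ℂ) := by
    have h3 := mul_lamc (-1) (t : ℂ)
    rw [hz, ← Complex.ofReal_log (by positivity)] at h3
    push_cast at h3 ⊢
    rw [← h3, ← mul_assoc, inv_mul_cancel₀ ht0, one_mul]
  have hF : Fc t ≠ 0 := by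
    rw [Fc]
    have h3 : (1 : ℂ) + t ≠ 0 := by
      have : (1 : ℝ) + t ≠ 0 := hpos.ne'
      exact_mod_cast this
    exact mul_ne_zero (mul_ne_zero h3 (Complex.exp_ne_zero _)) (Complex.exp_ne_zero _)
  refine ⟨hF, ?_⟩
  have h5 : (1 + (t : ℂ)) * lamc (-1) t =
      (((1 + t) * (t⁻¹ * Real.log (((t - psi) * ((1 - psi) - t)) / (1 + t))) : ℝ) : ℂ) := by
    rw [hl]; push_cast; ring
  have h6 : ‖(1 : ℂ) + t‖ = 1 + t := by
    rw [← Complex.ofReal_one, ← Complex.ofReal_add, Complex.norm_real, Real.norm_eq_abs,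
      abs_of_pos hpos]
  rw [Fc, norm_mul, norm_mul, Complex.norm_exp, Complex.norm_exp, h5, Complex.ofReal_re, h6,
    Real.log_mul (by positivity) (by positivity), Real.log_mul (by positivity) (by positivity),
    Real.log_exp, Real.log_exp, Real.log_div (by positivity) (by positivity),
    Real.log_mul (by positivity) (by positivity)]
  ring

theorem log_poly {D : ℝ[X]} (hD : D ≠ 0) : ∃ (a : ℕ) (D₁ : ℝ[X]), D₁.eval psi ≠ 0 ∧
    ∀ᶠ t in 𝓝[>] psi, D.eval t ≠ 0 ∧
      Real.log |D.eval t| = a * Real.log (t - psi) + Real.log |D₁.eval t| := by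
  obtain ⟨D₁, h1, h2⟩ := exists_eq_pow_rootMultiplicity_mul_and_not_dvd D hD psi
  have h3 : D₁.eval psi ≠ 0 := by
    intro h
    exact h2 (dvd_iff_isRoot.mpr h)
  refine ⟨rootMultiplicity psi D, D₁, h3, ?_⟩
  have h4 : ∀ᶠ t in 𝓝[>] psi, D₁.eval t ≠ 0 :=
    (D₁.continuous.continuousAt.eventually_ne h3).filter_mono nhdsWithin_le_nhds
  filter_upwards [h4, self_mem_nhdsWithin] with t ht1 ht2
  have ht3 : 0 < t - psi := sub_pos.mpr ht2
  have e : D.eval t = (t - psi) ^ (rootMultiplicity psi D) * D₁.eval t := by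
    conv_lhs => rw [h1]
    simp
  constructor
  · rw [e]
    exact mul_ne_zero (pow_ne_zero _ ht3.ne') ht1
  · rw [e, abs_mul, abs_pow, abs_of_pos ht3, Real.log_mul (pow_ne_zero _ ht3.ne')
      (abs_ne_zero.mpr ht1), Real.log_pow]

theorem no_alg {P D : ℝ[X]} (hD : D ≠ 0)
    (h : ∀ t : ℝ, psi < t → t < 0 → Fc t * ((D.eval t : ℝ) : ℂ) = ((P.eval t : ℝ) : ℂ)) :
    False := by
  have hlt : ∀ᶠ t in 𝓝[>] psi, t < 0 :=
    (eventually_lt_nhds psi_neg).filter_mono nhdsWithin_le_nhds
  have hgt : ∀ᶠ t in 𝓝[>] psi, psi < t := self_mem_nhdsWithin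
  obtain ⟨a, D₁, hD1, hD2⟩ := log_poly hD
  have hP : P ≠ 0 := by
    rintro rfl
    obtain ⟨t, h1, h2, h3⟩ := (hlt.and (hgt.and hD2)).exists
    have h4 := h t h2 h1
    rw [eval_zero, Complex.ofReal_zero] at h4
    rcases mul_eq_zero.mp h4 with h5 | h5
    · exact (log_norm_Fc h2 h1).1 h5
    · exact h3.1 (by exact_mod_cast h5)
  obtain ⟨b, P₁, hP1, hP2⟩ := log_poly hP
  set B : ℝ → ℝ := fun t => Real.log (1 + t) +
    ((1 + t) / t) * (Real.log ((1 - psi) - t) - Real.log (1 + t)) + (Sc t).re with hB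
  have hp0 : psi ≠ 0 := psi_neg.ne
  have hBc : ContinuousAt B psi := by
    have c1 : ContinuousAt (fun t : ℝ => Real.log (1 + t)) psi := by
      apply ContinuousAt.log (by fun_prop)
      have := psi_gt; linarith
    have c2 : ContinuousAt (fun t : ℝ => (1 + t) / t) psi := by
      exact ContinuousAt.div (f := fun t : ℝ => 1 + t) (g := fun t : ℝ => t) (by fun_prop) (by fun_prop) hp0
    have c3 : ContinuousAt (fun t : ℝ => Real.log ((1 - psi) - t)) psi := by
      apply ContinuousAt.log (by fun_prop)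
      have := psi_neg; linarith
    have c4 : ContinuousAt (fun t : ℝ => (Sc t).re) psi := by
      have h1 : DifferentiableAt ℂ Sc ((psi : ℝ) : ℂ) := by
        apply differentiableOn_Sc.differentiableAt
        apply Metric.isOpen_ball.mem_nhds
        simp only [Metric.mem_ball, dist_zero_right, Complex.norm_real, Real.norm_eq_abs]
        rw [abs_of_neg psi_neg]
        exact neg_psi_lt
      have h2 : ContinuousAt (fun t : ℝ => Sc (t : ℂ)) psi :=
        ContinuousAt.comp (f := fun t : ℝ => (t : ℂ)) h1.continuousAt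
          Complex.continuous_ofReal.continuousAt
      exact Complex.continuous_re.continuousAt.comp h2
    exact (c1.add (c2.mul (c3.sub c1))).add c4
  have hl : Tendsto (fun t : ℝ => Real.log (t - psi)) (𝓝[>] psi) atBot := by
    apply Real.tendsto_log_nhdsGT_zero.comp
    rw [tendsto_nhdsWithin_iff]
    constructor
    · have : Tendsto (fun t : ℝ => t - psi) (𝓝 psi) (𝓝 (psi - psi)) := by
        apply Continuous.tendsto; fun_prop
      rw [sub_self] at this
      exact this.mono_left nhdsWithin_le_nhds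
    · filter_upwards [self_mem_nhdsWithin] with t ht
      have ht2 : psi < t := ht
      exact sub_pos.mpr ht2
  set G : ℝ → ℝ := fun t => Real.log |P₁.eval t| - Real.log |D₁.eval t| - B t with hG
  have hGc : Tendsto G (𝓝[>] psi) (𝓝 (G psi)) := by
    have c1 : ContinuousAt (fun t : ℝ => Real.log |P₁.eval t|) psi := by
      apply ContinuousAt.log
      · exact P₁.continuous.continuousAt.abs
      · exact abs_ne_zero.mpr hP1
    have c2 : ContinuousAt (fun t : ℝ => Real.log |D₁.eval t|) psi := by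
      apply ContinuousAt.log
      · exact D₁.continuous.continuousAt.abs
      · exact abs_ne_zero.mpr hD1
    have : ContinuousAt G psi := (c1.sub c2).sub hBc
    exact this.tendsto.mono_left nhdsWithin_le_nhds
  have hlim1 : Tendsto (fun t => G t * (Real.log (t - psi))⁻¹) (𝓝[>] psi) (𝓝 0) := by
    have := hGc.mul (tendsto_inv_atBot_zero.comp hl)
    simpa using this
  have hlim2 : Tendsto (fun t : ℝ => (1 + t) / t + a - b) (𝓝[>] psi) (𝓝 ((1 + psi) / psi + a - b)) := by
    have : ContinuousAt (fun t : ℝ => (1 + t) / t + a - b) psi := by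
      apply ContinuousAt.sub _ continuousAt_const
      apply ContinuousAt.add _ continuousAt_const
      exact ContinuousAt.div (f := fun t : ℝ => 1 + t) (g := fun t : ℝ => t) (by fun_prop) (by fun_prop) hp0
    exact this.tendsto.mono_left nhdsWithin_le_nhds
  have heq : (fun t => G t * (Real.log (t - psi))⁻¹) =ᶠ[𝓝[>] psi]
      (fun t : ℝ => (1 + t) / t + a - b) := by
    filter_upwards [hlt, hgt, hD2, hP2, hl.eventually_lt_atBot 0] with t h1 h2 h3 h4 h5
    have h6 := log_norm_Fc h2 h1
    have h7 := congrArg norm (h t h2 h1)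
    rw [norm_mul, Complex.norm_real, Complex.norm_real, Real.norm_eq_abs, Real.norm_eq_abs] at h7
    have h8 := congrArg Real.log h7
    rw [Real.log_mul (norm_ne_zero_iff.mpr h6.1) (abs_ne_zero.mpr h3.1), h3.2, h4.2, h6.2] at h8
    rw [← div_eq_mul_inv, div_eq_iff h5.ne]
    simp only [hG, hB]
    linarith
  have hfin := tendsto_nhds_unique (hlim1.congr' heq) hlim2
  have h9 : (1 + psi) / psi = psi := by
    rw [div_eq_iff hp0, ← sq, psi_sq, add_comm]
  rw [h9] at hfin
  have hirr : Irrational psi := Real.goldenConj_irrational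
  apply hirr
  refine ⟨(b : ℚ) - (a : ℚ), ?_⟩
  push_cast
  linarith

/-- The limiting proportion agrees with a rational function at only finitely many integers. -/
theorem finite_agree {P D : ℝ[X]} (hD : D ≠ 0) :
    {q : ℕ | 2 ≤ q ∧ climit q * D.eval (q : ℝ) = P.eval (q : ℝ)}.Finite := by
  by_contra hinf
  have hinf' : {q : ℕ | 2 ≤ q ∧ climit q * D.eval (q : ℝ) = P.eval (q : ℝ)}.Infinite := hinf
  set D' : ℝ[X] := X ^ P.natDegree * D.reverse with hD'
  set P' : ℝ[X] := X ^ D.natDegree * P.reverse with hP'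
  have hD0 : D' ≠ 0 := mul_ne_zero (pow_ne_zero _ X_ne_zero) (by simpa using hD)
  have key : ∀ q : ℕ, 2 ≤ q → climit q * D.eval (q : ℝ) = P.eval (q : ℝ) →
      climit q * D'.eval ((q : ℝ)⁻¹) = P'.eval ((q : ℝ)⁻¹) := by
    intro q hq h
    have hq0 : (q : ℝ) ≠ 0 := by
      have : 0 < q := by omega
      positivity
    have hrev : ∀ R : ℝ[X], R.reverse.eval ((q : ℝ)⁻¹) * (q : ℝ) ^ R.natDegree = R.eval (q : ℝ) := by
      intro R
      let _ : Invertible (q : ℝ) := invertibleOfNonzero hq0
      have := eval₂_reverse_mul_pow (RingHom.id ℝ) (q : ℝ) R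
      simpa [eval₂_id] using this
    have h1 := hrev D
    have h2 := hrev P
    rw [← h1, ← h2] at h
    rw [hD', hP', eval_mul, eval_mul, eval_pow, eval_pow, eval_X]
    have h3 : (q : ℝ) ^ D.natDegree ≠ 0 := pow_ne_zero _ hq0
    have h4 : (q : ℝ) ^ P.natDegree ≠ 0 := pow_ne_zero _ hq0
    rw [inv_pow, inv_pow]
    generalize D.reverse.eval ((q : ℝ)⁻¹) = u at h ⊢
    generalize P.reverse.eval ((q : ℝ)⁻¹) = w at h ⊢
    field_simp
    linarith
  have hfreq : ∃ᶠ z in 𝓝[≠] (0 : ℂ), Fc z * aeval z D' = aeval z P' := by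
    have h1 : ∃ᶠ q : ℕ in atTop, 2 ≤ q ∧ climit q * D.eval (q : ℝ) = P.eval (q : ℝ) :=
      Nat.frequently_atTop_iff_infinite.mpr hinf'
    have h2 : Tendsto (fun q : ℕ => ((q : ℂ))⁻¹) atTop (𝓝[≠] 0) := by
      rw [tendsto_nhdsWithin_iff]
      constructor
      · exact tendsto_inv_atTop_nhds_zero_nat
      · filter_upwards [eventually_ge_atTop 1] with q hq
        have : (q : ℂ) ≠ 0 := by
          have : q ≠ 0 := by omega
          exact_mod_cast this
        exact inv_ne_zero this
    apply h2.frequently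
    apply h1.mono
    rintro q ⟨hq, h⟩
    have h3 := key q hq h
    have h4 := Fc_inv (q := (q : ℝ)) (by exact_mod_cast hq)
    have h5 : ∀ R : ℝ[X], aeval ((q : ℂ)⁻¹) R = ((R.eval ((q : ℝ)⁻¹) : ℝ) : ℂ) := by
      intro R
      have := aeval_algebraMap_apply ℂ ((q : ℝ)⁻¹) R
      simpa using this
    rw [h5, h5, ← h3]
    push_cast at h4 ⊢
    rw [h4]
  have hball : IsPreconnected (Metric.ball (0 : ℂ) (-psi)) := (convex_ball 0 _).isPreconnected
  have h0 : (0 : ℂ) ∈ Metric.ball (0 : ℂ) (-psi) := by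
    have := psi_neg
    simp
    exact this
  have han1 : AnalyticOnNhd ℂ (fun z => Fc z * aeval z D') (Metric.ball 0 (-psi)) := by
    apply DifferentiableOn.analyticOnNhd _ Metric.isOpen_ball
    exact differentiableOn_Fc.mul (Polynomial.differentiable_aeval D').differentiableOn
  have han2 : AnalyticOnNhd ℂ (fun z => aeval z P') (Metric.ball (0 : ℂ) (-psi)) := by
    apply DifferentiableOn.analyticOnNhd _ Metric.isOpen_ball
    exact (Polynomial.differentiable_aeval P').differentiableOn
  have heq := han1.eqOn_of_preconnected_of_frequently_eq han2 hball h0 hfreq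
  apply no_alg (P := P') hD0
  intro t h1 h2
  have h3 := heq (x := (t : ℂ)) (by
    simp only [Metric.mem_ball, dist_zero_right, Complex.norm_real, Real.norm_eq_abs]
    rw [abs_of_neg h2]
    linarith)
  have h5 : ∀ R : ℝ[X], aeval (t : ℂ) R = ((R.eval t : ℝ) : ℂ) := by
    intro R
    have := aeval_algebraMap_apply ℂ t R
    simpa using this
  simpa [h5] using h3

end Pool.Agent.MP_0e403a_al
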