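import Mathlib
import Pool.Agent.MP_0e403a_al.Count
import Pool.Agent.MP_0e403a_al.Tcount

set_option autoImplicit false
set_option linter.unusedSectionVars false

namespace Pool.Agent.MP_0e403a_al

open scoped BigOperators Polynomial Matrix
open Polynomial

section Pairs

variable {F : Type*} [Field F] [StarRing F] [Finite F] {m : ℕ}

theorem Phi_pos {f : F[X]} (hf : 0 < f.natDegree) : 0 < Phi f := by
  have : Nonempty {p : degreeLT F f.natDegree // IsCoprime (p : F[X]) f} :=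
    ⟨⟨⟨1, by rw [mem_degreeLT, degree_one]; exact_mod_cast hf⟩, isCoprime_one_left⟩⟩
  have := finite_degreeLT (F := F) f.natDegree
  exact Nat.card_pos

theorem pv_eq_of_kry {g g' : Matrix (Fin (m + 1)) (Fin (m + 1)) F} {v v' : Fin (m + 1) → F}
    (h : kry g v = kry g' v') (hch : g.charpoly = g'.charpoly) (p : F[X]) :
    pv g v p = pv g' v' p := by
  have h1 : ∀ r : F[X], r.natDegree < m + 1 → pv g v r = pv g' v' r := by
    intro r hr
    rw [pv_eq_sum g v r hr, pv_eq_sum g' v' r hr,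
      ← Fin.sum_univ_eq_sum_range (fun i => r.coeff i • ((g ^ i) *ᵥ v)),
      ← Fin.sum_univ_eq_sum_range (fun i => r.coeff i • ((g' ^ i) *ᵥ v'))]
    apply Finset.sum_congr rfl
    intro j _
    congr 1
    funext i
    exact congrFun (congrFun h i) j
  have h2 : ∀ (g : Matrix (Fin (m + 1)) (Fin (m + 1)) F) (v : Fin (m + 1) → F),
      pv g v p = pv g v (p %ₘ g.charpoly) := by
    intro g v
    have h3 := modByMonic_add_div p g.charpoly
    have h4 := congrArg (pv g v) h3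
    rw [pv_add, mul_comm, pv_mul, pv_charpoly, pv_zero, add_zero] at h4
    exact h4.symm
  rw [h2 g v, h2 g' v', hch]
  apply h1
  have h5 := natDegree_charpoly g'
  have h6 := natDegree_modByMonic_lt p g'.charpoly_monic (by
    intro h
    rw [h] at h5
    simp at h5)
  rwa [h5] at h6

/-- Pairs of an isometry with characteristic polynomial `f` and a cyclic vector. -/
def PairX (H : Matrix (Fin (m + 1)) (Fin (m + 1)) F) (f : F[X]) : Type _ :=
  {p : Matrix (Fin (m + 1)) (Fin (m + 1)) F × (Fin (m + 1) → F) //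
    (IsIsom H p.1 ∧ p.1.charpoly = f) ∧ IsCyc p.1 p.2}

/-- Pairs of a Hermitian sequence with minimal polynomial `f` and a congruence. -/
def PairY (H : Matrix (Fin (m + 1)) (Fin (m + 1)) F) (f : F[X]) : Type _ :=
  {p : Matrix (Fin (m + 1)) (Fin (m + 1)) F × (ℤ → F) //
    ((act f p.2 = 0 ∧ Jn p.2 = p.2) ∧ ∀ r : F[X], act r p.2 = 0 → f ∣ r) ∧
      p.1ᴴ * H * p.1 = toep (m + 1) p.2}

theorem card_PairX (H : Matrix (Fin (m + 1)) (Fin (m + 1)) F) (f : F[X]) :
    Nat.card (PairX H f) = Nat.card {g : Matrix (Fin (m + 1)) (Fin (m + 1)) F //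
      (IsIsom H g ∧ minpoly F g = g.charpoly) ∧ g.charpoly = f} * Phi f := by
  classical
  have e : PairX H f ≃ Σ g : {g : Matrix (Fin (m + 1)) (Fin (m + 1)) F //
      (IsIsom H g ∧ minpoly F g = g.charpoly) ∧ g.charpoly = f}, {v // IsCyc g.1 v} :=
    { toFun := fun p => ⟨⟨p.1.1, ⟨⟨p.2.1.1, minpoly_of_isCyc p.2.2⟩, p.2.1.2⟩⟩, ⟨p.1.2, p.2.2⟩⟩
      invFun := fun s => ⟨⟨s.1.1, s.2.1⟩, ⟨⟨s.1.2.1.1, s.1.2.2⟩, s.2.2⟩⟩
      left_inv := fun _ => rfl
      right_inv := fun _ => rfl }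
  rw [Nat.card_congr e]
  have : Fintype {g : Matrix (Fin (m + 1)) (Fin (m + 1)) F //
      (IsIsom H g ∧ minpoly F g = g.charpoly) ∧ g.charpoly = f} := Fintype.ofFinite _
  rw [Nat.card_sigma, Finset.sum_congr rfl (fun g _ => by
    rw [card_isCyc g.2.1.2, g.2.2]), Finset.sum_const, Finset.card_univ, smul_eq_mul,
    Nat.card_eq_fintype_card]

theorem card_PairY (hF : StarNontrivial F) {H : Matrix (Fin (m + 1)) (Fin (m + 1)) F}
    (hH : H.IsHermitian) (hdet : H.det ≠ 0) {f : F[X]} (hf : SD f) (hn : f.natDegree = m + 1) :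
    Nat.card (PairY H f) =
      hnum f * Nat.card {g : Matrix (Fin (m + 1)) (Fin (m + 1)) F // IsIsom H g} := by
  classical
  have e : PairY H f ≃ Σ c : {c : ℤ → F // (act f c = 0 ∧ Jn c = c) ∧
      ∀ p : F[X], act p c = 0 → f ∣ p},
      {b : Matrix (Fin (m + 1)) (Fin (m + 1)) F // bᴴ * H * b = toep (m + 1) c.1} :=
    { toFun := fun p => ⟨⟨p.1.2, p.2.1⟩, ⟨p.1.1, p.2.2⟩⟩
      invFun := fun s => ⟨⟨s.2.1, s.1.1⟩, ⟨s.1.2, s.2.2⟩⟩
      left_inv := fun _ => rfl
      right_inv := fun _ => rfl }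
  rw [Nat.card_congr e]
  have hfin : Finite {c : ℤ → F // (act f c = 0 ∧ Jn c = c) ∧
      ∀ p : F[X], act p c = 0 → f ∣ p} := by
    have := finite_Sol hf.monic hf.coeff_zero
    apply Finite.of_injective (fun c => (⟨c.1, mem_Sol.mpr c.2.1.1⟩ : Sol f))
    intro c d hcd
    have h1 : c.1 = d.1 := congrArg (fun z : Sol f => z.1) hcd
    exact Subtype.ext h1
  have : Fintype {c : ℤ → F // (act f c = 0 ∧ Jn c = c) ∧
      ∀ p : F[X], act p c = 0 → f ∣ p} := Fintype.ofFinite _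
  rw [Nat.card_sigma, Finset.sum_congr rfl (fun c _ => by
    rw [card_congr hF H (toep (m + 1) c.1) hH hdet (toep_isHermitian c.2.1.2)
      (toep_det_ne hf.monic hf.coeff_zero hn c.2.1.1 c.2.2)]), Finset.sum_const, Finset.card_univ,
    smul_eq_mul, ← Nat.card_eq_fintype_card]
  rfl

theorem card_PairX_eq_PairY {H : Matrix (Fin (m + 1)) (Fin (m + 1)) F}
    (hH : H.IsHermitian) (hdet : H.det ≠ 0) {f : F[X]} (hf : SD f) (hn : f.natDegree = m + 1) :
    Nat.card (PairX H f) = Nat.card (PairY H f) := by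
  classical
  apply Nat.card_congr
  refine Equiv.ofBijective (fun p : PairX H f => (⟨⟨kry p.1.1 p.1.2, seqOf H p.1.1 p.1.2⟩,
    ⟨⟨⟨?_, ?_⟩, ?_⟩, ?_⟩⟩ : PairY H f)) ⟨?_, ?_⟩
  · funext k
    have h1 : pv p.1.1 p.1.2 f = 0 := by
      have h2 := pv_charpoly p.1.1 p.1.2
      have h3 : p.1.1.charpoly = f := p.2.1.2
      rwa [h3] at h2
    change act f (seqOf H p.1.1 p.1.2) k = 0
    rw [act_seqOf p.2.1.1 hdet, h1, Matrix.mulVec_zero]
    simp [MP_0e403a_al.hf]
  · exact Jn_seqOf hH p.2.1.1 hdet _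
  · intro r hr
    have h3 : p.1.1.charpoly = f := p.2.1.2
    have h4 := seqOf_min p.2.1.1 hdet p.2.2 hr
    rwa [h3] at h4
  · exact gram_kry p.2.1.1 hdet _
  · intro p p' h
    have h1 : kry p.1.1 p.1.2 = kry p'.1.1 p'.1.2 := congrArg (fun z => z.1.1) h
    have h2 : p.1.1.charpoly = p'.1.1.charpoly := by rw [p.2.1.2, p'.2.1.2]
    have h3 := pv_eq_of_kry h1 h2
    have hv : p.1.2 = p'.1.2 := by
      have := h3 1
      simpa [pv] using this
    have hg : p.1.1 = p'.1.1 := by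
      apply Matrix.toLin'.injective
      apply LinearMap.ext
      intro u
      obtain ⟨r, rfl⟩ := isCyc_exists p.2.2 u
      have h4 : ∀ (g : Matrix (Fin (m + 1)) (Fin (m + 1)) F) (v : Fin (m + 1) → F),
          Matrix.toLin' g (pv g v r) = pv g v (X * r) := by
        intro g v
        rw [pv_mul]
        simp [pv]
      rw [h4, h3 (X * r), ← h4, h3 r]
    exact Subtype.ext (Prod.ext hg hv)
  · rintro ⟨⟨b, c⟩, ⟨⟨hc, hJ⟩, hmin⟩, hb⟩
    obtain ⟨g, v, h1, h2, h3, h4, h5⟩ := exists_isom_of_gram hf.monic hf.coeff_zero hn hc hJ hmin hH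
      hdet hb
    exact ⟨⟨⟨g, v⟩, ⟨⟨h1, h2⟩, h3⟩⟩, Subtype.ext (Prod.ext h4 h5)⟩

theorem card_cyclic_charpoly (hF : StarNontrivial F) {H : Matrix (Fin (m + 1)) (Fin (m + 1)) F}
    (hH : H.IsHermitian) (hdet : H.det ≠ 0) {f : F[X]} (hf : SD f) (hn : f.natDegree = m + 1) :
    (Nat.card {g : Matrix (Fin (m + 1)) (Fin (m + 1)) F //
      (IsIsom H g ∧ minpoly F g = g.charpoly) ∧ g.charpoly = f} : ℝ) =
    ((hnum f : ℝ) / (Phi f : ℝ)) *
      (Nat.card {g : Matrix (Fin (m + 1)) (Fin (m + 1)) F // IsIsom H g} : ℝ) := by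
  have h1 := card_PairX_eq_PairY hH hdet hf hn
  rw [card_PairX, card_PairY hF hH hdet hf hn] at h1
  have h2 : (Phi f : ℝ) ≠ 0 := by
    have := Phi_pos (f := f) (by omega)
    positivity
  have h3 := congrArg (Nat.cast : ℕ → ℝ) h1
  push_cast at h3
  rw [div_mul_eq_mul_div, eq_div_iff h2]
  exact h3

theorem SD_charpoly {H g : Matrix (Fin (m + 1)) (Fin (m + 1)) F}
    (hH : H.IsHermitian) (hdet : H.det ≠ 0) (hg : IsIsom H g) (hc : minpoly F g = g.charpoly) :
    SD g.charpoly := by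
  obtain ⟨v, hv⟩ := exists_isCyc hc
  have h0 : g.charpoly.coeff 0 ≠ 0 := by
    have hu := hg.det_isUnit hdet
    rw [Matrix.det_eq_sign_charpoly_coeff] at hu
    exact right_ne_zero_of_mul hu.ne_zero
  have h1 : act g.charpoly (seqOf H g v) = 0 := by
    funext k
    rw [act_seqOf hg hdet, pv_charpoly, Matrix.mulVec_zero]
    simp [hf]
  exact SD_of_ann (Jn_seqOf hH hg hdet v) h0 h1 g.charpoly_monic h1
    (fun p hp => seqOf_min hg hdet hv hp)

/-- The number of cyclic isometries, as a sum over self-dual polynomials. -/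
theorem card_cyclic (hF : StarNontrivial F) {H : Matrix (Fin (m + 1)) (Fin (m + 1)) F}
    (hH : H.IsHermitian) (hdet : H.det ≠ 0) :
    (Nat.card {g : Matrix (Fin (m + 1)) (Fin (m + 1)) F //
      IsIsom H g ∧ minpoly F g = g.charpoly} : ℝ) =
    (∑ f ∈ sdFin F (m + 1), (hnum f : ℝ) / (Phi f : ℝ)) *
      (Nat.card {g : Matrix (Fin (m + 1)) (Fin (m + 1)) F // IsIsom H g} : ℝ) := by
  classical
  rw [Finset.sum_mul]
  have : Fintype (Matrix (Fin (m + 1)) (Fin (m + 1)) F) := Fintype.ofFinite _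
  have h1 : Nat.card {g : Matrix (Fin (m + 1)) (Fin (m + 1)) F //
      IsIsom H g ∧ minpoly F g = g.charpoly} = ∑ f ∈ sdFin F (m + 1),
      Nat.card {g : Matrix (Fin (m + 1)) (Fin (m + 1)) F //
      (IsIsom H g ∧ minpoly F g = g.charpoly) ∧ g.charpoly = f} := by
    rw [Nat.card_eq_fintype_card, Fintype.card_subtype]
    rw [Finset.card_eq_sum_card_fiberwise (f := fun g => g.charpoly) (t := sdFin F (m + 1))]
    · apply Finset.sum_congr rfl
      intro f _
      rw [Nat.card_eq_fintype_card, Fintype.card_subtype, Finset.filter_filter]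
    · intro g hg
      have hg' := (Finset.mem_filter.mp hg).2
      exact Finset.mem_coe.mpr (mem_sdFin.mpr ⟨SD_charpoly hH hdet hg'.1 hg'.2, natDegree_charpoly g⟩)
  rw [h1]
  push_cast
  apply Finset.sum_congr rfl
  intro f hf
  obtain ⟨hf1, hf2⟩ := mem_sdFin.mp hf
  exact card_cyclic_charpoly hF hH hdet hf1 hf2

/-- The proportion of cyclic isometries. -/
theorem cyclic_proportion (hF : StarNontrivial F) {q : ℕ} (hq : Nat.card F = q ^ 2)
    {H : Matrix (Fin (m + 1)) (Fin (m + 1)) F}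
    (hH : H.IsHermitian) (hdet : H.det ≠ 0) :
    (Nat.card {g : Matrix (Fin (m + 1)) (Fin (m + 1)) F //
      IsIsom H g ∧ minpoly F g = g.charpoly} : ℝ) /
      (Nat.card {g : Matrix (Fin (m + 1)) (Fin (m + 1)) F // IsIsom H g} : ℝ) =
    ((q : ℝ) ^ (m + 1))⁻¹ * ∑ f ∈ sdFin F (m + 1),
      ∏ P ∈ primesOf f, (1 - ((-(q : ℝ)) ^ P.natDegree)⁻¹)⁻¹ := by
  have : Nonempty {g : Matrix (Fin (m + 1)) (Fin (m + 1)) F // IsIsom H g} :=
    ⟨⟨1, by simp [IsIsom]⟩⟩
  have hpos : (Nat.card {g : Matrix (Fin (m + 1)) (Fin (m + 1)) F // IsIsom H g} : ℝ) ≠ 0 := by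
    have : 0 < Nat.card {g : Matrix (Fin (m + 1)) (Fin (m + 1)) F // IsIsom H g} := Nat.card_pos
    positivity
  rw [card_cyclic hF hH hdet, mul_div_cancel_right₀ _ hpos, Finset.mul_sum]
  apply Finset.sum_congr rfl
  intro f hf
  obtain ⟨hf1, hf2⟩ := mem_sdFin.mp hf
  rw [hnum_div_Phi hF hq hf1, hf2]

end Pairs

end Pool.Agent.MP_0e403a_al
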